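import Mathlib

set_option autoImplicit false

namespace Pool.Agent.Lib.MP_51cccb_an.Cc

open Complex Metric

lemma one_add_ne {w : ℂ} (hw : -1 / 2 < w.re) : 1 + w ≠ 0 := by
  intro h
  have := congrArg Complex.re h
  simp at this
  linarith

lemma norm_psi_lt {w : ℂ} (hw : -1 / 2 < w.re) : ‖w / (1 + w)‖ < 1 := by
  have h1 := one_add_ne hw
  rw [norm_div, div_lt_one (norm_pos_iff.mpr h1)]
  refine lt_of_pow_lt_pow_left₀ 2 (norm_nonneg _) ?_
  rw [Complex.sq_norm, Complex.sq_norm, Complex.normSq_apply, Complex.normSq_apply]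
  simp
  nlinarith

lemma one_sub_ne {z : ℂ} (hz : ‖z‖ < 1) : 1 - z ≠ 0 := by
  intro h
  have h2 : z = 1 := by linear_combination -h
  rw [h2] at hz
  simp at hz

lemma re_inv_gt {z : ℂ} (hz : ‖z‖ < 1) : -1 / 2 < (z / (1 - z)).re := by
  have h1 := one_sub_ne hz
  have h2 : 0 < normSq (1 - z) := normSq_pos.mpr h1
  have h3 : ‖z‖ ^ 2 < 1 := by nlinarith [norm_nonneg z]
  rw [Complex.sq_norm, Complex.normSq_apply] at h3
  rw [Complex.div_re, ← add_div, lt_div_iff₀ h2, Complex.normSq_apply]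
  simp
  nlinarith

lemma psi_inv {z : ℂ} (hz : ‖z‖ < 1) : (z / (1 - z)) / (1 + z / (1 - z)) = z := by
  have h1 := one_sub_ne hz
  have h2 : 1 + z / (1 - z) = 1 / (1 - z) := by
    field_simp
    ring
  rw [h2]
  field_simp

lemma seg_deriv {f f' : ℂ → ℂ} (hf : ∀ z, ‖z‖ < 1 → HasDerivAt f (f' z) z) (w v : ℂ) {τ : ℝ}
    (h : -1 / 2 < (w + τ * v).re) :
    HasDerivAt (fun τ : ℝ => (f ((w + τ * v) / (1 + (w + τ * v))) * (starRingEnd ℂ) v).re)
      (‖v‖ ^ 2 * ((1 - (w + τ * v) / (1 + (w + τ * v))) ^ 2 *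
        f' ((w + τ * v) / (1 + (w + τ * v)))).re) τ := by
  have h0 := one_add_ne h
  have h1 : HasDerivAt (fun y : ℂ => w + y * v) v (τ : ℂ) := by
    simpa using ((hasDerivAt_id (τ : ℂ)).mul_const v).const_add w
  have h2 : HasDerivAt (fun y : ℂ => (w + y * v) / (1 + (w + y * v)))
      ((v * (1 + (w + τ * v)) - (w + τ * v) * v) / (1 + (w + τ * v)) ^ 2) (τ : ℂ) :=
    h1.div (h1.const_add 1) h0
  have h3 := ((hf _ (norm_psi_lt h)).comp (τ : ℂ) h2).mul_const ((starRingEnd ℂ) v)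
  have h4 := h3.real_of_complex
  have h5 : f' ((w + τ * v) / (1 + (w + τ * v))) *
      ((v * (1 + (w + τ * v)) - (w + τ * v) * v) / (1 + (w + τ * v)) ^ 2) * (starRingEnd ℂ) v =
      ((‖v‖ ^ 2 : ℝ) : ℂ) * ((1 - (w + τ * v) / (1 + (w + τ * v))) ^ 2 *
        f' ((w + τ * v) / (1 + (w + τ * v)))) := by
    rw [Complex.sq_norm, ← Complex.mul_conj]
    field_simp
    ring
  rw [h5, Complex.re_ofReal_mul] at h4
  exact h4

lemma incr {R R' : ℝ → ℝ} {a b κ : ℝ} (hab : a ≤ b)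
    (hR : ∀ τ ∈ Set.Icc a b, HasDerivAt R (R' τ) τ) (hκ : ∀ τ ∈ Set.Icc a b, κ ≤ R' τ) :
    κ * (b - a) ≤ R b - R a := by
  rcases hab.eq_or_lt with h | h
  · simp [h]
  · obtain ⟨c, hc, hc2⟩ := exists_hasDerivAt_eq_slope R R' h
      (fun τ hτ => (hR τ hτ).continuousAt.continuousWithinAt)
      (fun τ hτ => hR τ (Set.Ioo_subset_Icc_self hτ))
    have := hκ c (Set.Ioo_subset_Icc_self hc)
    rw [hc2, le_div_iff₀ (by linarith)] at this
    exact this

lemma injOn_of_re_pos {f f' : ℂ → ℂ} (hf : ∀ z, ‖z‖ < 1 → HasDerivAt f (f' z) z)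
    (hpos : ∀ z, ‖z‖ < 1 → 0 < ((1 - z) ^ 2 * f' z).re) : Set.InjOn f (ball (0 : ℂ) 1) := by
  intro z1 hz1 z2 hz2 heq
  rw [mem_ball_zero_iff] at hz1 hz2
  by_contra hne
  have h1 := re_inv_gt hz1
  have h2 := re_inv_gt hz2
  have e1 := psi_inv hz1
  have e2 := psi_inv hz2
  generalize z1 / (1 - z1) = w1 at h1 e1
  generalize z2 / (1 - z2) = w2 at h2 e2
  have hv : w2 - w1 ≠ 0 := by
    intro h
    have h3 : w2 = w1 := by linear_combination h
    rw [h3] at e2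
    exact hne (e1.symm.trans e2)
  have hseg : ∀ τ ∈ Set.Icc (0 : ℝ) 1, -1 / 2 < (w1 + τ * (w2 - w1)).re := by
    intro τ hτ
    simp only [add_re, re_ofReal_mul, sub_re]
    rcases hτ.1.eq_or_lt with h | h
    · rw [← h]
      linarith
    · nlinarith [hτ.2]
  obtain ⟨c, hc, hc2⟩ := exists_hasDerivAt_eq_slope _ _ (zero_lt_one' ℝ)
    (fun τ hτ => (seg_deriv hf w1 (w2 - w1) (hseg τ hτ)).continuousAt.continuousWithinAt)
    (fun τ hτ => seg_deriv hf w1 (w2 - w1) (hseg τ (Set.Ioo_subset_Icc_self hτ)))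
  have h3 := hpos _ (norm_psi_lt (hseg c (Set.Ioo_subset_Icc_self hc)))
  have h4 : 0 < ‖w2 - w1‖ ^ 2 := by positivity
  have h5 := mul_pos h4 h3
  rw [hc2] at h5
  simp only [ofReal_one, one_mul, add_sub_cancel, ofReal_zero, zero_mul, add_zero, e1, e2,
    heq, sub_self, zero_div] at h5
  exact lt_irrefl _ h5

lemma growth {f f' : ℂ → ℂ} (hf : ∀ z, ‖z‖ < 1 → HasDerivAt f (f' z) z) (h0 : f 0 = 0)
    (hpos : ∀ z, ‖z‖ < 1 → 0 < ((1 - z) ^ 2 * f' z).re) {μ : ℝ}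
    (hsm : ∀ z, ‖z‖ ≤ 1 / 3 → μ / 2 ≤ ((1 - z) ^ 2 * f' z).re) {z : ℂ} (hz : ‖z‖ < 1)
    (hz2 : 1 / 2 ≤ ‖z‖) : μ / 8 ≤ ‖f z‖ := by
  have h1 := re_inv_gt hz
  have e1 := psi_inv hz
  have hw : 1 / 4 ≤ ‖z / (1 - z)‖ := by
    rw [norm_div, le_div_iff₀ (norm_pos_iff.mpr (one_sub_ne hz))]
    have := norm_sub_le (1 : ℂ) z
    rw [norm_one] at this
    linarith
  generalize z / (1 - z) = w at h1 e1 hw
  have hw0 : 0 < ‖w‖ := by linarith
  have hseg : ∀ τ ∈ Set.Icc (0 : ℝ) 1, -1 / 2 < (0 + τ * w).re := by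
    intro τ hτ
    simp only [zero_add, re_ofReal_mul]
    rcases hτ.1.eq_or_lt with h | h
    · rw [← h]
      norm_num
    · nlinarith [hτ.2]
  have ht0 : 0 ≤ 1 / (4 * ‖w‖) := by positivity
  have ht1 : 1 / (4 * ‖w‖) ≤ 1 := by
    rw [div_le_one (by positivity)]
    linarith
  have i1 := incr (κ := ‖w‖ ^ 2 * (μ / 2)) ht0
    (fun τ hτ => seg_deriv hf 0 w (hseg τ ⟨hτ.1, hτ.2.trans ht1⟩)) (by
      intro τ hτ
      refine mul_le_mul_of_nonneg_left (hsm _ ?_) (by positivity)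
      have h3 : ‖(0 + τ * w : ℂ)‖ ≤ 1 / 4 := by
        rw [zero_add, norm_mul, Complex.norm_real, Real.norm_of_nonneg hτ.1]
        have h4 := hτ.2
        rw [le_div_iff₀ (by positivity)] at h4
        linarith
      have h4 : 3 / 4 ≤ ‖1 + (0 + τ * w : ℂ)‖ := by
        have := norm_sub_norm_le (1 : ℂ) (-(0 + τ * w : ℂ))
        rw [norm_one, norm_neg, sub_neg_eq_add] at this
        linarith
      rw [norm_div, div_le_iff₀ (by linarith)]
      linarith)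
  have i2 := incr (κ := 0) ht1
    (fun τ hτ => seg_deriv hf 0 w (hseg τ ⟨ht0.trans hτ.1, hτ.2⟩)) (by
      intro τ hτ
      exact mul_nonneg (by positivity) (hpos _ (norm_psi_lt (hseg τ ⟨ht0.trans hτ.1, hτ.2⟩))).le)
  have h5 : (f z * (starRingEnd ℂ) w).re ≤ ‖f z‖ * ‖w‖ := by
    refine (Complex.re_le_norm _).trans (le_of_eq ?_)
    rw [norm_mul, Complex.norm_conj]
  simp only [ofReal_one, one_mul, ofReal_zero, zero_mul, add_zero, zero_add, e1, zero_div, h0,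
    zero_re, sub_zero] at i1 i2
  have h6 : ‖w‖ ^ 2 * (μ / 2) * (1 / (4 * ‖w‖)) = μ / 8 * ‖w‖ := by
    field_simp
    ring
  refine le_of_mul_le_mul_right ?_ hw0
  linarith

lemma exists_log {f f' : ℂ → ℂ} (hf : ∀ z, ‖z‖ < 1 → HasDerivAt f (f' z) z) (h0 : f 0 = 0)
    (h1 : f' 0 = 1) (hne : ∀ z, ‖z‖ < 1 → z ≠ 0 → f z ≠ 0) :
    ∃ g : ℂ → ℂ, DifferentiableOn ℂ g (ball (0 : ℂ) 1) ∧ g 0 = 0 ∧
      (∀ z, ‖z‖ < 1 → f z = z * exp (g z)) ∧
      ∀ z, ‖z‖ < 1 → z ≠ 0 → z * deriv g z = z * f' z / f z - 1 := by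
  have hd : DifferentiableOn ℂ f (ball (0 : ℂ) 1) := fun z hz =>
    (hf z (mem_ball_zero_iff.mp hz)).differentiableAt.differentiableWithinAt
  have hq : DifferentiableOn ℂ (dslope f 0) (ball (0 : ℂ) 1) :=
    (Complex.differentiableOn_dslope (ball_mem_nhds _ one_pos)).mpr hd
  have hq0 : dslope f 0 0 = 1 := by
    rw [dslope_same, (hf 0 (by simp)).deriv, h1]
  have hfq : ∀ z, f z = z * dslope f 0 z := by
    intro z
    have := sub_smul_dslope f 0 z
    rw [sub_zero, h0, sub_zero, smul_eq_mul] at this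
    exact this.symm
  have hqne : ∀ z ∈ ball (0 : ℂ) 1, dslope f 0 z ≠ 0 := by
    intro z hz
    by_cases hz0 : z = 0
    · rw [hz0, hq0]
      exact one_ne_zero
    · intro h
      exact hne z (mem_ball_zero_iff.mp hz) hz0 (by rw [hfq, h, mul_zero])
  generalize dslope f 0 = q at hq hq0 hfq hqne
  obtain ⟨g, hg0, hg⟩ := ((hq.deriv isOpen_ball).div hq hqne).isExactOn_ball.with_val_at 0 0
  have hgd : DifferentiableOn ℂ g (ball (0 : ℂ) 1) := fun z hz =>
    (hg z hz).differentiableAt.differentiableWithinAt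
  have hc : ∀ z ∈ ball (0 : ℂ) 1, q z * exp (-g z) = q 0 * exp (-g 0) := by
    intro z hz
    refine isOpen_ball.is_const_of_deriv_eq_zero (f := fun z => q z * exp (-g z))
      (convex_ball (0 : ℂ) 1).isPreconnected (hq.mul hgd.neg.cexp) ?_ hz (by simp)
    intro y hy
    have h2 := ((hq y hy).differentiableAt (isOpen_ball.mem_nhds hy)).hasDerivAt
    have h3 := (h2.mul (hg y hy).neg.cexp).deriv
    have h4 := hqne y hy
    refine h3.trans ?_
    simp only [Pi.div_apply, Pi.neg_apply, Pi.zero_apply]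
    field_simp
    ring
  have hfe : ∀ z, ‖z‖ < 1 → f z = z * exp (g z) := by
    intro z hz
    have h2 := hc z (mem_ball_zero_iff.mpr hz)
    rw [hq0, hg0, neg_zero, Complex.exp_zero, mul_one, Complex.exp_neg] at h2
    have h3 := Complex.exp_ne_zero (g z)
    rw [hfq z]
    congr 1
    field_simp at h2
    exact h2
  refine ⟨g, hgd, hg0, hfe, fun z hz hz0 => ?_⟩
  have hz' := mem_ball_zero_iff.mpr hz
  have h2 := ((hgd z hz').differentiableAt (isOpen_ball.mem_nhds hz')).hasDerivAt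
  have h3 := (hasDerivAt_id z).mul h2.cexp
  have h4 : f =ᶠ[nhds z] (id * fun x => exp (g x)) := by
    filter_upwards [isOpen_ball.mem_nhds hz'] with y hy
    exact hfe y (mem_ball_zero_iff.mp hy)
  have h5 := (hf z hz).unique (h3.congr_of_eventuallyEq h4)
  have h6 := Complex.exp_ne_zero (g z)
  rw [h5, hfe z hz]
  simp only [id_eq]
  field_simp
  ring

end Pool.Agent.Lib.MP_51cccb_an.Cc
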