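import Mathlib

set_option autoImplicit false

namespace Pool.Agent.Lib.MP_51cccb_an

open Complex Metric

/-- Half of the Taylor coefficients at the origin. -/
noncomputable def coef (g : ℂ → ℂ) (k : ℕ) : ℂ := iteratedDeriv k g 0 / (2 * (k.factorial : ℂ))

lemma hasSum_coef {g : ℂ → ℂ} (hg : DifferentiableOn ℂ g (ball (0 : ℂ) 1)) (h0 : g 0 = 0)
    {z : ℂ} (hz : ‖z‖ < 1) : HasSum (fun k : ℕ => coef g (k + 1) * z ^ (k + 1)) (g z / 2) := by
  have h1 := hasSum_taylorSeries_on_ball hg (z := z) (by simpa using hz)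
  have h2 := (hasSum_nat_add_iff' 1).mpr h1
  simp only [Finset.range_one, Finset.sum_singleton, iteratedDeriv_zero, h0, smul_zero,
    sub_zero] at h2
  refine (h2.div_const 2).congr_fun ?_
  intro k
  have : ((k + 1).factorial : ℂ) ≠ 0 := by exact_mod_cast (k + 1).factorial_ne_zero
  simp only [coef, smul_eq_mul]
  field_simp

lemma hasSum_coef_deriv {g : ℂ → ℂ} (hg : DifferentiableOn ℂ g (ball (0 : ℂ) 1))
    {z : ℂ} (hz : ‖z‖ < 1) :
    HasSum (fun k : ℕ => (((k : ℂ) + 1) * coef g (k + 1)) * z ^ (k + 1)) (z * deriv g z / 2) := by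
  have h1 := hasSum_taylorSeries_on_ball (hg.deriv isOpen_ball) (z := z) (by simpa using hz)
  refine ((h1.mul_left z).div_const 2).congr_fun ?_
  intro k
  have h2 : ((k).factorial : ℂ) ≠ 0 := by exact_mod_cast (k).factorial_ne_zero
  have h3 : ((k : ℂ) + 1) ≠ 0 := by exact_mod_cast k.succ_ne_zero
  simp only [coef, smul_eq_mul, iteratedDeriv_succ', Nat.factorial_succ, sub_zero]
  push_cast
  field_simp
  ring

lemma duality {E : Type} [Fintype E] {c : ℕ → ℂ} {G : ℂ → ℂ}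
    (h : ∀ z : ℂ, ‖z‖ < 1 → HasSum (fun k : ℕ => c k * z ^ (k + 1)) (G z))
    {r : ℝ} (hr0 : 0 ≤ r) (hr1 : r < 1) (W φ : E → ℂ) (hφ : ∀ ε, ‖φ ε‖ = 1) {B : ℝ}
    (hB : ∀ k : ℕ, ‖∑ ε, W ε * φ ε ^ k‖ ≤ B) :
    ‖∑ ε, W ε * G (r * φ ε)‖ ≤ B * ∑' k : ℕ, ‖c k‖ * r ^ (k + 1) := by
  have hn : ∀ ε, ‖(r : ℂ) * φ ε‖ < 1 := by
    intro ε
    rw [norm_mul, hφ, mul_one, Complex.norm_real, Real.norm_of_nonneg hr0]
    exact hr1
  have h1 : HasSum (fun k : ℕ => ∑ ε, W ε * (c k * ((r : ℂ) * φ ε) ^ (k + 1)))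
      (∑ ε, W ε * G (r * φ ε)) :=
    hasSum_sum fun ε _ => (h _ (hn ε)).mul_left (W ε)
  have h2 : Summable fun k : ℕ => ‖c k‖ * r ^ (k + 1) := by
    have h3 := (h (r : ℂ) (by rw [Complex.norm_real, Real.norm_of_nonneg hr0]; exact hr1)).summable
    have h4 := summable_norm_iff.mpr h3
    refine h4.congr fun k => ?_
    rw [norm_mul, norm_pow, Complex.norm_real, Real.norm_of_nonneg hr0]
  rw [← h1.tsum_eq]
  refine tsum_of_norm_bounded (h2.hasSum.mul_left B) fun k => ?_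
  have h5 : ∑ ε, W ε * (c k * ((r : ℂ) * φ ε) ^ (k + 1)) =
      (c k * (r : ℂ) ^ (k + 1)) * ∑ ε, W ε * φ ε ^ (k + 1) := by
    rw [Finset.mul_sum]
    refine Finset.sum_congr rfl fun ε _ => ?_
    ring
  rw [h5, norm_mul, norm_mul, norm_pow, Complex.norm_real, Real.norm_of_nonneg hr0, mul_comm]
  exact mul_le_mul_of_nonneg_right (hB _) (by positivity)

/-- The signs attached to the three symbols. -/
def sgn3 : Fin 3 → ℤ := ![0, 1, -1]

/-- The angle attached to a word. -/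
noncomputable def ang {m : ℕ} (θ : Fin m → ℝ) (ε : Fin m → Fin 3) : ℝ :=
  ∑ j, (sgn3 (ε j) : ℝ) * θ j

/-- The weight attached to a word. -/
noncomputable def wgt {m : ℕ} (a : ℝ) (w : Fin m → ℂ) (ε : Fin m → Fin 3) : ℂ :=
  ∏ j, ![1, a * w j, -(a * (starRingEnd ℂ) (w j))] (ε j)

lemma norm_one_add_imag (X : ℂ) : ‖1 + (X - (starRingEnd ℂ) X)‖ ≤ Real.exp (2 * ‖X‖ ^ 2) := by
  have h1 : ‖1 + (X - (starRingEnd ℂ) X)‖ ^ 2 = 1 + 4 * X.im ^ 2 := by
    rw [Complex.sq_norm, Complex.normSq_apply]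
    simp
    ring
  have h2 : X.im ^ 2 ≤ ‖X‖ ^ 2 := by
    rw [Complex.sq_norm, Complex.normSq_apply]
    nlinarith [sq_nonneg X.re]
  have h3 : 2 * ‖X‖ ^ 2 + 1 ≤ Real.exp (2 * ‖X‖ ^ 2) := Real.add_one_le_exp _
  refine le_trans ?_ h3
  refine le_of_sq_le_sq ?_ (by positivity)
  rw [h1]
  nlinarith [sq_nonneg (‖X‖ ^ 2)]

lemma riesz_bound {m : ℕ} (θ : Fin m → ℝ) {a : ℝ} (ha : 0 ≤ a) (w : Fin m → ℂ)
    (hw : ∀ j, ‖w j‖ = 1) (k : ℕ) :
    ‖∑ ε : Fin m → Fin 3, wgt a w ε * exp (I * (-(ang θ ε) : ℝ)) ^ k‖ ≤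
      Real.exp (2 * a ^ 2 * m) := by
  have h1 : ∀ ε : Fin m → Fin 3, wgt a w ε * exp (I * (-(ang θ ε) : ℝ)) ^ k =
      ∏ j, (![1, a * w j, -(a * (starRingEnd ℂ) (w j))] (ε j) *
        exp (I * (-((sgn3 (ε j) : ℝ) * θ j) * k : ℝ))) := by
    intro ε
    rw [Finset.prod_mul_distrib, ← Complex.exp_sum, ← Complex.exp_nat_mul, wgt, ang]
    congr 2
    push_cast
    rw [← Finset.sum_neg_distrib, Finset.mul_sum, Finset.mul_sum]
    refine Finset.sum_congr rfl fun j _ => ?_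
    ring
  simp only [h1]
  rw [← Fintype.piFinset_univ, ← Finset.prod_univ_sum (fun _ => Finset.univ)
    (fun (j : Fin m) (s : Fin 3) => ![1, a * w j, -(a * (starRingEnd ℂ) (w j))] s *
        exp (I * (-((sgn3 s : ℝ) * θ j) * k : ℝ))), norm_prod]
  have h2 : ∀ j, ‖∑ s : Fin 3, ![1, a * w j, -(a * (starRingEnd ℂ) (w j))] s *
        exp (I * (-((sgn3 s : ℝ) * θ j) * k : ℝ))‖ ≤ Real.exp (2 * a ^ 2) := by
    intro j
    have h3 := norm_one_add_imag (a * w j * exp (I * (-(θ j) * k : ℝ)))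
    have h4 : ‖a * w j * exp (I * (-(θ j) * k : ℝ))‖ = a := by
      rw [norm_mul, norm_mul, hw, Complex.norm_exp_I_mul_ofReal, Complex.norm_real,
        Real.norm_of_nonneg ha]
      ring
    rw [h4] at h3
    convert h3 using 2
    rw [Fin.sum_univ_three]
    simp only [sgn3, map_mul, conj_ofReal, ← Complex.exp_conj, conj_I]
    simp
    ring
  calc ∏ j : Fin m, ‖∑ s : Fin 3, ![1, a * w j, -(a * (starRingEnd ℂ) (w j))] s *
        exp (I * (-((sgn3 s : ℝ) * θ j) * k : ℝ))‖ ≤ ∏ _j : Fin m, Real.exp (2 * a ^ 2) :=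
        Finset.prod_le_prod (fun j _ => norm_nonneg _) fun j _ => h2 j
    _ = _ := by
        rw [Finset.prod_const, Finset.card_univ, Fintype.card_fin, ← Real.exp_nat_mul]
        congr 1
        ring

lemma norm_wgt_le {m : ℕ} {a : ℝ} (ha : 0 ≤ a) (ha1 : a ≤ 1) (w : Fin m → ℂ)
    (hw : ∀ j, ‖w j‖ = 1) (ε : Fin m → Fin 3) : ‖wgt a w ε‖ ≤ 1 := by
  rw [wgt, norm_prod]
  refine Finset.prod_le_one (fun j _ => norm_nonneg _) fun j _ => ?_
  generalize ε j = s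
  fin_cases s <;> simp [hw, abs_of_nonneg ha, ha1]

lemma wgt_single {m : ℕ} (a : ℝ) (w : Fin m → ℂ) (j : Fin m) :
    wgt a w (Pi.single j 1) = a * w j := by
  rw [wgt, Finset.prod_eq_single j]
  · simp
  · intro k _ hk
    simp [hk]
  · simp

lemma ang_single {m : ℕ} (θ : Fin m → ℝ) (j : Fin m) : ang θ (Pi.single j 1) = θ j := by
  rw [ang, Finset.sum_eq_single j]
  · simp [sgn3]
  · intro k _ hk
    simp [hk, sgn3]
  · simp

lemma ang_zero {m : ℕ} (θ : Fin m → ℝ) : ang θ 0 = 0 := by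
  simp [ang, sgn3]

theorem lower_bound {c : ℕ → ℂ} {G : ℂ → ℂ}
    (h : ∀ z : ℂ, ‖z‖ < 1 → HasSum (fun k : ℕ => c k * z ^ (k + 1)) (G z))
    {r : ℝ} (hr0 : 0 ≤ r) (hr1 : r < 1) {m : ℕ} (θ : Fin m → ℝ) {a L K E : ℝ}
    (ha : 0 ≤ a) (ha1 : a ≤ 1) (hE : 0 ≤ E)
    (hpeak : ∀ j, L ≤ ‖G (r * exp (I * (-(θ j) : ℝ)))‖)
    (hzero : ‖G r‖ ≤ K)
    (hrest : ∀ ε : Fin m → Fin 3, ε ≠ 0 → (∀ j, ε ≠ Pi.single j 1) →
      ‖G (r * exp (I * (-(ang θ ε) : ℝ)))‖ ≤ E) :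
    m * (a * L) - K - 3 ^ m * E ≤ Real.exp (2 * a ^ 2 * m) * ∑' k : ℕ, ‖c k‖ * r ^ (k + 1) := by
  classical
  choose w hw hw2 using fun j => Complex.exists_norm_eq_mul_self (G (r * exp (I * (-(θ j) : ℝ))))
  have h1 := duality h hr0 hr1 (wgt a w) (fun ε => exp (I * (-(ang θ ε) : ℝ)))
    (fun ε => Complex.norm_exp_I_mul_ofReal _) (riesz_bound θ ha w hw)
  refine le_trans ?_ ((Complex.re_le_norm _).trans h1)
  rw [Complex.re_sum]
  have hK : 0 ≤ K := (norm_nonneg _).trans hzero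
  have hinj : ∀ j k : Fin m, (Pi.single j 1 : Fin m → Fin 3) = Pi.single k 1 → j = k := by
    intro j k hjk
    by_contra hne
    have := congrFun hjk j
    simp [hne] at this
  have hne0 : ∀ j : Fin m, (0 : Fin m → Fin 3) ≠ Pi.single j 1 := by
    intro j hj
    have := congrFun hj j
    simp at this
  have hterm : ∀ ε : Fin m → Fin 3,
      (∑ j : Fin m, if ε = Pi.single j 1 then a * L else 0) - (if ε = 0 then K else 0) - E ≤
      (wgt a w ε * G (r * exp (I * (-(ang θ ε) : ℝ)))).re := by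
    intro ε
    have hlow : -‖G (r * exp (I * (-(ang θ ε) : ℝ)))‖ ≤
        (wgt a w ε * G (r * exp (I * (-(ang θ ε) : ℝ)))).re := by
      have h2 := Complex.abs_re_le_norm (wgt a w ε * G (r * exp (I * (-(ang θ ε) : ℝ))))
      rw [norm_mul] at h2
      have h3 := mul_le_of_le_one_left (norm_nonneg (G (r * exp (I * (-(ang θ ε) : ℝ)))))
        (norm_wgt_le ha ha1 w hw ε)
      linarith [neg_abs_le (wgt a w ε * G (r * exp (I * (-(ang θ ε) : ℝ)))).re]
    by_cases hp : ∃ j, ε = Pi.single j 1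
    · obtain ⟨j, rfl⟩ := hp
      rw [Finset.sum_eq_single j, if_pos rfl, if_neg (hne0 j).symm, wgt_single, ang_single,
        mul_assoc, ← hw2 j, ← Complex.ofReal_mul, Complex.ofReal_re]
      · have := mul_le_mul_of_nonneg_left (hpeak j) ha
        linarith
      · intro k _ hk
        rw [if_neg fun h3 => hk (hinj _ _ h3).symm]
      · simp
    · push Not at hp
      rw [Finset.sum_eq_zero fun j _ => if_neg (hp j)]
      by_cases h0 : ε = 0
      · rw [if_pos h0]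
        rw [h0, ang_zero] at hlow ⊢
        simp only [neg_zero, ofReal_zero, mul_zero, Complex.exp_zero, mul_one] at hlow ⊢
        linarith
      · rw [if_neg h0]
        have := hrest ε h0 hp
        linarith
  refine le_trans (le_of_eq ?_) (Finset.sum_le_sum fun ε _ => hterm ε)
  rw [Finset.sum_sub_distrib, Finset.sum_sub_distrib, Finset.sum_comm]
  simp

lemma digits_zero : ∀ (m : ℕ) (d : Fin m → ℤ), (∀ j, |d j| ≤ 2) →
    ∑ j, d j * 16 ^ (j : ℕ) = 0 → ∀ j, d j = 0 := by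
  intro m
  induction m with
  | zero => intro d _ _ j; exact j.elim0
  | succ m ih =>
    intro d hd hs
    rw [Fin.sum_univ_succ] at hs
    have h1 : ∑ j : Fin m, d j.succ * 16 ^ ((j.succ : Fin (m + 1)) : ℕ) =
        16 * ∑ j : Fin m, d j.succ * 16 ^ (j : ℕ) := by
      rw [Finset.mul_sum]
      refine Finset.sum_congr rfl fun j _ => ?_
      rw [Fin.val_succ, pow_succ]
      ring
    rw [h1] at hs
    have h2 := abs_le.mp (hd 0)
    simp only [Fin.val_zero, pow_zero, mul_one] at hs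
    have h3 : d 0 = 0 := by omega
    have h4 : ∑ j : Fin m, d j.succ * 16 ^ (j : ℕ) = 0 := by omega
    intro j
    refine Fin.cases h3 (fun i => ?_) j
    exact ih (fun j => d j.succ) (fun j => hd _) h4 i

lemma digits_sep {m : ℕ} (d : Fin m → ℤ) (hd : ∀ j, |d j| ≤ 2) (hne : ∃ j, d j ≠ 0) {δ : ℝ}
    (hδ : 0 ≤ δ) : δ ≤ |∑ j, (d j : ℝ) * (16 ^ (j : ℕ) * δ)| := by
  have h1 : ∑ j, d j * 16 ^ (j : ℕ) ≠ 0 := by
    intro h
    obtain ⟨j, hj⟩ := hne
    exact hj (digits_zero m d hd h j)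
  have h2 : (1 : ℝ) ≤ |((∑ j, d j * 16 ^ (j : ℕ) : ℤ) : ℝ)| := by
    exact_mod_cast Int.one_le_abs h1
  have h3 : ∑ j, (d j : ℝ) * (16 ^ (j : ℕ) * δ) = ((∑ j, d j * 16 ^ (j : ℕ) : ℤ) : ℝ) * δ := by
    push_cast
    rw [Finset.sum_mul]
    refine Finset.sum_congr rfl fun j _ => ?_
    ring
  rw [h3, abs_mul, abs_of_nonneg hδ]
  nlinarith

lemma norm_one_sub_ge {s β : ℝ} (hs0 : 0 ≤ s) (hs1 : s ≤ 1) (hβ : |β| ≤ 3) :
    |β| / 4 ≤ ‖1 - (s : ℂ) * exp (I * β)‖ := by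
  have hpi := Real.pi_gt_three
  have hpi4 := Real.pi_le_four
  have h1 : |β| / 2 ≤ ‖exp (I * β) - 1‖ := by
    rw [Complex.norm_exp_I_mul_ofReal_sub_one, Real.norm_eq_abs, abs_mul, abs_two]
    have h2 : |β / 2| ≤ Real.pi / 2 := by
      rw [abs_div, abs_two]
      linarith
    have h3 := Real.mul_abs_le_abs_sin h2
    rw [abs_div, abs_two] at h3
    have h4 : 1 / 2 ≤ 2 / Real.pi := by
      rw [div_le_div_iff₀ (by norm_num) (by linarith)]
      linarith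
    have h5 := mul_le_mul_of_nonneg_right h4 (by positivity : 0 ≤ |β| / 2)
    linarith
  have h2 : 1 - s ≤ ‖1 - (s : ℂ) * exp (I * β)‖ := by
    have := norm_sub_norm_le (1 : ℂ) ((s : ℂ) * exp (I * β))
    rwa [norm_one, norm_mul, Complex.norm_exp_I_mul_ofReal, Complex.norm_real,
      Real.norm_of_nonneg hs0, mul_one] at this
  have h3 : ‖exp (I * β) - 1‖ ≤ (1 - s) + ‖1 - (s : ℂ) * exp (I * β)‖ := by
    have h4 : exp (I * β) - 1 = ((1 - s : ℝ) : ℂ) * exp (I * β) - (1 - (s : ℂ) * exp (I * β)) := by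
      push_cast
      ring
    rw [h4]
    refine (norm_sub_le _ _).trans (le_of_eq ?_)
    rw [norm_mul, Complex.norm_exp_I_mul_ofReal, Complex.norm_real,
      Real.norm_of_nonneg (by linarith), mul_one]
  linarith

lemma norm_one_sub_le {s β : ℝ} (hs1 : s ≤ 1) :
    ‖1 - (s : ℂ) * exp (I * β)‖ ≤ |β| + (1 - s) := by
  have h4 : 1 - (s : ℂ) * exp (I * β) = ((1 - s : ℝ) : ℂ) * exp (I * β) - (exp (I * β) - 1) := by
    push_cast
    ring
  rw [h4]
  refine (norm_sub_le _ _).trans ?_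
  rw [norm_mul, Complex.norm_exp_I_mul_ofReal, Complex.norm_real,
    Real.norm_of_nonneg (by linarith), mul_one]
  have := Real.norm_exp_I_mul_ofReal_sub_one_le (x := β)
  rw [Real.norm_eq_abs] at this
  linarith

end Pool.Agent.Lib.MP_51cccb_an
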