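import Mathlib
import Pool.Agent.Lib.MP_51cccb_an.Dual
import Pool.Agent.Lib.MP_51cccb_an.CcCore

set_option autoImplicit false

namespace Pool.Agent.Lib.MP_51cccb_an.Cc

open Complex Metric

/-- The extremal close-to-convex function attached to a unimodular point. -/
noncomputable def ker (x z : ℂ) : ℂ :=
  (1 + x) / (1 - x) * (z / (1 - z)) - 2 * x / (1 - x) ^ 2 * log ((1 - x * z) / (1 - z))

/-- Its derivative. -/
noncomputable def kerD (x z : ℂ) : ℂ := (1 + x * z) / ((1 - x * z) * (1 - z) ^ 2)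

lemma re_one_sub_pos {z : ℂ} (hz : ‖z‖ < 1) : 0 < (1 - z).re := by
  have := Complex.re_le_norm z
  simp only [sub_re, one_re]
  linarith

lemma div_mem_slit {a b : ℂ} (ha : 0 < a.re) (hb : 0 < b.re) : a / b ∈ slitPlane := by
  have hb0 : b ≠ 0 := by
    intro h
    rw [h] at hb
    simp at hb
  rw [mem_slitPlane_iff]
  by_contra h
  push Not at h
  have h1 : a = a / b * b := by field_simp
  have h2 := congrArg Complex.re h1
  rw [mul_re, h.2, zero_mul, sub_zero] at h2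
  nlinarith [h.1]

lemma hasDerivAt_ker {x z : ℂ} (hx : ‖x‖ = 1) (hx1 : x ≠ 1) (hz : ‖z‖ < 1) :
    HasDerivAt (ker x) (kerD x z) z := by
  have hxz : ‖x * z‖ < 1 := by rwa [norm_mul, hx, one_mul]
  have h1 := one_sub_ne hz
  have h2 := one_sub_ne hxz
  have h3 : 1 - x ≠ 0 := sub_ne_zero.mpr hx1.symm
  have d1 : HasDerivAt (fun y : ℂ => 1 - y) (-1) z := (hasDerivAt_id z).const_sub 1
  have d2 : HasDerivAt (fun y : ℂ => 1 - x * y) (-(x * 1)) z :=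
    ((hasDerivAt_id z).const_mul x).const_sub 1
  have d3 := (((hasDerivAt_id z).div d1 h1).const_mul ((1 + x) / (1 - x))).sub
    (((d2.div d1 h1).clog (div_mem_slit (re_one_sub_pos hxz) (re_one_sub_pos hz))).const_mul
      (2 * x / (1 - x) ^ 2))
  refine (d3.congr_deriv ?_)
  simp only [id_eq, Pi.div_apply, kerD]
  field_simp
  ring

lemma norm_kerD_le {x z : ℂ} {d : ℝ} (hx : ‖x‖ = 1) (hz : ‖z‖ < 1) (hd : 0 < d)
    (h1 : d ≤ ‖1 - x * z‖) (h2 : d ≤ ‖1 - z‖) : ‖kerD x z‖ ≤ 2 / d ^ 3 := by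
  have h3 : ‖1 + x * z‖ ≤ 2 := by
    refine (norm_add_le _ _).trans ?_
    rw [norm_mul, hx, norm_one]
    linarith
  rw [kerD, norm_div, norm_mul, norm_pow]
  have h4 : d ^ 3 ≤ ‖1 - x * z‖ * ‖1 - z‖ ^ 2 := by
    calc d ^ 3 = d * d ^ 2 := by ring
      _ ≤ _ := by gcongr
  exact div_le_div₀ (by norm_num) h3 (by positivity) h4

lemma re_herglotz {y : ℂ} (hy : ‖y‖ < 1) : (1 - ‖y‖) / (1 + ‖y‖) ≤ ((1 + y) / (1 - y)).re := by
  have h1 := one_sub_ne hy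
  have h2 : 0 < ‖1 - y‖ := norm_pos_iff.mpr h1
  have h3 : ‖1 - y‖ ≤ 1 + ‖y‖ := by simpa using norm_sub_le (1 : ℂ) y
  have h0 := norm_nonneg y
  have h4 : ((1 + y) / (1 - y)).re = (1 - ‖y‖ ^ 2) / ‖1 - y‖ ^ 2 := by
    rw [Complex.div_re, ← add_div, Complex.sq_norm, Complex.sq_norm, Complex.normSq_apply y]
    congr 1
    simp
    ring
  rw [h4]
  calc (1 - ‖y‖) / (1 + ‖y‖) = (1 - ‖y‖ ^ 2) / (1 + ‖y‖) ^ 2 := by
        field_simp
        ring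
    _ ≤ _ := by
        gcongr
        nlinarith

lemma neg_two_div {x : ℂ} (hx : ‖x‖ = 1) (hx1 : x ≠ 1) :
    -(2 * x / (1 - x) ^ 2) = ((2 / ‖1 - x‖ ^ 2 : ℝ) : ℂ) := by
  have h3 : 1 - x ≠ 0 := sub_ne_zero.mpr hx1.symm
  have h1 : x * (starRingEnd ℂ) x = 1 := by
    rw [Complex.mul_conj, ← Complex.sq_norm, hx]
    simp
  have h2 : ((‖1 - x‖ ^ 2 : ℝ) : ℂ) = (1 - x) * (1 - (starRingEnd ℂ) x) := by
    rw [Complex.sq_norm, ← Complex.mul_conj]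
    simp
  have h4 : 1 - (starRingEnd ℂ) x ≠ 0 := by
    intro h
    have h5 : (starRingEnd ℂ) x = 1 := by linear_combination -h
    rw [h5, mul_one] at h1
    exact hx1 h1
  rw [Complex.ofReal_div, h2]
  push_cast
  field_simp
  linear_combination h1

/-- The data of a discrete Herglotz measure. -/
structure Dat where
  c : ℕ → ℝ
  x : ℕ → ℂ
  hc : ∀ i, 0 < c i
  hs : Summable c
  hx : ∀ i, ‖x i‖ = 1
  hx1 : ∀ i, x i ≠ 1

namespace Dat

variable (D : Dat)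

/-- The total mass. -/
noncomputable def m : ℝ := ∑' i, D.c i

/-- The function before normalisation. -/
noncomputable def K (z : ℂ) : ℂ := ∑' i, (D.c i : ℂ) * ker (D.x i) z

/-- Its derivative. -/
noncomputable def KD (z : ℂ) : ℂ := ∑' i, (D.c i : ℂ) * kerD (D.x i) z

lemma m_pos : 0 < D.m := D.hs.tsum_pos (fun i => (D.hc i).le) 0 (D.hc 0)

lemma c_le_m (j : ℕ) : D.c j ≤ D.m := D.hs.le_tsum j fun i _ => (D.hc i).le

lemma norm_term_le {z : ℂ} {d : ℝ} (i : ℕ) (hz : ‖z‖ < 1) (hd : 0 < d)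
    (h1 : d ≤ ‖1 - D.x i * z‖) (h2 : d ≤ ‖1 - z‖) :
    ‖(D.c i : ℂ) * kerD (D.x i) z‖ ≤ D.c i * (2 / d ^ 3) := by
  rw [norm_mul, Complex.norm_real, Real.norm_of_nonneg (D.hc i).le]
  exact mul_le_mul_of_nonneg_left (norm_kerD_le (D.hx i) hz hd h1 h2) (D.hc i).le

lemma bound_ball {r : ℝ} (hr : r < 1) (i : ℕ) (y : ℂ) (hy : y ∈ ball (0 : ℂ) r) :
    ‖(D.c i : ℂ) * kerD (D.x i) y‖ ≤ D.c i * (2 / (1 - r) ^ 3) := by
  rw [mem_ball_zero_iff] at hy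
  refine D.norm_term_le i (by linarith) (by linarith) ?_ ?_
  · have := norm_sub_norm_le (1 : ℂ) (D.x i * y)
    rw [norm_one, norm_mul, D.hx, one_mul] at this
    linarith
  · have := norm_sub_norm_le (1 : ℂ) y
    rw [norm_one] at this
    linarith

lemma ker_zero (x : ℂ) : ker x 0 = 0 := by simp [ker]

lemma summable_KD {z : ℂ} (hz : ‖z‖ < 1) : Summable fun i => (D.c i : ℂ) * kerD (D.x i) z := by
  obtain ⟨r, h1, h2⟩ := exists_between hz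
  exact Summable.of_norm_bounded (D.hs.mul_right _) fun i =>
    D.bound_ball h2 i z (mem_ball_zero_iff.mpr h1)

lemma summable_K {z : ℂ} (hz : ‖z‖ < 1) : Summable fun i => (D.c i : ℂ) * ker (D.x i) z := by
  obtain ⟨r, h1, h2⟩ := exists_between hz
  refine summable_of_summable_hasDerivAt_of_isPreconnected
    (g := fun i z => (D.c i : ℂ) * ker (D.x i) z) (D.hs.mul_right (2 / (1 - r) ^ 3))
    isOpen_ball (convex_ball (0 : ℂ) r).isPreconnected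
    (fun i y hy => (hasDerivAt_ker (D.hx i) (D.hx1 i)
      ((mem_ball_zero_iff.mp hy).trans h2)).const_mul _) (D.bound_ball h2)
    (mem_ball_self ((norm_nonneg z).trans_lt h1)) ?_ (mem_ball_zero_iff.mpr h1)
  simp [ker_zero, summable_zero]

lemma hasDerivAt_K {z : ℂ} (hz : ‖z‖ < 1) : HasDerivAt D.K (D.KD z) z := by
  obtain ⟨r, h1, h2⟩ := exists_between hz
  refine hasDerivAt_tsum_of_isPreconnected
    (g := fun i z => (D.c i : ℂ) * ker (D.x i) z) (D.hs.mul_right (2 / (1 - r) ^ 3))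
    isOpen_ball (convex_ball (0 : ℂ) r).isPreconnected
    (fun i y hy => (hasDerivAt_ker (D.hx i) (D.hx1 i)
      ((mem_ball_zero_iff.mp hy).trans h2)).const_mul _) (D.bound_ball h2)
    (mem_ball_self ((norm_nonneg z).trans_lt h1)) ?_ (mem_ball_zero_iff.mpr h1)
  simp [ker_zero, summable_zero]

lemma K_zero : D.K 0 = 0 := by simp [K, ker_zero]

lemma KD_zero : D.KD 0 = D.m := by simp [KD, kerD, m, Complex.ofReal_tsum]

lemma re_ge {z : ℂ} (hz : ‖z‖ < 1) :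
    D.m * ((1 - ‖z‖) / (1 + ‖z‖)) ≤ ((1 - z) ^ 2 * D.KD z).re := by
  have h1 := Complex.hasSum_re ((D.summable_KD hz).hasSum.mul_left ((1 - z) ^ 2))
  refine hasSum_le (fun i => ?_) (D.hs.hasSum.mul_right _) h1
  have hxz : ‖D.x i * z‖ < 1 := by rwa [norm_mul, D.hx, one_mul]
  have h2 := re_herglotz hxz
  rw [norm_mul, D.hx, one_mul] at h2
  have h3 : (1 - z) ^ 2 * ((D.c i : ℂ) * kerD (D.x i) z) =
      (D.c i : ℂ) * ((1 + D.x i * z) / (1 - D.x i * z)) := by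
    have := one_sub_ne hz
    have := one_sub_ne hxz
    rw [kerD]
    field_simp
  rw [h3, Complex.re_ofReal_mul]
  exact mul_le_mul_of_nonneg_left h2 (D.hc i).le

lemma re_pos {z : ℂ} (hz : ‖z‖ < 1) : 0 < ((1 - z) ^ 2 * D.KD z).re := by
  refine lt_of_lt_of_le ?_ (D.re_ge hz)
  have := D.m_pos
  have h1 : 0 < 1 - ‖z‖ := by linarith
  positivity

lemma norm_K_ge {z : ℂ} (hz : ‖z‖ < 1) (hz2 : 1 / 2 ≤ ‖z‖) : D.m / 8 ≤ ‖D.K z‖ := by
  refine growth (fun z hz => D.hasDerivAt_K hz) D.K_zero (fun z hz => D.re_pos hz) ?_ hz hz2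
  intro y hy
  refine le_trans ?_ (D.re_ge (by linarith))
  have h1 : 1 / 2 ≤ (1 - ‖y‖) / (1 + ‖y‖) := by
    rw [le_div_iff₀ (by positivity)]
    linarith
  have := mul_le_mul_of_nonneg_left h1 D.m_pos.le
  linarith

lemma norm_KD_le {z : ℂ} {d : ℝ} (hz : ‖z‖ < 1) (hd : 0 < d)
    (h1 : ∀ i, d ≤ ‖1 - D.x i * z‖) (h2 : d ≤ ‖1 - z‖) : ‖D.KD z‖ ≤ D.m * (2 / d ^ 3) :=
  tsum_of_norm_bounded (D.hs.hasSum.mul_right _) fun i => D.norm_term_le i hz hd (h1 i) h2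

lemma peak_KD {z : ℂ} {d ρ : ℝ} (j : ℕ) (hz : ‖z‖ < 1) (hd : 0 < d) (hd1 : d ≤ 1)
    (h1 : ∀ i, i ≠ j → d ≤ ‖1 - D.x i * z‖) (h2 : d ≤ ‖1 - z‖) (h3 : d ≤ ‖1 - D.x j‖)
    (h4 : D.x j * z = ρ) :
    ‖z * D.KD z + ((D.c j * (2 / ‖1 - D.x j‖ ^ 2) * (ρ / (1 - ρ)) : ℝ) : ℂ)‖ ≤
      D.m * (6 / d ^ 3) := by
  classical
  have hxz : ‖D.x j * z‖ < 1 := by rwa [norm_mul, D.hx, one_mul]
  have e1 := one_sub_ne hz
  have e2 := one_sub_ne hxz
  have e3 : 1 - D.x j ≠ 0 := sub_ne_zero.mpr (D.hx1 j).symm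
  have hm := D.m_pos
  have hr : ‖∑' i, if i = j then 0 else (D.c i : ℂ) * kerD (D.x i) z‖ ≤ D.m * (2 / d ^ 3) := by
    refine tsum_of_norm_bounded (D.hs.hasSum.mul_right _) fun i => ?_
    split_ifs with h
    · have := D.hc i
      rw [norm_zero]
      positivity
    · exact D.norm_term_le i hz hd (h1 i h) h2
  have hsplit := (D.summable_KD hz).tsum_eq_add_tsum_ite j
  have hg := neg_two_div (D.hx j) (D.hx1 j)
  have hown : z * ((D.c j : ℂ) * kerD (D.x j) z) +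
      ((D.c j * (2 / ‖1 - D.x j‖ ^ 2) * (ρ / (1 - ρ)) : ℝ) : ℂ) =
      (D.c j : ℂ) * ((1 + D.x j) * z / ((1 - D.x j) * (1 - z) ^ 2) -
        2 * D.x j * z / ((1 - D.x j) ^ 2 * (1 - z))) := by
    rw [Complex.ofReal_mul, Complex.ofReal_mul, ← hg, Complex.ofReal_div, Complex.ofReal_sub,
      ← h4, kerD]
    have e4 : 1 - z * D.x j ≠ 0 := by rwa [mul_comm]
    push_cast
    field_simp
    ring
  have b1 : ‖(1 + D.x j) * z / ((1 - D.x j) * (1 - z) ^ 2)‖ ≤ 2 / d ^ 3 := by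
    have h5 : ‖1 + D.x j‖ ≤ 2 := by
      refine (norm_add_le _ _).trans ?_
      rw [D.hx, norm_one]
      norm_num
    rw [norm_div, norm_mul, norm_mul, norm_pow]
    refine div_le_div₀ (by norm_num) (by nlinarith [norm_nonneg z, norm_nonneg (1 + D.x j)])
      (by positivity) ?_
    calc d ^ 3 = d * d ^ 2 := by ring
      _ ≤ _ := by gcongr
  have b2 : ‖2 * D.x j * z / ((1 - D.x j) ^ 2 * (1 - z))‖ ≤ 2 / d ^ 3 := by
    rw [norm_div, norm_mul, norm_mul, norm_mul, norm_pow, D.hx, Complex.norm_two]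
    refine div_le_div₀ (by norm_num) (by linarith) (by positivity) ?_
    calc d ^ 3 = d ^ 2 * d := by ring
      _ ≤ _ := by gcongr
  have b3 : ‖(D.c j : ℂ) * ((1 + D.x j) * z / ((1 - D.x j) * (1 - z) ^ 2) -
        2 * D.x j * z / ((1 - D.x j) ^ 2 * (1 - z)))‖ ≤ D.m * (2 / d ^ 3 + 2 / d ^ 3) := by
    rw [norm_mul, Complex.norm_real, Real.norm_of_nonneg (D.hc j).le]
    exact mul_le_mul (D.c_le_m j) ((norm_sub_le _ _).trans (add_le_add b1 b2)) (norm_nonneg _)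
      hm.le
  have b4 : ‖z * ∑' i, if i = j then 0 else (D.c i : ℂ) * kerD (D.x i) z‖ ≤
      D.m * (2 / d ^ 3) := by
    rw [norm_mul]
    exact (mul_le_of_le_one_left (norm_nonneg _) hz.le).trans hr
  rw [KD, hsplit, mul_add, add_right_comm, hown]
  refine (norm_add_le _ _).trans ((add_le_add b3 b4).trans (le_of_eq ?_))
  ring

/-- The logarithmic derivative term. -/
noncomputable def G (z : ℂ) : ℂ := (z * D.KD z / D.K z - 1) / 2

lemma norm_G_le {z : ℂ} {d : ℝ} (hz : ‖z‖ < 1) (hz2 : 1 / 2 ≤ ‖z‖) (hd : 0 < d) (hd1 : d ≤ 1)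
    (h1 : ∀ i, d ≤ ‖1 - D.x i * z‖) (h2 : d ≤ ‖1 - z‖) : ‖D.G z‖ ≤ 9 / d ^ 3 := by
  have hm := D.m_pos
  have h3 : ‖z * D.KD z / D.K z‖ ≤ D.m * (2 / d ^ 3) / (D.m / 8) := by
    rw [norm_div, norm_mul]
    exact div_le_div₀ (by positivity)
      ((mul_le_of_le_one_left (norm_nonneg _) hz.le).trans (D.norm_KD_le hz hd h1 h2))
      (by positivity) (D.norm_K_ge hz hz2)
  have h4 : D.m * (2 / d ^ 3) / (D.m / 8) = 16 * (1 / d ^ 3) := by
    field_simp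
    ring
  have h5 : 1 ≤ 1 / d ^ 3 := by
    rw [le_div_iff₀ (by positivity), one_mul]
    exact pow_le_one₀ hd.le hd1
  have h6 := norm_sub_le (z * D.KD z / D.K z) 1
  rw [G, norm_div, Complex.norm_two, show 9 / d ^ 3 = 9 * (1 / d ^ 3) by ring]
  rw [norm_one] at h6
  linarith

lemma peak_G {z Z : ℂ} {d ρ C : ℝ} (j : ℕ) (hz : ‖z‖ < 1) (hz2 : 1 / 2 ≤ ‖z‖) (hd : 0 < d)
    (hd1 : d ≤ 1) (h1 : ∀ i, i ≠ j → d ≤ ‖1 - D.x i * z‖) (h2 : d ≤ ‖1 - z‖)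
    (h3 : d ≤ ‖1 - D.x j‖) (h4 : D.x j * z = ρ) (hρ : 1 / 2 ≤ ρ) (hρ1 : ρ < 1)
    (hK : D.K z = ((D.c j * (2 / ‖1 - D.x j‖ ^ 2) : ℝ) : ℂ) * Z) (hZ : 1 ≤ Z.re)
    (hZC : ‖Z‖ ≤ C) : 1 / (4 * C ^ 2) * (1 / (1 - ρ)) - 24 / d ^ 3 ≤ (-D.G z).re := by
  have hm := D.m_pos
  have hp := D.peak_KD j hz hd hd1 h1 h2 h3 h4
  have hKge := D.norm_K_ge hz hz2
  have hZ1 : 1 ≤ ‖Z‖ := hZ.trans (Complex.re_le_norm Z)
  have hZ0 : Z ≠ 0 := norm_pos_iff.mp (by linarith)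
  have ha : 0 < D.c j * (2 / ‖1 - D.x j‖ ^ 2) := by
    have := D.hc j
    have : 0 < ‖1 - D.x j‖ := by linarith
    positivity
  have hK0 : D.K z ≠ 0 := norm_pos_iff.mp (by linarith)
  generalize D.c j * (2 / ‖1 - D.x j‖ ^ 2) = a at hp hK ha
  have ha0 : (a : ℂ) ≠ 0 := by exact_mod_cast ha.ne'
  have hσ : 0 < 1 - ρ := by linarith
  have e1 : -D.G z = (((ρ / (1 - ρ) : ℝ) : ℂ) * Z⁻¹ -
      (z * D.KD z + ((a * (ρ / (1 - ρ)) : ℝ) : ℂ)) / D.K z + 1) / 2 := by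
    rw [G, Complex.ofReal_mul, hK]
    field_simp
    ring
  have b1 : ‖(z * D.KD z + ((a * (ρ / (1 - ρ)) : ℝ) : ℂ)) / D.K z‖ ≤ 48 / d ^ 3 := by
    rw [norm_div]
    refine (div_le_div₀ (by positivity) hp (by positivity) hKge).trans (le_of_eq ?_)
    field_simp
    ring
  have b2 := Complex.re_le_norm ((z * D.KD z + ((a * (ρ / (1 - ρ)) : ℝ) : ℂ)) / D.K z)
  have b3 : 1 / C ^ 2 ≤ (Z⁻¹).re := by
    rw [Complex.inv_re, ← Complex.sq_norm]
    exact div_le_div₀ (by linarith) hZ (by positivity) (by gcongr)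
  have b4 : 1 / 2 * (1 / (1 - ρ)) ≤ ρ / (1 - ρ) := by
    rw [mul_one_div]
    gcongr
  have hC : 0 < C := by linarith
  have b5 : 1 / 2 * (1 / (1 - ρ)) * (1 / C ^ 2) ≤ ρ / (1 - ρ) * (Z⁻¹).re :=
    mul_le_mul b4 b3 (by positivity) (by positivity)
  rw [e1, Complex.div_ofNat_re, add_re, sub_re, Complex.re_ofReal_mul, one_re]
  have e2 : 1 / (4 * C ^ 2) * (1 / (1 - ρ)) = 1 / 2 * (1 / (1 - ρ)) * (1 / C ^ 2) / 2 := by
    field_simp
    ring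
  have e3 : 24 / d ^ 3 = 48 / d ^ 3 / 2 := by ring
  rw [e2, e3]
  linarith

theorem package : ∃ (f : ℂ → ℂ) (γ : ℕ → ℂ),
    AnalyticOnNhd ℂ f (ball (0 : ℂ) 1) ∧ Set.InjOn f (ball (0 : ℂ) 1) ∧ f 0 = 0 ∧
    deriv f 0 = 1 ∧ (∀ z : ℂ, ‖z‖ < 1 → 0 < ((1 - z) ^ 2 * deriv f z).re) ∧
    (∀ z : ℂ, ‖z‖ < 1 → ∃ s : ℂ, HasSum (fun k : ℕ => γ (k + 1) * z ^ (k + 1)) s ∧
      f z = z * exp (2 * s)) ∧
    ∃ H : ℂ → ℂ, (∀ z : ℂ, ‖z‖ < 1 →
      HasSum (fun k : ℕ => (((k : ℂ) + 1) * γ (k + 1)) * z ^ (k + 1)) (H z)) ∧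
      ∀ z : ℂ, ‖z‖ < 1 → z ≠ 0 → H z = D.G z := by
  have hm := D.m_pos
  have hm0 : (D.m : ℂ) ≠ 0 := by exact_mod_cast hm.ne'
  have hf : ∀ z, ‖z‖ < 1 → HasDerivAt (fun z => D.K z / D.m) (D.KD z / D.m) z :=
    fun z hz => (D.hasDerivAt_K hz).div_const _
  have hpos : ∀ z, ‖z‖ < 1 → 0 < ((1 - z) ^ 2 * (D.KD z / D.m)).re := by
    intro z hz
    rw [← mul_div_assoc, Complex.div_ofReal_re]
    exact div_pos (D.re_pos hz) hm
  have hinj := injOn_of_re_pos hf hpos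
  have h0 : D.K 0 / D.m = 0 := by rw [D.K_zero, zero_div]
  have h1 : D.KD 0 / D.m = 1 := by rw [D.KD_zero, div_self hm0]
  obtain ⟨g, hg, hg0, hfe, hgd⟩ := exists_log hf h0 h1 (by
    intro z hz hz0 h
    exact hz0 (hinj (mem_ball_zero_iff.mpr hz) (by simp) (h.trans h0.symm)))
  refine ⟨fun z => D.K z / D.m, coef g, ?_, hinj, h0, ?_, ?_, ?_,
    fun z => z * deriv g z / 2, fun z hz => hasSum_coef_deriv hg hz, ?_⟩
  · refine DifferentiableOn.analyticOnNhd (fun z hz => ?_) isOpen_ball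
    exact (hf z (mem_ball_zero_iff.mp hz)).differentiableAt.differentiableWithinAt
  · rw [(hf 0 (by simp)).deriv, h1]
  · intro z hz
    rw [(hf z hz).deriv]
    exact hpos z hz
  · intro z hz
    refine ⟨_, hasSum_coef hg hg0 hz, (hfe z hz).trans ?_⟩
    congr 2
    ring
  · intro z hz hz0
    simp only [hgd z hz hz0, G]
    congr 2
    rw [← mul_div_assoc, div_div_div_cancel_right₀ hm0]

end Dat

end Pool.Agent.Lib.MP_51cccb_an.Cc
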