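import Mathlib
import Pool.Agent.Lib.MP_51cccb_an.CcSum

set_option autoImplicit false

namespace Pool.Agent.Lib.MP_51cccb_an.Cc

open Complex Metric

/-- The block of an index. -/
def blk (ν : ℕ) : ℕ := Nat.log 2 (ν + 1)

/-- The modulus of a block. -/
def MM (b : ℕ) : ℕ := 16 ^ 2 ^ (b + 1)

/-- The distance to the unit circle used in a block. -/
noncomputable def sig (b : ℕ) : ℝ := 1 / (MM b : ℝ) ^ 5

/-- The angles. -/
noncomputable def th (ν : ℕ) : ℝ := 2 * Real.pi / 16 ^ (ν + 1) + Real.pi / (MM (blk ν) : ℝ)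

/-- The atoms of the measure. -/
noncomputable def xx (ν : ℕ) : ℂ := exp (I * (-(th ν) : ℝ))

/-- The peak points. -/
noncomputable def zz (ν : ℕ) : ℂ := ((1 - sig (blk ν) : ℝ) : ℂ) * exp (I * (th ν : ℝ))

/-- The peak points in the half plane. -/
noncomputable def ww (ν : ℕ) : ℂ := zz ν / (1 - zz ν)

/-- The width factor. -/
noncomputable def gg (ν : ℕ) : ℝ := 2 / ‖1 - xx ν‖ ^ 2

/-- The drift factor. -/
noncomputable def tt (ν : ℕ) : ℝ := -((1 + xx ν) / (1 - xx ν)).im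

/-- The height of a peak point. -/
noncomputable def hh (ν : ℕ) : ℝ := (ww ν).im

/-- The depth of a peak point. -/
noncomputable def LL (ν : ℕ) : ℝ := Real.log (‖1 - zz ν‖ / sig (blk ν))

/-- The scale. -/
noncomputable def ee (ν : ℕ) : ℝ := 16 ^ (ν + 1)

lemma blk_lo (ν : ℕ) : 2 ^ blk ν ≤ ν + 1 := Nat.pow_log_le_self 2 (by omega)

lemma blk_hi (ν : ℕ) : ν + 1 < 2 ^ (blk ν + 1) := Nat.lt_pow_succ_log_self (by norm_num) _

lemma MM_ge (b : ℕ) : (16 : ℝ) ≤ MM b := by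
  have h1 : 16 ^ 1 ≤ MM b := Nat.pow_le_pow_right (by norm_num) (Nat.one_le_two_pow)
  exact_mod_cast h1

lemma ee_ge (ν : ℕ) : 16 ≤ ee ν := by
  have : (16 : ℝ) ^ 1 ≤ 16 ^ (ν + 1) := pow_le_pow_right₀ (by norm_num) (by omega)
  simpa [ee] using this

lemma ee_add (ν k : ℕ) : ee (ν + k) = ee ν * 16 ^ k := by
  rw [ee, ee]
  ring

lemma ee_le_MM (ν : ℕ) : ee ν ≤ MM (blk ν) := by
  have h1 : 16 ^ (ν + 1) ≤ MM (blk ν) := Nat.pow_le_pow_right (by norm_num) (blk_hi ν).le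
  rw [ee]
  exact_mod_cast h1

lemma sig_pos (b : ℕ) : 0 < sig b := by
  have := MM_ge b
  rw [sig]
  positivity

lemma sig_le (b : ℕ) : sig b ≤ (1 / (MM b : ℝ)) ^ 2 := by
  have := MM_ge b
  rw [sig, one_div_pow]
  exact one_div_le_one_div_of_le (by positivity) (pow_le_pow_right₀ (by linarith) (by norm_num))

lemma sig_le_half (b : ℕ) : sig b ≤ 1 / 2 := by
  have h := MM_ge b
  have h1 : 1 / (MM b : ℝ) ≤ 1 / 16 := one_div_le_one_div_of_le (by norm_num) h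
  have h2 : 0 ≤ 1 / (MM b : ℝ) := by positivity
  nlinarith [sig_le b]

lemma th_lo (ν : ℕ) : 6 / ee ν ≤ th ν := by
  have h1 := ee_ge ν
  have h2 := MM_ge (blk ν)
  have h3 := Real.pi_gt_three
  have h4 : 6 / ee ν ≤ 2 * Real.pi / ee ν := by gcongr; linarith
  have h5 : 0 ≤ Real.pi / (MM (blk ν) : ℝ) := by positivity
  rw [th, ← ee]
  linarith

lemma th_hi (ν : ℕ) : th ν ≤ 10 / ee ν := by
  have h1 := ee_ge ν
  have h2 := ee_le_MM ν
  have h3 := Real.pi_lt_d2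
  have h4 : Real.pi / (MM (blk ν) : ℝ) ≤ Real.pi / ee ν := by gcongr
  have h5 : 2 * Real.pi / ee ν + Real.pi / ee ν ≤ 10 / ee ν := by
    rw [← add_div]
    gcongr
    linarith
  rw [th, ← ee]
  linarith

lemma th_pos (ν : ℕ) : 0 < th ν := by
  have h1 := ee_ge ν
  exact lt_of_lt_of_le (by positivity) (th_lo ν)

lemma th_le_one (ν : ℕ) : th ν ≤ 1 := by
  have h1 := ee_ge ν
  refine (th_hi ν).trans ?_
  rw [div_le_one (by linarith)]
  linarith

lemma inv_MM_le (ν : ℕ) : 3 / (MM (blk ν) : ℝ) ≤ th ν := by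
  have h1 := ee_ge ν
  have h2 := MM_ge (blk ν)
  have h3 := Real.pi_gt_three
  have h4 : 3 / (MM (blk ν) : ℝ) ≤ Real.pi / (MM (blk ν) : ℝ) := by gcongr
  have h5 : 0 ≤ 2 * Real.pi / ee ν := by positivity
  rw [th, ← ee]
  linarith

lemma sig_le_sq (ν : ℕ) : sig (blk ν) ≤ th ν ^ 2 := by
  have h2 := MM_ge (blk ν)
  have h1 : 1 / (MM (blk ν) : ℝ) ≤ 3 / (MM (blk ν) : ℝ) := by gcongr; norm_num
  refine (sig_le _).trans ?_
  have := inv_MM_le ν
  gcongr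
  linarith

lemma sig_le_th (ν : ℕ) : sig (blk ν) ≤ th ν := by
  nlinarith [sig_le_sq ν, th_pos ν, th_le_one ν]

lemma norm_xx (ν : ℕ) : ‖xx ν‖ = 1 := Complex.norm_exp_I_mul_ofReal _

lemma norm_zz (ν : ℕ) : ‖zz ν‖ = 1 - sig (blk ν) := by
  rw [zz, norm_mul, Complex.norm_exp_I_mul_ofReal, mul_one, Complex.norm_real,
    Real.norm_of_nonneg (by linarith [sig_le_half (blk ν)])]

lemma norm_zz_lt (ν : ℕ) : ‖zz ν‖ < 1 := by
  rw [norm_zz]
  linarith [sig_pos (blk ν)]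

lemma dx_lo (ν : ℕ) : th ν / 4 ≤ ‖1 - xx ν‖ := by
  have h := norm_one_sub_ge (s := 1) (β := -th ν) (by norm_num) le_rfl
    (by rw [abs_neg, abs_of_pos (th_pos ν)]; linarith [th_le_one ν])
  rwa [abs_neg, abs_of_pos (th_pos ν), ofReal_one, one_mul] at h

lemma dx_hi (ν : ℕ) : ‖1 - xx ν‖ ≤ th ν := by
  have h := norm_one_sub_le (s := 1) (β := -th ν) le_rfl
  rwa [abs_neg, abs_of_pos (th_pos ν), ofReal_one, one_mul, sub_self, add_zero] at h

lemma dz_lo (ν : ℕ) : th ν / 4 ≤ ‖1 - zz ν‖ := by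
  have h := norm_one_sub_ge (s := 1 - sig (blk ν)) (β := th ν)
    (by linarith [sig_le_half (blk ν)]) (by linarith [sig_pos (blk ν)])
    (by rw [abs_of_pos (th_pos ν)]; linarith [th_le_one ν])
  rwa [abs_of_pos (th_pos ν)] at h

lemma dz_hi (ν : ℕ) : ‖1 - zz ν‖ ≤ 2 * th ν := by
  have h := norm_one_sub_le (s := 1 - sig (blk ν)) (β := th ν) (by linarith [sig_pos (blk ν)])
  rw [abs_of_pos (th_pos ν)] at h
  have := sig_le_th ν
  rw [zz]
  linarith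

lemma xx_ne (ν : ℕ) : xx ν ≠ 1 := by
  intro h
  have h1 := dx_lo ν
  rw [h, sub_self, norm_zero] at h1
  linarith [th_pos ν]

lemma xx_mul_zz (i j : ℕ) :
    xx i * zz j = ((1 - sig (blk j) : ℝ) : ℂ) * exp (I * (th j - th i : ℝ)) := by
  rw [xx, zz, mul_left_comm, ← Complex.exp_add]
  congr 2
  push_cast
  ring

lemma sin_lo (ν : ℕ) : th ν / 2 ≤ Real.sin (th ν) := by
  have h1 := th_pos ν
  have h2 := th_le_one ν
  have h3 := Real.sin_gt_sub_cube h1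
  nlinarith [mul_pos h1 h1, mul_pos h1 (mul_pos h1 h1)]

lemma sin_hi (ν : ℕ) : Real.sin (th ν) ≤ th ν := Real.sin_le (th_pos ν).le

lemma im_div_one_sub (z : ℂ) : (z / (1 - z)).im = z.im / ‖1 - z‖ ^ 2 := by
  rw [Complex.div_im, ← sub_div, Complex.sq_norm]
  congr 1
  simp
  ring

lemma re_div_one_sub (z : ℂ) : (z / (1 - z)).re = (z.re - ‖z‖ ^ 2) / ‖1 - z‖ ^ 2 := by
  rw [Complex.div_re, ← add_div, Complex.sq_norm, Complex.sq_norm, Complex.normSq_apply z]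
  congr 1
  simp
  ring

lemma tt_eq (ν : ℕ) : tt ν = 2 * Real.sin (th ν) / ‖1 - xx ν‖ ^ 2 := by
  have h1 : (xx ν).im = -Real.sin (th ν) := by
    rw [xx, mul_comm, Complex.exp_ofReal_mul_I_im, Real.sin_neg]
  rw [tt, Complex.div_im, ← sub_div, Complex.sq_norm, ← neg_div]
  congr 1
  simp [h1]
  ring

lemma cot_eq (ν : ℕ) : (1 + xx ν) / (1 - xx ν) = -(I * tt ν) := by
  have h1 : (xx ν).re * (xx ν).re + (xx ν).im * (xx ν).im = 1 := by
    rw [← Complex.normSq_apply, ← Complex.sq_norm, norm_xx]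
    norm_num
  refine Complex.ext ?_ (by simp [tt])
  rw [Complex.div_re, ← add_div]
  simp only [add_re, one_re, sub_re, add_im, one_im, sub_im, neg_re, mul_re, I_re, I_im,
    ofReal_re, ofReal_im]
  rw [div_eq_iff (normSq_pos.mpr (sub_ne_zero.mpr (xx_ne ν).symm)).ne']
  linarith

lemma hh_eq (ν : ℕ) : hh ν = (1 - sig (blk ν)) * Real.sin (th ν) / ‖1 - zz ν‖ ^ 2 := by
  rw [hh, ww, im_div_one_sub]
  congr 1
  rw [zz, Complex.im_ofReal_mul, mul_comm I, Complex.exp_ofReal_mul_I_im]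

lemma inv_th_lo (ν : ℕ) : ee ν / 10 ≤ 1 / th ν := by
  have h1 := ee_ge ν
  have h2 := th_hi ν
  rw [le_div_iff₀ (by linarith)] at h2
  rw [div_le_div_iff₀ (by norm_num) (th_pos ν)]
  linarith

lemma inv_th_hi (ν : ℕ) : 1 / th ν ≤ ee ν / 6 := by
  have h1 := ee_ge ν
  have h2 := th_lo ν
  rw [div_le_iff₀ (by linarith)] at h2
  rw [div_le_div_iff₀ (th_pos ν) (by norm_num)]
  linarith

lemma gg_lo (ν : ℕ) : ee ν ^ 2 / 50 ≤ gg ν := by
  have h0 := th_pos ν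
  have h1 := ee_ge ν
  have h2 := dx_lo ν
  have h3 : 0 < ‖1 - xx ν‖ := by linarith
  calc ee ν ^ 2 / 50 = 2 * (ee ν / 10) ^ 2 := by ring
    _ ≤ 2 * (1 / th ν) ^ 2 := by gcongr 2 * ?_ ^ 2; exact inv_th_lo ν
    _ = 2 / th ν ^ 2 := by field_simp
    _ ≤ gg ν := by rw [gg]; gcongr; exact dx_hi ν

lemma gg_hi (ν : ℕ) : gg ν ≤ ee ν ^ 2 := by
  have h0 := th_pos ν
  have h1 := ee_ge ν
  calc gg ν ≤ 2 / (th ν / 4) ^ 2 := by rw [gg]; gcongr; exact dx_lo ν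
    _ = 32 * (1 / th ν) ^ 2 := by field_simp; ring
    _ ≤ 32 * (ee ν / 6) ^ 2 := by gcongr 32 * ?_ ^ 2; exact inv_th_hi ν
    _ ≤ ee ν ^ 2 := by nlinarith

lemma tt_lo (ν : ℕ) : ee ν / 10 ≤ tt ν := by
  have h0 := th_pos ν
  have h2 := dx_lo ν
  have h3 : 0 < ‖1 - xx ν‖ := by linarith
  have h4 := sin_lo ν
  calc ee ν / 10 ≤ 1 / th ν := inv_th_lo ν
    _ = 2 * (th ν / 2) / th ν ^ 2 := by field_simp
    _ ≤ tt ν := by
      rw [tt_eq]
      gcongr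
      · linarith
      · exact dx_hi ν

lemma tt_hi (ν : ℕ) : tt ν ≤ 6 * ee ν := by
  have h0 := th_pos ν
  have h1 := ee_ge ν
  calc tt ν ≤ 2 * th ν / (th ν / 4) ^ 2 := by
        rw [tt_eq]
        gcongr
        · exact sin_hi ν
        · exact dx_lo ν
    _ = 32 * (1 / th ν) := by field_simp; ring
    _ ≤ 32 * (ee ν / 6) := by linarith [inv_th_hi ν]
    _ ≤ 6 * ee ν := by linarith

lemma hh_lo (ν : ℕ) : ee ν / 160 ≤ hh ν := by
  have h0 := th_pos ν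
  have h2 := dz_lo ν
  have h3 : 0 < ‖1 - zz ν‖ := by linarith
  have h4 := sin_lo ν
  have h5 := sig_le_half (blk ν)
  calc ee ν / 160 = ee ν / 10 / 16 := by ring
    _ ≤ 1 / th ν / 16 := by linarith [inv_th_lo ν]
    _ = 1 / 2 * (th ν / 2) / (2 * th ν) ^ 2 := by field_simp; ring
    _ ≤ hh ν := by
      rw [hh_eq]
      gcongr
      · exact mul_nonneg (by linarith) (by linarith)
      · linarith
      · linarith
      · exact dz_hi ν

lemma hh_hi (ν : ℕ) : hh ν ≤ 3 * ee ν := by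
  have h0 := th_pos ν
  have h1 := ee_ge ν
  have h4 := sin_lo ν
  have h5 := sig_pos (blk ν)
  calc hh ν ≤ 1 * th ν / (th ν / 4) ^ 2 := by
        rw [hh_eq]
        gcongr
        · linarith
        · linarith
        · exact sin_hi ν
        · exact dz_lo ν
    _ = 16 * (1 / th ν) := by field_simp; ring
    _ ≤ 16 * (ee ν / 6) := by linarith [inv_th_hi ν]
    _ ≤ 3 * ee ν := by linarith

lemma norm_ww_le (ν : ℕ) : ‖ww ν‖ ≤ 2 / 3 * ee ν := by
  have h0 := th_pos ν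
  calc ‖ww ν‖ ≤ 1 / (th ν / 4) := by
        rw [ww, norm_div]
        gcongr
        · exact (norm_zz_lt ν).le
        · exact dz_lo ν
    _ = 4 * (1 / th ν) := by field_simp
    _ ≤ 4 * (ee ν / 6) := by linarith [inv_th_hi ν]
    _ = 2 / 3 * ee ν := by ring

lemma abs_re_ww_le (ν : ℕ) : |(ww ν).re| ≤ 16 := by
  have h0 := th_pos ν
  have h1 := re_inv_gt (norm_zz_lt ν)
  have h2 := Complex.re_le_norm (zz ν)
  have h3 := sig_pos (blk ν)
  have h4 : (zz ν).re - ‖zz ν‖ ^ 2 ≤ th ν ^ 2 := by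
    rw [norm_zz] at h2 ⊢
    nlinarith [sig_le_sq ν]
  rw [ww, abs_le]
  refine ⟨by linarith, ?_⟩
  calc (zz ν / (1 - zz ν)).re ≤ th ν ^ 2 / (th ν / 4) ^ 2 := by
        rw [re_div_one_sub]
        gcongr
        exact dz_lo ν
    _ = 16 := by field_simp; ring

lemma log_MM (b : ℕ) : Real.log (MM b) = 2 ^ (b + 1) * Real.log 16 := by
  rw [MM]
  push_cast
  rw [Real.log_pow]
  push_cast
  ring

lemma log16_lo : 2 ≤ Real.log 16 := by
  rw [show (16 : ℝ) = 2 ^ 4 by norm_num, Real.log_pow]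
  have := Real.log_two_gt_d9
  push_cast
  linarith

lemma log16_hi : Real.log 16 ≤ 3 := by
  rw [show (16 : ℝ) = 2 ^ 4 by norm_num, Real.log_pow]
  have := Real.log_two_lt_d9
  push_cast
  linarith

lemma LL_lo (ν : ℕ) : 6 * ((ν : ℝ) + 1) ≤ LL ν := by
  have h0 := MM_ge (blk ν)
  have h1 : ((MM (blk ν) : ℝ)) ^ 3 ≤ ‖1 - zz ν‖ / sig (blk ν) := by
    have h2 := dz_lo ν
    have h3 := inv_MM_le ν
    rw [le_div_iff₀ (sig_pos _), sig]
    have h4 : (MM (blk ν) : ℝ) ^ 3 * (1 / (MM (blk ν) : ℝ) ^ 5) =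
        3 / (MM (blk ν) : ℝ) * (1 / (3 * MM (blk ν))) := by field_simp
    have h5 : (1 : ℝ) / (3 * MM (blk ν)) ≤ 1 / 4 :=
      one_div_le_one_div_of_le (by norm_num) (by linarith)
    have h6 : (0 : ℝ) ≤ 3 / MM (blk ν) := by positivity
    rw [h4]
    nlinarith
  have h2 := Real.log_le_log (by positivity) h1
  rw [Real.log_pow, log_MM] at h2
  have h3 : ((ν : ℝ) + 1) ≤ 2 ^ (blk ν + 1) := by exact_mod_cast (blk_hi ν).le
  have h4 := log16_lo
  have h5 : (0 : ℝ) ≤ (ν : ℝ) + 1 := by positivity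
  rw [LL]
  push_cast at h2
  nlinarith

lemma LL_hi (ν : ℕ) : LL ν ≤ 36 * ((ν : ℝ) + 1) := by
  have h0 := MM_ge (blk ν)
  have h2 := dz_lo ν
  have h7 := th_pos ν
  have h8 := sig_pos (blk ν)
  have h1 : ‖1 - zz ν‖ / sig (blk ν) ≤ ((MM (blk ν) : ℝ)) ^ 6 := by
    have h3 := dz_hi ν
    have h4 := th_le_one ν
    rw [div_le_iff₀ (sig_pos _), sig]
    have h5 : (MM (blk ν) : ℝ) ^ 6 * (1 / (MM (blk ν) : ℝ) ^ 5) = MM (blk ν) := by field_simp
    rw [h5]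
    linarith
  have h2 := Real.log_le_log (div_pos (by linarith) h8) h1
  rw [Real.log_pow, log_MM] at h2
  have h3 : (2 : ℝ) ^ blk ν ≤ (ν : ℝ) + 1 := by exact_mod_cast blk_lo ν
  have h4 := log16_hi
  have h5 : (0 : ℝ) ≤ 2 ^ blk ν := by positivity
  rw [LL]
  rw [pow_succ] at h2
  push_cast at h2
  nlinarith

end Pool.Agent.Lib.MP_51cccb_an.Cc
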