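import Mathlib
import Pool.Agent.Lib.MP_51cccb_an.CcSeq

set_option autoImplicit false

namespace Pool.Agent.Lib.MP_51cccb_an.Cc

open Complex Metric

/-- The shifted depth. -/
noncomputable def LD (ν : ℕ) : ℝ := LL ν + 10 ^ 7

/-- The accumulated drift. -/
noncomputable def TT : ℕ → ℝ
  | 0 => 1
  | j + 1 => TT j * (1 + hh (j + 1) * tt (j + 1) / (gg (j + 1) * LD (j + 1)))

/-- The weights. -/
noncomputable def cc : ℕ → ℝ
  | 0 => 1 / tt 0
  | j + 1 => hh (j + 1) * TT j / (gg (j + 1) * LD (j + 1))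

/-- The widths. -/
noncomputable def aa (ν : ℕ) : ℝ := cc ν * gg ν

lemma ee_pos (ν : ℕ) : 0 < ee ν := by linarith [ee_ge ν]

lemma gg_pos (ν : ℕ) : 0 < gg ν := by
  have := ee_pos ν
  exact lt_of_lt_of_le (by positivity) (gg_lo ν)

lemma tt_pos (ν : ℕ) : 0 < tt ν := by linarith [tt_lo ν, ee_pos ν]

lemma hh_pos (ν : ℕ) : 0 < hh ν := by linarith [hh_lo ν, ee_pos ν]

lemma LD_ge (ν : ℕ) : 10 ^ 7 ≤ LD ν := by
  have h := LL_lo ν
  have h5 : (0 : ℝ) ≤ (ν : ℝ) + 1 := by positivity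
  rw [LD]
  linarith

lemma LD_pos (ν : ℕ) : 0 < LD ν := lt_of_lt_of_le (by norm_num) (LD_ge ν)

lemma succ_le_two_pow (k : ℕ) : (k : ℝ) + 1 ≤ 2 ^ k := by
  exact_mod_cast Nat.lt_two_pow_self

lemma LD_le (ν : ℕ) : LD ν ≤ 2 * 10 ^ 7 * 2 ^ ν := by
  have h := LL_hi ν
  have h1 := succ_le_two_pow ν
  have h5 : (0 : ℝ) ≤ (ν : ℝ) := by positivity
  rw [LD]
  linarith

lemma LD_up (i k : ℕ) : LD (i + k) ≤ 6 * 2 ^ k * LD i := by
  have h := LL_hi (i + k)
  have h1 := LL_lo i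
  have h2 := succ_le_two_pow k
  have h3 : (0 : ℝ) ≤ (i : ℝ) := by positivity
  have h4 : (0 : ℝ) ≤ (k : ℝ) := by positivity
  have h5 : ((i : ℝ) + k + 1) ≤ 2 ^ k * ((i : ℝ) + 1) := by nlinarith [mul_nonneg h3 h4]
  have h6 : 2 ^ k * (6 * ((i : ℝ) + 1)) ≤ 2 ^ k * LL i := by gcongr
  rw [LD, LD]
  push_cast at h
  nlinarith

lemma LD_down (i k : ℕ) : LD i ≤ 6 * LD (i + k) := by
  have h := LL_hi i
  have h1 := LL_lo (i + k)
  have h4 : (0 : ℝ) ≤ (k : ℝ) := by positivity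
  rw [LD, LD]
  push_cast at h1
  linarith

lemma ht_le (ν : ℕ) : hh ν * tt ν ≤ 900 * gg ν := by
  have h0 := ee_pos ν
  have h1 := mul_le_mul (hh_hi ν) (tt_hi ν) (tt_pos ν).le (by positivity)
  nlinarith [gg_lo ν]

lemma TT_pos (j : ℕ) : 0 < TT j := by
  induction j with
  | zero => simp [TT]
  | succ j ih =>
    have := hh_pos (j + 1)
    have := tt_pos (j + 1)
    have := gg_pos (j + 1)
    have := LD_pos (j + 1)
    rw [TT]
    positivity

lemma TT_mono (j k : ℕ) : TT j ≤ TT (j + k) := by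
  induction k with
  | zero => simp
  | succ k ih =>
    have := hh_pos (j + k + 1)
    have := tt_pos (j + k + 1)
    have := gg_pos (j + k + 1)
    have := LD_pos (j + k + 1)
    have := TT_pos (j + k)
    have h : 0 ≤ TT (j + k) * (hh (j + k + 1) * tt (j + k + 1) /
      (gg (j + k + 1) * LD (j + k + 1))) := by positivity
    rw [← add_assoc, TT]
    linarith

lemma TT_succ_le (j : ℕ) : TT (j + 1) ≤ 2 * TT j := by
  have h1 := gg_pos (j + 1)
  have h2 := LD_ge (j + 1)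
  have h3 := TT_pos j
  have h4 : hh (j + 1) * tt (j + 1) / (gg (j + 1) * LD (j + 1)) ≤ 1 := by
    rw [div_le_one (mul_pos h1 (LD_pos _))]
    nlinarith [ht_le (j + 1)]
  rw [TT]
  nlinarith

lemma TT_le (j k : ℕ) : TT (j + k) ≤ 2 ^ k * TT j := by
  induction k with
  | zero => simp
  | succ k ih =>
    have := TT_succ_le (j + k)
    rw [← add_assoc, pow_succ]
    linarith

lemma one_le_TT (j : ℕ) : 1 ≤ TT j := by simpa [TT] using TT_mono 0 j

lemma cc_pos (ν : ℕ) : 0 < cc ν := by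
  cases ν with
  | zero =>
    have := tt_pos 0
    rw [cc]
    positivity
  | succ j =>
    have := hh_pos (j + 1)
    have := TT_pos j
    have := gg_pos (j + 1)
    have := LD_pos (j + 1)
    rw [cc]
    positivity

lemma aa_pos (ν : ℕ) : 0 < aa ν := mul_pos (cc_pos ν) (gg_pos ν)

lemma aa_mul (j : ℕ) : aa (j + 1) * LD (j + 1) = hh (j + 1) * TT j := by
  have := gg_pos (j + 1)
  have := LD_pos (j + 1)
  rw [aa, cc]
  field_simp

lemma TT_succ (j : ℕ) : TT (j + 1) = TT j + cc (j + 1) * tt (j + 1) := by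
  rw [TT, cc]
  ring

lemma sum_ct (j : ℕ) : ∑ i ∈ Finset.range (j + 1), cc i * tt i = TT j := by
  induction j with
  | zero =>
    have := tt_pos 0
    simp only [zero_add, Finset.range_one, Finset.sum_singleton, cc, TT]
    field_simp
  | succ j ih => rw [Finset.sum_range_succ, ih, TT_succ]

lemma aa_lo (j : ℕ) : ee (j + 1) * TT j ≤ 160 * (aa (j + 1) * LD (j + 1)) := by
  rw [aa_mul]
  nlinarith [hh_lo (j + 1), TT_pos j]

lemma aa_hi (j : ℕ) : aa (j + 1) * LD (j + 1) ≤ 3 * (ee (j + 1) * TT j) := by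
  rw [aa_mul]
  nlinarith [hh_hi (j + 1), TT_pos j]

lemma cc_le (ν : ℕ) : cc ν * ee ν ^ 2 ≤ 50 * aa ν := by
  rw [aa]
  nlinarith [gg_lo ν, cc_pos ν]

lemma summable_cc : Summable cc := by
  rw [← summable_nat_add_iff 1]
  refine Summable.of_nonneg_of_le (fun j => (cc_pos _).le) (fun j => ?_) summable_geometric_two
  have h1 := cc_le (j + 1)
  have h2 := aa_hi j
  have h3 := TT_le 0 j
  have h4 := LD_ge (j + 1)
  have h5 := aa_pos (j + 1)
  have h6 := ee_pos (j + 1)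
  have h7 := cc_pos (j + 1)
  rw [zero_add, TT, mul_one] at h3
  have h8 : cc (j + 1) * ee (j + 1) ≤ 2 ^ j := by
    refine le_of_mul_le_mul_right ?_ h6
    nlinarith [mul_le_mul_of_nonneg_left h3 h6.le]
  have h9 : (2 : ℝ) ^ j * 2 ^ j ≤ ee (j + 1) := by
    rw [← mul_pow, ee]
    calc ((2 : ℝ) * 2) ^ j ≤ 16 ^ j := by gcongr; norm_num
      _ ≤ 16 ^ (j + 1 + 1) := pow_le_pow_right₀ (by norm_num) (by omega)
  have h10 : (0 : ℝ) < 2 ^ j := by positivity
  rw [one_div_pow, le_div_iff₀ h10]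
  refine le_of_mul_le_mul_right ?_ h10
  nlinarith [mul_le_mul_of_nonneg_left h9 h7.le]

/-- The example. -/
noncomputable def dat : Dat := ⟨cc, xx, cc_pos, summable_cc, norm_xx, xx_ne⟩

lemma ker_eq (i : ℕ) (z : ℂ) : ker (xx i) z =
    -(I * tt i) * (z / (1 - z)) + gg i * log ((1 - xx i * z) / (1 - z)) := by
  rw [ker, cot_eq, gg, ← neg_two_div (norm_xx i) (xx_ne i)]
  ring

lemma norm_log_le {q : ℂ} {k : ℕ} (h1 : 1 / 16 ≤ ‖q‖) (h2 : ‖q‖ ≤ 16 ^ (k + 1)) :
    ‖log q‖ ≤ 7 * 2 ^ k := by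
  have h3 := Complex.norm_le_abs_re_add_abs_im (log q)
  rw [Complex.log_re, Complex.log_im] at h3
  have h4 := Complex.abs_arg_le_pi q
  have h5 := Real.pi_le_four
  have h6 := Real.log_le_log (by norm_num) h1
  have h7 := Real.log_le_log (by linarith) h2
  rw [one_div, Real.log_inv] at h6
  rw [Real.log_pow] at h7
  push_cast at h7
  have h8 := succ_le_two_pow k
  have h9 := log16_hi
  have h10 : (0 : ℝ) ≤ k := by positivity
  have h11 : |Real.log ‖q‖| ≤ 3 * 2 ^ k := by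
    rw [abs_le]
    constructor <;> nlinarith
  linarith

lemma log_before (i k : ℕ) :
    ‖log ((1 - xx i * zz (i + (k + 1))) / (1 - zz (i + (k + 1))))‖ ≤ 7 * 2 ^ (k + 1) := by
  have he := ee_add i (k + 1)
  generalize i + (k + 1) = j at he
  have hi0 := ee_pos i
  have hj0 := ee_pos j
  have h16 : (16 : ℝ) ≤ 16 ^ (k + 1) := by
    simpa using pow_le_pow_right₀ (by norm_num : (1 : ℝ) ≤ 16) (by omega : 1 ≤ k + 1)
  have a1 := th_lo i
  have a2 := th_hi i
  have a3 := th_lo j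
  have a4 := th_hi j
  rw [div_le_iff₀ hi0] at a1
  rw [le_div_iff₀ hi0] at a2
  rw [div_le_iff₀ hj0] at a3
  rw [le_div_iff₀ hj0] at a4
  have ti := th_pos i
  have tj := th_pos j
  rw [he] at a3 a4
  have b1 : th j * 2 ≤ th i := by
    refine le_of_mul_le_mul_right ?_ hi0
    nlinarith [mul_le_mul_of_nonneg_left h16 (mul_pos tj hi0).le]
  have b2 : th i ≤ 2 * 16 ^ (k + 1) * th j := by
    refine le_of_mul_le_mul_right ?_ hi0
    nlinarith
  have habs : |th j - th i| = th i - th j := by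
    rw [abs_sub_comm, abs_of_pos (by linarith)]
  have c1 := norm_one_sub_ge (s := 1 - sig (blk j)) (β := th j - th i)
    (by linarith [sig_le_half (blk j)]) (by linarith [sig_pos (blk j)])
    (by rw [habs]; linarith [th_le_one i])
  have c2 := norm_one_sub_le (s := 1 - sig (blk j)) (β := th j - th i)
    (by linarith [sig_pos (blk j)])
  push_cast at c1 c2
  have c3 := xx_mul_zz i j
  push_cast at c3
  rw [← c3, habs] at c1 c2
  have c4 := dz_lo j
  have c5 := dz_hi j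
  have c6 := sig_le_th j
  refine norm_log_le ?_ ?_
  · rw [norm_div, le_div_iff₀ (by linarith)]
    linarith
  · rw [norm_div, div_le_iff₀ (by linarith), pow_succ _ (k + 1)]
    have h0 : (0 : ℝ) < 16 ^ (k + 1) := by positivity
    nlinarith [mul_le_mul_of_nonneg_left c4 h0.le]

lemma ker_after (j k : ℕ) : ‖ker (xx (j + (k + 1))) (zz j)‖ ≤ 2 * ee j ^ 2 := by
  have he := ee_add j (k + 1)
  generalize j + (k + 1) = i at he
  have hi0 := ee_pos i
  have hj0 := ee_ge j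
  have h16 : (16 : ℝ) ≤ 16 ^ (k + 1) := by
    simpa using pow_le_pow_right₀ (by norm_num : (1 : ℝ) ≤ 16) (by omega : 1 ≤ k + 1)
  have hz := one_sub_ne (norm_zz_lt j)
  have hx : 1 - xx i ≠ 0 := sub_ne_zero.mpr (xx_ne i).symm
  have hx0 : 0 < ‖1 - xx i‖ := norm_pos_iff.mpr hx
  have hw := norm_ww_le j
  have a2 := (dx_hi i).trans (th_hi i)
  rw [le_div_iff₀ hi0, he] at a2
  have hv : ‖(1 - xx i) * ww j‖ ≤ 1 / 2 := by
    rw [norm_mul]
    have h1 : ‖1 - xx i‖ * ee j * 16 ≤ 10 := by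
      nlinarith [mul_le_mul_of_nonneg_left h16 (mul_pos hx0 (ee_pos j)).le]
    nlinarith [mul_le_mul_of_nonneg_left hw hx0.le]
  have hl := Complex.norm_log_one_add_sub_self_le (z := (1 - xx i) * ww j) (by linarith)
  have hl2 : ‖log (1 + (1 - xx i) * ww j) - (1 - xx i) * ww j‖ ≤ ‖(1 - xx i) * ww j‖ ^ 2 := by
    refine hl.trans ?_
    have h1 : (1 - ‖(1 - xx i) * ww j‖)⁻¹ ≤ 2 := by
      rw [inv_le_comm₀ (by linarith) (by norm_num)]
      linarith
    nlinarith [mul_le_mul_of_nonneg_left h1 (sq_nonneg ‖(1 - xx i) * ww j‖)]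
  have e1 : ker (xx i) (zz j) = ww j + ((2 / ‖1 - xx i‖ ^ 2 : ℝ) : ℂ) *
      (log (1 + (1 - xx i) * ww j) - (1 - xx i) * ww j) := by
    have e2 : (1 - xx i * zz j) / (1 - zz j) = 1 + (1 - xx i) * ww j := by
      rw [ww]
      field_simp
      ring
    rw [ker, e2, ← ww, ← neg_two_div (norm_xx i) (xx_ne i)]
    field_simp
    ring
  have e3 : 2 / ‖1 - xx i‖ ^ 2 * ‖(1 - xx i) * ww j‖ ^ 2 = 2 * ‖ww j‖ ^ 2 := by
    rw [norm_mul]
    field_simp
  rw [e1]
  refine (norm_add_le _ _).trans ?_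
  rw [norm_mul, Complex.norm_real, Real.norm_of_nonneg (by positivity)]
  have h2 := mul_le_mul_of_nonneg_left hl2 (by positivity : 0 ≤ 2 / ‖1 - xx i‖ ^ 2)
  have h3 : ‖ww j‖ ^ 2 ≤ (2 / 3 * ee j) ^ 2 := by gcongr
  nlinarith

lemma aa_before (i k : ℕ) : aa (i + 1) * 8 ^ k ≤ 2880 * aa (i + k + 1) := by
  have h1 := aa_hi i
  have h2 := aa_lo (i + k)
  have h3 := TT_mono i k
  have h4 := LD_up (i + 1) k
  have h5 := ee_add (i + 1) k
  rw [add_right_comm] at h4 h5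
  have p1 := aa_pos (i + 1)
  have p2 := aa_pos (i + k + 1)
  have p3 := LD_pos (i + 1)
  have p4 := ee_pos (i + 1)
  have p5 : (0 : ℝ) < 2 ^ k := by positivity
  have p6 : (0 : ℝ) < 8 ^ k := by positivity
  have e : (16 : ℝ) ^ k = 8 ^ k * 2 ^ k := by rw [← mul_pow]; norm_num
  rw [h5, e] at h2
  refine le_of_mul_le_mul_right ?_ (mul_pos p5 p3)
  calc aa (i + 1) * 8 ^ k * (2 ^ k * LD (i + 1))
      = aa (i + 1) * LD (i + 1) * (8 ^ k * 2 ^ k) := by ring
    _ ≤ 3 * (ee (i + 1) * TT (i + k)) * (8 ^ k * 2 ^ k) := by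
        gcongr ?_ * _
        exact h1.trans (by gcongr)
    _ = 3 * (ee (i + 1) * (8 ^ k * 2 ^ k) * TT (i + k)) := by ring
    _ ≤ 3 * (160 * (aa (i + k + 1) * (6 * 2 ^ k * LD (i + 1)))) := by
        gcongr _ * ?_
        exact h2.trans (by gcongr)
    _ = _ := by ring

lemma cc_after (j k : ℕ) : cc (j + k + 1) * ee (j + 1) ^ 2 * 8 ^ k ≤ 144000 * aa (j + 1) := by
  have h0 := cc_le (j + k + 1)
  have h1 := aa_hi (j + k)
  have h2 := aa_lo j
  have h3 := TT_le j k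
  have h4 := LD_down (j + 1) k
  have h5 := ee_add (j + 1) k
  rw [add_right_comm] at h4 h5
  have p1 := aa_pos (j + 1)
  have p2 := aa_pos (j + k + 1)
  have p3 := LD_pos (j + k + 1)
  have p4 := ee_pos (j + 1)
  have p5 : (0 : ℝ) < 2 ^ k := by positivity
  have p6 : (0 : ℝ) < 8 ^ k := by positivity
  have p7 := TT_pos j
  have e : (16 : ℝ) ^ k = 8 ^ k * 2 ^ k := by rw [← mul_pow]; norm_num
  rw [h5, e] at h0 h1
  refine le_of_mul_le_mul_right ?_ (mul_pos (mul_pos p6 (mul_pos p5 p5)) p3)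
  calc cc (j + k + 1) * ee (j + 1) ^ 2 * 8 ^ k * (8 ^ k * (2 ^ k * 2 ^ k) * LD (j + k + 1))
      = cc (j + k + 1) * (ee (j + 1) * (8 ^ k * 2 ^ k)) ^ 2 * LD (j + k + 1) := by ring
    _ ≤ 50 * aa (j + k + 1) * LD (j + k + 1) := by gcongr
    _ = 50 * (aa (j + k + 1) * LD (j + k + 1)) := by ring
    _ ≤ 50 * (3 * (ee (j + 1) * (8 ^ k * 2 ^ k) * (2 ^ k * TT j))) := by
        gcongr _ * ?_
        exact h1.trans (by gcongr)
    _ = 150 * (8 ^ k * (2 ^ k * 2 ^ k)) * (ee (j + 1) * TT j) := by ring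
    _ ≤ 150 * (8 ^ k * (2 ^ k * 2 ^ k)) * (160 * (aa (j + 1) * (6 * LD (j + k + 1)))) := by
        gcongr _ * ?_
        exact h2.trans (by gcongr)
    _ = _ := by ring

lemma TT_le_aa (n : ℕ) : TT n * 8 ^ (n + 1) ≤ 2 * 10 ^ 8 * aa (n + 1) := by
  have h2 := aa_lo n
  have h4 := LD_le (n + 1)
  have p1 := aa_pos (n + 1)
  have p5 : (0 : ℝ) < 2 ^ (n + 1) := by positivity
  have e : ee (n + 1) = 16 * (8 ^ (n + 1) * 2 ^ (n + 1)) := by
    rw [← mul_pow, ee, pow_succ _ (n + 1)]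
    norm_num
    ring
  rw [e] at h2
  refine le_of_mul_le_mul_right ?_ p5
  nlinarith [mul_le_mul_of_nonneg_left h4 p1.le]

lemma aa_zero : aa 0 ≤ 160 := by
  have h1 := gg_hi 0
  have h2 := tt_lo 0
  have e : ee 0 = 16 := by simp [ee]
  rw [e] at h1 h2
  rw [aa, cc, one_div_mul_eq_div, div_le_iff₀ (tt_pos 0)]
  linarith

lemma sum_two_pow (n : ℕ) : ∑ i ∈ Finset.range n, (2 : ℝ) ^ i ≤ 2 ^ n := by
  induction n with
  | zero => simp
  | succ n ih =>
    rw [Finset.sum_range_succ, pow_succ]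
    linarith

lemma sum_before {n : ℕ} (hn : 8 ≤ n) :
    ‖∑ i ∈ Finset.range (n + 1), (aa i : ℂ) * log ((1 - xx i * zz (n + 1)) / (1 - zz (n + 1)))‖ ≤
      3 * 10 ^ 6 * aa (n + 1) := by
  have p1 := aa_pos (n + 1)
  have p2 : (0 : ℝ) < 2 ^ n := by positivity
  rw [Finset.sum_range_succ']
  refine (norm_add_le _ _).trans ?_
  have b0 : ‖(aa 0 : ℂ) * log ((1 - xx 0 * zz (n + 1)) / (1 - zz (n + 1)))‖ ≤
      10 ^ 6 * aa (n + 1) := by
    have h1 := log_before 0 n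
    rw [zero_add] at h1
    have h2 := TT_le_aa n
    have h3 := one_le_TT n
    have h4 : (4 : ℝ) ^ 9 ≤ 4 ^ (n + 1) := pow_le_pow_right₀ (by norm_num) (by omega)
    have e : (8 : ℝ) ^ (n + 1) = 4 ^ (n + 1) * 2 ^ (n + 1) := by rw [← mul_pow]; norm_num
    have p3 : (0 : ℝ) < 2 ^ (n + 1) := by positivity
    have h5 : 4 ^ 9 * 2 ^ (n + 1) ≤ 2 * 10 ^ 8 * aa (n + 1) := by
      rw [e] at h2
      nlinarith [mul_le_mul_of_nonneg_right h4 p3.le,
        mul_pos (by positivity : (0 : ℝ) < 4 ^ (n + 1)) p3]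
    rw [norm_mul, Complex.norm_real, Real.norm_of_nonneg (aa_pos 0).le]
    have h6 := mul_le_mul aa_zero h1 (norm_nonneg _) (by norm_num)
    linarith
  have b1 : ∀ i ∈ Finset.range n,
      ‖(aa (i + 1) : ℂ) * log ((1 - xx (i + 1) * zz (n + 1)) / (1 - zz (n + 1)))‖ ≤
        21000 * aa (n + 1) / 2 ^ n * 2 ^ i := by
    intro i hi
    obtain ⟨k, rfl⟩ := Nat.exists_eq_add_of_lt (Finset.mem_range.mp hi)
    have h1 := log_before (i + 1) k
    have h2 := aa_before i (k + 1)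
    rw [show i + 1 + (k + 1) = i + k + 1 + 1 by ring] at h1
    rw [← add_assoc] at h2
    have p3 := aa_pos (i + 1)
    have p4 : (0 : ℝ) < 2 ^ (k + 1) := by positivity
    have h3 : (2 : ℝ) ^ (k + 1) * 2 ^ (k + 1) ≤ 8 ^ (k + 1) := by
      rw [← mul_pow]
      gcongr
      norm_num
    have e : 21000 * aa (i + k + 1 + 1) / 2 ^ (i + k + 1) * 2 ^ i =
        21000 * aa (i + k + 1 + 1) / 2 ^ (k + 1) := by
      field_simp
      ring
    rw [e, norm_mul, Complex.norm_real, Real.norm_of_nonneg p3.le, le_div_iff₀ p4]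
    have h4 := mul_le_mul_of_nonneg_right (mul_le_mul_of_nonneg_left h1 p3.le) p4.le
    nlinarith [mul_le_mul_of_nonneg_left h3 p3.le]
  have b2 := (norm_sum_le _ _).trans (Finset.sum_le_sum b1)
  rw [← Finset.mul_sum] at b2
  have b3 := mul_le_mul_of_nonneg_left (sum_two_pow n)
    (by positivity : 0 ≤ 21000 * aa (n + 1) / 2 ^ n)
  rw [div_mul_cancel₀ _ p2.ne'] at b3
  linarith

lemma sum_after (n : ℕ) :
    ‖∑' k, (cc (k + (n + 2)) : ℂ) * ker (xx (k + (n + 2))) (zz (n + 1))‖ ≤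
      10 ^ 6 * aa (n + 1) := by
  have p1 := aa_pos (n + 1)
  have h := tsum_of_norm_bounded (hasSum_geometric_two.mul_left (288000 * aa (n + 1)))
    (f := fun k => (cc (k + (n + 2)) : ℂ) * ker (xx (k + (n + 2))) (zz (n + 1))) (by
      intro k
      have h1 := ker_after (n + 1) k
      have h2 := cc_after n (k + 1)
      rw [show n + 1 + (k + 1) = k + (n + 2) by ring] at h1
      rw [show n + (k + 1) + 1 = k + (n + 2) by ring] at h2
      have p3 := cc_pos (k + (n + 2))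
      have p4 : (0 : ℝ) < 2 ^ k := by positivity
      have h3 : (2 : ℝ) ^ k ≤ 8 ^ (k + 1) :=
        calc (2 : ℝ) ^ k ≤ 8 ^ k := by gcongr; norm_num
          _ ≤ 8 ^ (k + 1) := pow_le_pow_right₀ (by norm_num) (by omega)
      rw [norm_mul, Complex.norm_real, Real.norm_of_nonneg p3.le, one_div_pow, mul_one_div,
        le_div_iff₀ p4]
      have h4 := mul_le_mul_of_nonneg_right (mul_le_mul_of_nonneg_left h1 p3.le) p4.le
      nlinarith [mul_le_mul_of_nonneg_left h3 (mul_pos p3 (pow_pos (ee_pos (n + 1)) 2)).le])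
  linarith

theorem peak_K {n : ℕ} (hn : 8 ≤ n) : ∃ Z : ℂ, dat.K (zz (n + 1)) = (aa (n + 1) : ℂ) * Z ∧
    1 ≤ Z.re ∧ ‖Z‖ ≤ 3 * 10 ^ 7 := by
  have p1 := aa_pos (n + 1)
  have hs := (dat.summable_K (norm_zz_lt (n + 1))).sum_add_tsum_nat_add (n + 2)
  have b1 := sum_before hn
  have b2 := sum_after n
  have e1 : ∑ i ∈ Finset.range (n + 2), (cc i : ℂ) * ker (xx i) (zz (n + 1)) =
      -(I * TT (n + 1)) * ww (n + 1) + ∑ i ∈ Finset.range (n + 2),
        (aa i : ℂ) * log ((1 - xx i * zz (n + 1)) / (1 - zz (n + 1))) := by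
    rw [← sum_ct, Complex.ofReal_sum, Finset.mul_sum, ← Finset.sum_neg_distrib, Finset.sum_mul,
      ← Finset.sum_add_distrib]
    refine Finset.sum_congr rfl fun i _ => ?_
    rw [ker_eq, aa, ww]
    push_cast
    ring
  have e2 : dat.K (zz (n + 1)) = (-(I * TT (n + 1)) * ww (n + 1) + (aa (n + 1) : ℂ) *
      log ((1 - xx (n + 1) * zz (n + 1)) / (1 - zz (n + 1)))) +
      (∑ i ∈ Finset.range (n + 1), (aa i : ℂ) *
        log ((1 - xx i * zz (n + 1)) / (1 - zz (n + 1))) +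
      ∑' k, (cc (k + (n + 2)) : ℂ) * ker (xx (k + (n + 2))) (zz (n + 1))) := by
    refine hs.symm.trans ?_
    simp only [dat]
    rw [e1, Finset.sum_range_succ]
    ring
  have e3 : (log ((1 - xx (n + 1) * zz (n + 1)) / (1 - zz (n + 1)))).re = -LL (n + 1) := by
    rw [Complex.log_re, LL, ← Real.log_inv, inv_div, norm_div, xx_mul_zz]
    congr 2
    simp only [sub_self, ofReal_zero, mul_zero, Complex.exp_zero, mul_one, ofReal_sub, ofReal_one,
      sub_sub_cancel, Complex.norm_real]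
    exact Real.norm_of_nonneg (sig_pos _).le
  have e4 : |(log ((1 - xx (n + 1) * zz (n + 1)) / (1 - zz (n + 1)))).im| ≤ 4 := by
    rw [Complex.log_im]
    exact (Complex.abs_arg_le_pi _).trans Real.pi_le_four
  generalize log ((1 - xx (n + 1) * zz (n + 1)) / (1 - zz (n + 1))) = l at e2 e3 e4
  have b3 := (norm_add_le _ _).trans (add_le_add b1 b2)
  generalize (∑ i ∈ Finset.range (n + 1), (aa i : ℂ) *
        log ((1 - xx i * zz (n + 1)) / (1 - zz (n + 1))) +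
      ∑' k, (cc (k + (n + 2)) : ℂ) * ker (xx (k + (n + 2))) (zz (n + 1))) = R at e2 b3
  have r1 : (-(I * TT (n + 1)) * ww (n + 1) + (aa (n + 1) : ℂ) * l).re =
      10 ^ 7 * aa (n + 1) + cc (n + 1) * (hh (n + 1) * tt (n + 1)) := by
    have h1 := aa_mul n
    rw [LD] at h1
    simp only [add_re, mul_re, neg_re, neg_im, mul_im, I_re, I_im, ofReal_re, ofReal_im, e3]
    rw [← hh, TT_succ]
    linarith
  have r2 : |(-(I * TT (n + 1)) * ww (n + 1) + (aa (n + 1) : ℂ) * l).im| ≤ 10 ^ 4 * aa (n + 1) := by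
    have h1 : (-(I * TT (n + 1)) * ww (n + 1) + (aa (n + 1) : ℂ) * l).im =
        -(TT (n + 1) * (ww (n + 1)).re) + aa (n + 1) * l.im := by
      simp only [add_im, mul_re, neg_re, neg_im, mul_im, I_re, I_im, ofReal_re, ofReal_im]
      ring
    have h2 := TT_le_aa n
    have h3 := TT_succ_le n
    have h4 : (8 : ℝ) ^ 9 ≤ 8 ^ (n + 1) := pow_le_pow_right₀ (by norm_num) (by omega)
    have h5 := mul_le_mul_of_nonneg_left h4 (TT_pos n).le
    have h6 := mul_le_mul_of_nonneg_left (abs_re_ww_le (n + 1)) (TT_pos (n + 1)).le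
    have h7 := mul_le_mul_of_nonneg_left e4 p1.le
    rw [h1]
    refine (abs_add_le _ _).trans ?_
    rw [abs_neg, abs_mul, abs_mul, abs_of_pos (TT_pos _), abs_of_pos p1]
    linarith
  have r3 : cc (n + 1) * (hh (n + 1) * tt (n + 1)) ≤ 900 * aa (n + 1) := by
    rw [aa]
    nlinarith [mul_le_mul_of_nonneg_left (ht_le (n + 1)) (cc_pos (n + 1)).le]
  have r4 : 0 < cc (n + 1) * (hh (n + 1) * tt (n + 1)) :=
    mul_pos (cc_pos _) (mul_pos (hh_pos _) (tt_pos _))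
  generalize -(I * TT (n + 1)) * ww (n + 1) + (aa (n + 1) : ℂ) * l = Y at e2 r1 r2
  have p0 : (aa (n + 1) : ℂ) ≠ 0 := by exact_mod_cast p1.ne'
  refine ⟨(Y + R) / aa (n + 1), by rw [e2]; field_simp, ?_, ?_⟩
  · rw [Complex.div_ofReal_re, le_div_iff₀ p1, add_re]
    have := Complex.abs_re_le_norm R
    linarith [neg_abs_le R.re]
  · rw [norm_div, Complex.norm_real, Real.norm_of_nonneg p1.le, div_le_iff₀ p1]
    have h1 := Complex.norm_le_abs_re_add_abs_im Y
    rw [abs_of_pos (by linarith : 0 < Y.re)] at h1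
    linarith [norm_add_le Y R]

end Pool.Agent.Lib.MP_51cccb_an.Cc
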