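import Mathlib
import Pool.Agent.Lib.MP_51cccb_an.CcPeak

set_option autoImplicit false

namespace Pool.Agent.Lib.MP_51cccb_an.Cc

open Complex Metric

lemma half_le {u : ℂ} {ρ : ℝ} (hu : ‖u‖ = 1) (h0 : 0 ≤ ρ) (h1 : ρ ≤ 1) :
    ‖1 - u‖ / 2 ≤ ‖1 - ρ * u‖ := by
  have h2 := norm_sub_norm_le (1 : ℂ) (ρ * u)
  rw [norm_one, norm_mul, hu, Complex.norm_real, Real.norm_of_nonneg h0, mul_one] at h2
  have h3 : 1 - u = (1 - ρ * u) - ((1 - ρ : ℝ) : ℂ) * u := by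
    push_cast
    ring
  have h4 := norm_sub_le (1 - ρ * u) (((1 - ρ : ℝ) : ℂ) * u)
  rw [← h3, norm_mul, hu, Complex.norm_real, Real.norm_of_nonneg (by linarith), mul_one] at h4
  linarith

lemma norm_one_sub_pow {u : ℂ} (hu : ‖u‖ = 1) (k : ℕ) : ‖1 - u ^ k‖ ≤ k * ‖1 - u‖ := by
  induction k with
  | zero => simp
  | succ k ih =>
    have h3 : 1 - u ^ (k + 1) = (1 - u ^ k) + u ^ k * (1 - u) := by ring
    have h4 := norm_add_le (1 - u ^ k) (u ^ k * (1 - u))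
    rw [← h3, norm_mul, norm_pow, hu, one_pow, one_mul] at h4
    push_cast
    linarith

lemma dist_one {u : ℂ} {M : ℕ} (hu : ‖u‖ = 1) (h : (u ^ M).re ≤ 0) : 1 ≤ M * ‖1 - u‖ := by
  have h1 := Complex.re_le_norm (1 - u ^ M)
  rw [sub_re, one_re] at h1
  linarith [norm_one_sub_pow hu M]

lemma dist_two {u : ℂ} {M : ℕ} (hM : 0 < M) (hu : ‖u‖ = 1) (h : u ^ M = 1) (h1 : u ≠ 1) :
    1 ≤ M * ‖1 - u‖ := by
  have h2 : ∑ k ∈ Finset.range M, (1 - u ^ k) = M := by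
    rw [Finset.sum_sub_distrib, geom_sum_eq h1, h]
    simp
  have h3 : ‖∑ k ∈ Finset.range M, (1 - u ^ k)‖ ≤ ∑ _k ∈ Finset.range M, M * ‖1 - u‖ := by
    refine (norm_sum_le _ _).trans (Finset.sum_le_sum fun k hk => (norm_one_sub_pow hu k).trans ?_)
    have : (k : ℝ) ≤ M := by exact_mod_cast (Finset.mem_range.mp hk).le
    gcongr
  rw [h2, Complex.norm_natCast, Finset.sum_const, Finset.card_range, nsmul_eq_mul] at h3
  have h4 : (0 : ℝ) < M := by exact_mod_cast hM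
  refine le_of_mul_le_mul_left ?_ h4
  linarith

lemma ratio_lt {a N : ℕ} (h : a < N) : ∃ n : ℕ, (16 : ℝ) ^ N / 16 ^ a = 2 * n := by
  obtain ⟨k, rfl⟩ := Nat.exists_eq_add_of_lt h
  refine ⟨8 * 16 ^ k, ?_⟩
  push_cast
  field_simp
  ring

lemma ratio_gt {a N : ℕ} (h : N < a) : (16 : ℝ) ^ N / 16 ^ a ≤ 1 / 16 := by
  rw [div_le_div_iff₀ (by positivity) (by norm_num), one_mul, ← pow_succ]
  exact pow_le_pow_right₀ (by norm_num) h

lemma MM_cast (b : ℕ) : (MM b : ℝ) = 16 ^ 2 ^ (b + 1) := by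
  rw [MM]
  push_cast
  rfl

lemma cos_nonneg_of_ne {b i : ℕ} (h : blk i ≠ b) : 0 ≤ Real.cos (MM b * th i) := by
  have hpi := Real.pi_pos
  have h1 : ∃ (n : ℕ) (φ : ℝ), 0 ≤ φ ∧ φ ≤ Real.pi / 4 ∧
      2 * Real.pi * ((16 : ℝ) ^ 2 ^ (b + 1) / 16 ^ (i + 1)) = φ + n * (2 * Real.pi) := by
    rcases lt_trichotomy (i + 1) (2 ^ (b + 1)) with h2 | h2 | h2
    · obtain ⟨n, hn⟩ := ratio_lt h2
      refine ⟨2 * n, 0, le_rfl, by positivity, ?_⟩
      rw [hn]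
      push_cast
      ring
    · refine ⟨1, 0, le_rfl, by positivity, ?_⟩
      rw [h2, div_self (by positivity)]
      ring
    · refine ⟨0, 2 * Real.pi * ((16 : ℝ) ^ 2 ^ (b + 1) / 16 ^ (i + 1)), by positivity, ?_, by simp⟩
      nlinarith [ratio_gt h2]
  have h2 : ∃ (n : ℕ) (φ : ℝ), 0 ≤ φ ∧ φ ≤ Real.pi / 4 ∧
      Real.pi * ((16 : ℝ) ^ 2 ^ (b + 1) / 16 ^ 2 ^ (blk i + 1)) = φ + n * (2 * Real.pi) := by
    rcases lt_or_gt_of_ne h with h2 | h2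
    · obtain ⟨n, hn⟩ := ratio_lt (Nat.pow_lt_pow_right (by norm_num : 1 < 2) (Nat.succ_lt_succ h2))
      refine ⟨n, 0, le_rfl, by positivity, ?_⟩
      rw [hn]
      ring
    · refine ⟨0, Real.pi * ((16 : ℝ) ^ 2 ^ (b + 1) / 16 ^ 2 ^ (blk i + 1)), by positivity, ?_,
        by simp⟩
      have h3 : 2 ^ (b + 1) < 2 ^ (blk i + 1) := Nat.pow_lt_pow_right (by norm_num) (by omega)
      nlinarith [ratio_gt h3]
  obtain ⟨n1, φ1, a1, a2, a3⟩ := h1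
  obtain ⟨n2, φ2, b1, b2, b3⟩ := h2
  have e : MM b * th i = φ1 + φ2 + (n1 + n2 : ℕ) * (2 * Real.pi) := by
    rw [th, MM_cast, MM_cast]
    push_cast
    linear_combination a3 + b3
  rw [e, Real.cos_add_nat_mul_two_pi]
  exact Real.cos_nonneg_of_neg_pi_div_two_le_of_le (by linarith) (by linarith)

/-- The test directions of a block. -/
noncomputable def zeta (b : ℕ) (q : ℤ) : ℂ :=
  exp (I * (Real.pi / (MM b : ℝ) + 2 * Real.pi / (MM b : ℝ) * q : ℝ))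

/-- The indices of a block. -/
def idx (b r : ℕ) : ℕ := 2 ^ (b + 1) - 2 - r

lemma norm_zeta (b : ℕ) (q : ℤ) : ‖zeta b q‖ = 1 := Complex.norm_exp_I_mul_ofReal _

lemma MM_ne (b : ℕ) : (MM b : ℂ) ≠ 0 := by
  have : MM b ≠ 0 := by
    rw [MM]
    positivity
  exact_mod_cast this

lemma zeta_pow (b : ℕ) (q : ℤ) : zeta b q ^ MM b = -1 := by
  have h := MM_ne b
  rw [zeta, ← Complex.exp_nat_mul, ← Complex.exp_pi_mul_I, Complex.exp_eq_exp_iff_exists_int]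
  refine ⟨q, ?_⟩
  push_cast
  field_simp

lemma idx_add {b r : ℕ} (h : r < 2 ^ b) : idx b r + 1 + (r + 1) = 2 ^ (b + 1) := by
  rw [idx, pow_succ]
  omega

lemma blk_idx {b r : ℕ} (h : r < 2 ^ b) : blk (idx b r) = b := by
  have h1 := idx_add h
  rw [pow_succ] at h1
  refine Nat.log_eq_of_pow_le_of_lt_pow (by omega) ?_
  rw [pow_succ]
  omega

lemma exists_idx {b i : ℕ} (h : blk i = b) : ∃ r, r < 2 ^ b ∧ i = idx b r := by
  have h1 := blk_lo i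
  have h2 := blk_hi i
  rw [h] at h1 h2
  refine ⟨2 ^ (b + 1) - 2 - i, ?_, ?_⟩
  · rw [pow_succ] at h2 ⊢
    omega
  · rw [idx]
    omega

lemma th_idx {b r : ℕ} (h : r < 2 ^ b) : th (idx b r) =
    Real.pi / (MM b : ℝ) + 2 * Real.pi / (MM b : ℝ) * ((16 ^ (r + 1) : ℤ) : ℝ) := by
  rw [th, blk_idx h, MM_cast, ← idx_add h, pow_add _ (idx b r + 1)]
  push_cast
  field_simp
  ring

lemma zeta_idx {b r : ℕ} (h : r < 2 ^ b) :
    zeta b (16 ^ (r + 1)) = exp (I * (th (idx b r) : ℝ)) := by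
  rw [zeta, th_idx h]

lemma xx_mul_exp (i : ℕ) : xx i * exp (I * (th i : ℝ)) = 1 := by
  rw [xx, ← Complex.exp_add]
  simp

lemma xx_pow {b i : ℕ} (h : blk i = b) : xx i ^ MM b = -1 := by
  obtain ⟨r, hr, rfl⟩ := exists_idx h
  have h1 := congrArg (· ^ MM b) (xx_mul_exp (idx b r))
  simp only [mul_pow, one_pow] at h1
  rw [← zeta_idx hr, zeta_pow] at h1
  linear_combination -h1

lemma dvd_of_hit {b r : ℕ} {q : ℤ} (hr : r < 2 ^ b) (h : xx (idx b r) * zeta b q = 1) :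
    (MM b : ℤ) ∣ q - 16 ^ (r + 1) := by
  rw [xx, zeta, ← Complex.exp_add, th_idx hr, Complex.exp_eq_one_iff] at h
  obtain ⟨n, hn⟩ := h
  refine ⟨n, ?_⟩
  have h0 := MM_ne b
  have hpi : (Real.pi : ℂ) ≠ 0 := by exact_mod_cast Real.pi_ne_zero
  push_cast at hn
  field_simp at hn
  have h2 : ((q - 16 ^ (r + 1) : ℤ) : ℂ) = ((MM b * n : ℤ) : ℂ) := by
    push_cast
    linear_combination hn / 2
  exact_mod_cast h2

lemma th_lt (i k : ℕ) : th (i + (k + 1)) < th i := by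
  have h1 := th_hi (i + (k + 1))
  have h2 := th_lo i
  have h0 := ee_pos i
  have h16 : (16 : ℝ) ≤ 16 ^ (k + 1) := by
    simpa using pow_le_pow_right₀ (by norm_num : (1 : ℝ) ≤ 16) (by omega : 1 ≤ k + 1)
  rw [ee_add] at h1
  have h3 : 10 / (ee i * 16 ^ (k + 1)) < 6 / ee i := by
    rw [div_lt_div_iff₀ (by positivity) h0]
    nlinarith
  linarith

lemma th_ne {i j : ℕ} (h : i ≠ j) : th j - th i ≠ 0 := by
  rcases lt_or_gt_of_ne h with h2 | h2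
  · obtain ⟨k, rfl⟩ := Nat.exists_eq_add_of_lt h2
    have := th_lt i k
    rw [← add_assoc] at this
    linarith
  · obtain ⟨k, rfl⟩ := Nat.exists_eq_add_of_lt h2
    have := th_lt j k
    rw [← add_assoc] at this
    linarith

lemma xx_mul_ne {i j : ℕ} (h : i ≠ j) : xx i * exp (I * (th j : ℝ)) ≠ 1 := by
  intro h1
  have h2 : xx i * exp (I * (th j : ℝ)) = exp (I * (th j - th i : ℝ)) := by
    rw [xx, ← Complex.exp_add]
    congr 1
    push_cast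
    ring
  have h3 := norm_one_sub_ge (s := 1) (β := th j - th i) (by norm_num) le_rfl (by
    rw [abs_le]
    constructor <;> linarith [th_pos i, th_pos j, th_le_one i, th_le_one j])
  rw [← h2, h1] at h3
  have h4 := abs_pos.mpr (th_ne h)
  simp only [ofReal_one, mul_one, sub_self, norm_zero] at h3
  linarith

lemma far_of {b : ℕ} {u : ℂ} {ρ : ℝ} (hu : ‖u‖ = 1) (h0 : 0 ≤ ρ) (h1 : ρ ≤ 1)
    (h : 1 ≤ MM b * ‖1 - u‖) : 1 / (2 * (MM b : ℝ)) ≤ ‖1 - ρ * u‖ := by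
  have h2 := MM_ge b
  refine le_trans ?_ (half_le hu h0 h1)
  rw [div_le_div_iff₀ (by positivity) (by norm_num)]
  linarith

lemma far_xx {b i : ℕ} {ζ : ℂ} (h1 : ‖ζ‖ = 1) (h2 : ζ ^ MM b = -1)
    (h3 : blk i = b → xx i * ζ ≠ 1) :
    1 / (2 * (MM b : ℝ)) ≤ ‖1 - xx i * (((1 - sig b : ℝ) : ℂ) * ζ)‖ := by
  have hu : ‖xx i * ζ‖ = 1 := by rw [norm_mul, norm_xx, h1, mul_one]
  rw [mul_left_comm]
  refine far_of hu (by linarith [sig_le_half b]) (by linarith [sig_pos b]) ?_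
  by_cases h : blk i = b
  · refine dist_two (by rw [MM]; positivity) hu ?_ (h3 h)
    rw [mul_pow, h2, xx_pow h]
    ring
  · refine dist_one hu ?_
    have h4 : xx i ^ MM b = exp (((-(MM b * th i) : ℝ) : ℂ) * I) := by
      rw [xx, ← Complex.exp_nat_mul]
      congr 1
      push_cast
      ring
    rw [mul_pow, h2, mul_neg, mul_one, neg_re, h4, Complex.exp_ofReal_mul_I_re, Real.cos_neg]
    linarith [cos_nonneg_of_ne h]

lemma far_one {b : ℕ} {ζ : ℂ} {ρ : ℝ} (h1 : ‖ζ‖ = 1) (h2 : ζ ^ MM b = -1) (h0 : 0 ≤ ρ)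
    (h3 : ρ ≤ 1) : 1 / (2 * (MM b : ℝ)) ≤ ‖1 - ρ * ζ‖ := by
  refine far_of h1 h0 h3 (dist_one h1 ?_)
  rw [h2]
  simp

lemma norm_rho {b : ℕ} {ζ : ℂ} (h1 : ‖ζ‖ = 1) : ‖((1 - sig b : ℝ) : ℂ) * ζ‖ = 1 - sig b := by
  rw [norm_mul, h1, mul_one, Complex.norm_real, Real.norm_of_nonneg (by linarith [sig_le_half b])]

lemma d_le_one (b : ℕ) : 1 / (2 * (MM b : ℝ)) ≤ 1 := by
  have h2 := MM_ge b
  rw [div_le_one (by positivity)]
  linarith

theorem off_peak {b : ℕ} {ζ : ℂ} (h1 : ‖ζ‖ = 1) (h2 : ζ ^ MM b = -1)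
    (h3 : ∀ i, blk i = b → xx i * ζ ≠ 1) :
    ‖dat.G (((1 - sig b : ℝ) : ℂ) * ζ)‖ ≤ 192 * (MM b : ℝ) ^ 3 := by
  have h4 := MM_ge b
  have h5 := sig_pos b
  have h6 := sig_le_half b
  have h := dat.norm_G_le (z := ((1 - sig b : ℝ) : ℂ) * ζ) (d := 1 / (2 * (MM b : ℝ)))
    (by rw [norm_rho h1]; linarith) (by rw [norm_rho h1]; linarith) (by positivity) (d_le_one b)
    (fun i => far_xx h1 h2 (h3 i)) (far_one h1 h2 (by linarith) (by linarith))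
  have e : 9 / (1 / (2 * (MM b : ℝ))) ^ 3 = 72 * (MM b : ℝ) ^ 3 := by
    field_simp
    ring
  have h7 : 0 ≤ (MM b : ℝ) ^ 3 := by positivity
  linarith

/-- The constant of the construction. -/
noncomputable def kap : ℝ := 1 / (4 * (3 * 10 ^ 7) ^ 2)

theorem on_peak {b j : ℕ} (hb : 4 ≤ b) (hj : blk j = b) :
    kap * (MM b : ℝ) ^ 5 - 192 * (MM b : ℝ) ^ 3 ≤
      (-dat.G (((1 - sig b : ℝ) : ℂ) * exp (I * (th j : ℝ)))).re := by
  have h4 := MM_ge b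
  have h5 := sig_pos b
  have h6 := sig_le_half b
  have h7 : 2 ^ 4 ≤ j + 1 := by
    refine le_trans (Nat.pow_le_pow_right (by norm_num) hb) ?_
    rw [← hj]
    exact blk_lo j
  obtain ⟨n, rfl⟩ : ∃ n, j = n + 1 := ⟨j - 1, by omega⟩
  obtain ⟨Z, hZ1, hZ2, hZ3⟩ := peak_K (n := n) (by omega)
  have h1 : ‖exp (I * (th (n + 1) : ℝ))‖ = 1 := Complex.norm_exp_I_mul_ofReal _
  have h2 : exp (I * (th (n + 1) : ℝ)) ^ MM b = -1 := by
    obtain ⟨r, hr, h8⟩ := exists_idx hj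
    rw [h8, ← zeta_idx hr, zeta_pow]
  have e0 : zz (n + 1) = ((1 - sig b : ℝ) : ℂ) * exp (I * (th (n + 1) : ℝ)) := by rw [zz, hj]
  rw [e0] at hZ1
  have h := dat.peak_G (d := 1 / (2 * (MM b : ℝ))) (ρ := 1 - sig b) (n + 1)
    (by rw [norm_rho h1]; linarith) (by rw [norm_rho h1]; linarith) (by positivity) (d_le_one b)
    (fun i hi => far_xx h1 h2 fun _ => xx_mul_ne hi) (far_one h1 h2 (by linarith) (by linarith))
    (by simpa [dat] using far_one (ρ := 1) (norm_xx (n + 1)) (xx_pow hj) (by norm_num) le_rfl)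
    (by
      change xx (n + 1) * _ = _
      rw [mul_left_comm, xx_mul_exp, mul_one])
    (by linarith) (by linarith) hZ1 hZ2 hZ3
  have e : 24 / (1 / (2 * (MM b : ℝ))) ^ 3 = 192 * (MM b : ℝ) ^ 3 := by
    field_simp
    ring
  have e2 : 1 / (1 - (1 - sig b)) = (MM b : ℝ) ^ 5 := by
    rw [sub_sub_cancel, sig, one_div_one_div]
  rw [e, e2] at h
  exact h

theorem any_point {b : ℕ} (hb : 4 ≤ b) {ζ : ℂ} (h1 : ‖ζ‖ = 1) (h2 : ζ ^ MM b = -1) :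
    -(192 * (MM b : ℝ) ^ 3) ≤ (-dat.G (((1 - sig b : ℝ) : ℂ) * ζ)).re := by
  by_cases h : ∃ i, blk i = b ∧ xx i * ζ = 1
  · obtain ⟨i, hi, h3⟩ := h
    have h4 : ζ = exp (I * (th i : ℝ)) := by
      linear_combination (-ζ) * xx_mul_exp i + exp (I * (th i : ℝ)) * h3
    have h5 := on_peak hb hi
    have h6 : 0 ≤ kap * (MM b : ℝ) ^ 5 := by
      rw [kap]
      positivity
    rw [h4]
    linarith
  · push Not at h
    have h3 := off_peak h1 h2 h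
    have h4 := Complex.re_le_norm (dat.G (((1 - sig b : ℝ) : ℂ) * ζ))
    rw [neg_re]
    linarith

end Pool.Agent.Lib.MP_51cccb_an.Cc
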