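import Mathlib
import Pool.Agent.Lib.MP_51cccb_an.CcTest

set_option autoImplicit false

namespace Pool.Agent.Lib.MP_51cccb_an.Cc

open Complex Metric

lemma one_sub_pow_le {σ : ℝ} {M : ℕ} (h0 : 0 < σ) (h1 : σ ≤ 1) (h2 : M * σ ≤ 1) :
    (1 - σ) ^ M ≤ 1 - M * σ / 2 := by
  have h3 : 1 + M * σ ≤ (1 + σ) ^ M := one_add_mul_le_pow (by linarith) M
  have h4 : (1 - σ) ^ M * (1 + σ) ^ M ≤ 1 := by
    rw [← mul_pow]
    exact pow_le_one₀ (by nlinarith) (by nlinarith)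
  have h5 : 0 ≤ (1 - σ) ^ M := pow_nonneg (by linarith) M
  have h6 : 0 ≤ M * σ := by positivity
  have h7 := mul_le_mul_of_nonneg_left h3 h5
  refine le_of_mul_le_mul_right ?_ (by linarith : 0 < 1 + M * σ)
  nlinarith

lemma coset_bound {c : ℕ → ℂ} {H : ℂ → ℂ}
    (h : ∀ z : ℂ, ‖z‖ < 1 → HasSum (fun k : ℕ => c k * z ^ (k + 1)) (H z)) {M : ℕ} (hM : 0 < M)
    {η : ℂ} (hη : ‖η‖ = 1) {σ ε : ℝ} (h0 : 0 < σ) (h1 : σ ≤ 1) (h2 : M * σ ≤ 1) (hε : 0 ≤ ε)
    (hc : ∀ k : ℕ, M ≤ k + 1 → ‖c k‖ ≤ ε * Real.log (k + 1)) :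
    ‖∑ q ∈ Finset.range M, H (((1 - σ : ℝ) : ℂ) * (η * exp (2 * Real.pi * I / M) ^ q))‖ ≤
      ε * (2 * Real.log (1 / σ) + 6) / σ := by
  have hω := Complex.isPrimitiveRoot_exp M hM.ne'
  have hn := hω.norm'_eq_one hM.ne'
  generalize exp (2 * Real.pi * I / M) = ω at hω hn
  have hM0 : (0 : ℝ) < M := by exact_mod_cast hM
  have hnz : ∀ q : ℕ, ‖((1 - σ : ℝ) : ℂ) * (η * ω ^ q)‖ = 1 - σ := by
    intro q
    rw [norm_mul, norm_mul, norm_pow, hη, hn, Complex.norm_real, Real.norm_of_nonneg (by linarith)]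
    simp
  have s1 := hasSum_sum (s := Finset.range M) fun q _ => h _ (by rw [hnz q]; linarith)
  have hinj : Function.Injective fun l : ℕ => l * M + (M - 1) := by
    intro a b hab
    exact Nat.eq_of_mul_eq_mul_right hM (Nat.add_right_cancel hab)
  have s2 := (hinj.hasSum_iff (by
    intro k hk
    have h3 : ¬ M ∣ k + 1 := by
      rintro ⟨l, hl⟩
      cases l with
      | zero => simp at hl
      | succ l =>
        refine hk ⟨l, ?_⟩
        rw [Nat.mul_succ, mul_comm] at hl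
        simp only
        omega
    have h4 : ω ^ (k + 1) ≠ 1 := fun h5 => h3 ((hω.pow_eq_one_iff_dvd _).mp h5)
    have h5 : ∀ q : ℕ, c k * (((1 - σ : ℝ) : ℂ) * (η * ω ^ q)) ^ (k + 1) =
        c k * (((1 - σ : ℝ) : ℂ) * η) ^ (k + 1) * (ω ^ (k + 1)) ^ q := by
      intro q
      rw [← pow_mul, mul_comm (k + 1) q, pow_mul]
      ring
    simp only [h5]
    rw [← Finset.mul_sum, geom_sum_eq h4, ← pow_mul, mul_comm (k + 1) M, pow_mul, hω.pow_eq_one]
    simp)).mpr s1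
  have q0 : 0 ≤ (1 - σ) ^ M := pow_nonneg (by linarith) M
  have q1 := one_sub_pow_le h0 h1 h2
  have q2 : 0 < M * σ := by positivity
  have q3 : (1 - σ) ^ M < 1 := by linarith
  have hL : 0 ≤ Real.log (1 / σ) := Real.log_nonneg (by rw [le_div_iff₀ h0]; linarith)
  have g1 := (hasSum_geometric_of_lt_one q0 q3).mul_left (M * ε * (Real.log (1 / σ) + 1))
  have g2 := (hasSum_coe_mul_geometric_of_norm_lt_one (r := (1 - σ) ^ M)
    (by rwa [Real.norm_of_nonneg q0])).mul_left (M * ε * (M * σ))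
  refine (s2.norm_le_of_bounded (g1.add g2) fun l => ?_).trans ?_
  · have e : l * M + (M - 1) + 1 = M * (l + 1) := by
      rw [Nat.mul_succ, mul_comm]
      omega
    have e' : ((l * M + (M - 1) : ℕ) : ℝ) + 1 = M * (l + 1) := by exact_mod_cast e
    have h3 := hc (l * M + (M - 1)) (by rw [e]; nlinarith)
    rw [e'] at h3
    have h4 : Real.log (M * (l + 1)) ≤ Real.log (1 / σ) + 1 + M * σ * l := by
      have h5 := Real.log_le_sub_one_of_pos (by positivity : 0 < M * ((l : ℝ) + 1) * σ)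
      rw [Real.log_mul (by positivity) h0.ne'] at h5
      rw [one_div, Real.log_inv]
      nlinarith
    have h6 : (1 - σ) ^ (M * (l + 1)) ≤ ((1 - σ) ^ M) ^ l := by
      rw [pow_mul]
      exact pow_le_pow_of_le_one q0 q3.le (by omega)
    simp only [Function.comp]
    refine (norm_sum_le _ _).trans ?_
    simp only [norm_mul (c _), norm_pow, hnz, e]
    rw [Finset.sum_const, Finset.card_range, nsmul_eq_mul]
    calc M * (‖c (l * M + (M - 1))‖ * (1 - σ) ^ (M * (l + 1)))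
        ≤ M * (ε * (Real.log (1 / σ) + 1 + M * σ * l) * ((1 - σ) ^ M) ^ l) := by
          have h7 : 0 ≤ (1 - σ) ^ (M * (l + 1)) := pow_nonneg (by linarith) _
          gcongr
          exact h3.trans (by gcongr)
      _ = _ := by ring
  · generalize (1 - σ) ^ M = q at q0 q1 q3
    have a1 : (1 - q)⁻¹ ≤ 2 / (M * σ) := by
      rw [inv_eq_one_div, div_le_div_iff₀ (by linarith) q2]
      linarith
    have a2 : q / (1 - q) ^ 2 ≤ 1 / (M * σ / 2) ^ 2 := by
      gcongr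
      linarith
    calc M * ε * (Real.log (1 / σ) + 1) * (1 - q)⁻¹ + M * ε * (M * σ) * (q / (1 - q) ^ 2)
        ≤ M * ε * (Real.log (1 / σ) + 1) * (2 / (M * σ)) +
          M * ε * (M * σ) * (1 / (M * σ / 2) ^ 2) := by gcongr
      _ = _ := by
          field_simp
          ring

lemma zeta_nat (b q : ℕ) : zeta b q = zeta b 0 * exp (2 * Real.pi * I / MM b) ^ q := by
  rw [zeta, zeta, ← Complex.exp_nat_mul, ← Complex.exp_add]
  congr 1
  push_cast
  ring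

lemma pow_lt_MM {b r : ℕ} (h : r < 2 ^ b) (hb : 1 ≤ b) : 16 ^ (r + 1) < MM b := by
  have h1 : 2 ^ 1 ≤ 2 ^ b := Nat.pow_le_pow_right (by norm_num) hb
  refine Nat.pow_lt_pow_right (by norm_num) ?_
  rw [pow_succ]
  omega

lemma coset_lower {b : ℕ} (hb : 4 ≤ b) :
    2 ^ b * (kap * (MM b : ℝ) ^ 5) - MM b * (192 * (MM b : ℝ) ^ 3) ≤
      ‖∑ q ∈ Finset.range (MM b), dat.G (((1 - sig b : ℝ) : ℂ) * zeta b q)‖ := by
  classical
  rw [← norm_neg, ← Finset.sum_neg_distrib]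
  refine le_trans ?_ (Complex.re_le_norm _)
  rw [Complex.re_sum]
  have hS : (Finset.range (2 ^ b)).image (fun r => 16 ^ (r + 1)) ⊆ Finset.range (MM b) := by
    intro q hq
    obtain ⟨r, hr, rfl⟩ := Finset.mem_image.mp hq
    exact Finset.mem_range.mpr (pow_lt_MM (Finset.mem_range.mp hr) (by omega))
  have hcard : ((Finset.range (2 ^ b)).image (fun r => 16 ^ (r + 1))).card = 2 ^ b := by
    rw [Finset.card_image_of_injective, Finset.card_range]
    intro a c hac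
    have := Nat.pow_right_injective (by norm_num : 2 ≤ 16) hac
    omega
  refine le_trans (le_of_eq ?_) (Finset.sum_le_sum (f := fun q =>
    (if q ∈ (Finset.range (2 ^ b)).image (fun r => 16 ^ (r + 1)) then kap * (MM b : ℝ) ^ 5 else 0)
      - 192 * (MM b : ℝ) ^ 3) fun q _ => ?_)
  · rw [Finset.sum_sub_distrib, Finset.sum_ite_mem, Finset.inter_eq_right.mpr hS, Finset.sum_const,
      Finset.sum_const, hcard, Finset.card_range, nsmul_eq_mul, nsmul_eq_mul]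
    push_cast
    rfl
  · split_ifs with hq
    · obtain ⟨r, hr, rfl⟩ := Finset.mem_image.mp hq
      have h1 := Finset.mem_range.mp hr
      have h2 := on_peak hb (blk_idx h1)
      rw [← zeta_idx h1] at h2
      push_cast at h2 ⊢
      exact h2
    · rw [zero_sub]
      exact any_point hb (norm_zeta b q) (zeta_pow b q)

lemma log_sig (b : ℕ) : Real.log (1 / sig b) ≤ 30 * 2 ^ b := by
  rw [sig, one_div_one_div, Real.log_pow, log_MM, pow_succ]
  have h5 : (0 : ℝ) ≤ 2 ^ b := by positivity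
  push_cast
  nlinarith [log16_hi]

lemma le_MM (b : ℕ) : b ≤ MM b :=
  calc b ≤ 2 ^ (b + 1) := by
        have := Nat.lt_two_pow_self (n := b + 1)
        omega
    _ ≤ 16 ^ 2 ^ (b + 1) := (Nat.lt_pow_self (by norm_num)).le

lemma kap_pos : 0 < kap := by
  rw [kap]
  positivity

lemma rho_ne {b : ℕ} {ζ : ℂ} (h1 : ‖ζ‖ = 1) : ((1 - sig b : ℝ) : ℂ) * ζ ≠ 0 := by
  rw [← norm_pos_iff, norm_rho h1]
  linarith [sig_le_half b]

lemma rho_lt {b : ℕ} {ζ : ℂ} (h1 : ‖ζ‖ = 1) : ‖((1 - sig b : ℝ) : ℂ) * ζ‖ < 1 := by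
  rw [norm_rho h1]
  linarith [sig_pos b]

theorem coef_large {γ : ℕ → ℂ} {H : ℂ → ℂ}
    (h : ∀ z : ℂ, ‖z‖ < 1 →
      HasSum (fun k : ℕ => (((k : ℂ) + 1) * γ (k + 1)) * z ^ (k + 1)) (H z))
    (hG : ∀ z : ℂ, ‖z‖ < 1 → z ≠ 0 → H z = dat.G z) :
    ∃ᶠ k : ℕ in Filter.atTop, kap / 256 * Real.log k / k ≤ ‖γ k‖ := by
  by_contra hcon
  rw [Filter.not_frequently, Filter.eventually_atTop] at hcon
  obtain ⟨k0, hk0⟩ := hcon
  obtain ⟨N, hN⟩ := exists_nat_ge (400 / kap)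
  have hk := kap_pos
  obtain ⟨b, hb4, hb0, hbN⟩ : ∃ b, 4 ≤ b ∧ k0 ≤ b ∧ N ≤ b := ⟨4 + k0 + N, by omega, by omega, by omega⟩
  have hM := MM_ge b
  have hMb := le_MM b
  have h1 := coset_lower hb4
  have h2 := coset_bound h (M := MM b) (by rw [MM]; positivity) (norm_zeta b 0) (sig_pos b)
    (by linarith [sig_le_half b]) (ε := kap / 256) (by
      rw [sig, mul_one_div, div_le_one (by positivity)]
      exact le_self_pow₀ (by linarith) (by norm_num)) (by positivity) (by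
      intro k hk1
      have h3 := hk0 (k + 1) (by omega)
      have h4 : ‖(k : ℂ) + 1‖ = (k : ℝ) + 1 := by exact_mod_cast Complex.norm_natCast (k + 1)
      rw [not_le, lt_div_iff₀ (by positivity)] at h3
      push_cast at h3
      rw [norm_mul, h4]
      linarith)
  have h3 : ∑ q ∈ Finset.range (MM b), dat.G (((1 - sig b : ℝ) : ℂ) * zeta b q) =
      ∑ q ∈ Finset.range (MM b), H (((1 - sig b : ℝ) : ℂ) *
        (zeta b 0 * exp (2 * Real.pi * I / MM b) ^ q)) := by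
    refine Finset.sum_congr rfl fun q _ => ?_
    rw [← zeta_nat, hG _ (rho_lt (norm_zeta _ _)) (rho_ne (norm_zeta _ _))]
  rw [h3] at h1
  have h4 := log_sig b
  have h5 : (1 : ℝ) ≤ 2 ^ b := one_le_pow₀ (by norm_num)
  have h6 : kap / 256 * (2 * Real.log (1 / sig b) + 6) / sig b ≤
      kap / 256 * (66 * 2 ^ b) * (MM b : ℝ) ^ 5 := by
    rw [div_eq_mul_one_div _ (sig b), show 1 / sig b = (MM b : ℝ) ^ 5 by rw [sig, one_div_one_div]]
    rw [show 1 / sig b = (MM b : ℝ) ^ 5 by rw [sig, one_div_one_div]] at h4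
    gcongr
    linarith
  have h7 : 400 ≤ kap * MM b := by
    rw [div_le_iff₀ hk] at hN
    have h8 : (N : ℝ) ≤ MM b := by exact_mod_cast hbN.trans hMb
    nlinarith
  have h8 : 0 < (MM b : ℝ) ^ 4 := by positivity
  have h9 := mul_le_mul_of_nonneg_right h7 h8.le
  have h10 : 0 < kap * (MM b : ℝ) ^ 5 := by positivity
  nlinarith [mul_le_mul_of_nonneg_right h5 h10.le]

lemma sum_digits (m : ℕ) : ∑ j : Fin m, (2 : ℤ) * 16 ^ (j : ℕ) ≤ 16 ^ m := by
  induction m with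
  | zero => simp
  | succ m ih =>
    rw [Fin.sum_univ_castSucc, pow_succ]
    simp only [Fin.val_castSucc, Fin.val_last]
    have : (0 : ℤ) < 16 ^ m := by positivity
    linarith

lemma word_off {b : ℕ} (hb : 1 ≤ b) (ε : Fin (2 ^ b) → Fin 3) (hε : ∀ j, ε ≠ Pi.single j 1) :
    ∀ i, blk i = b → xx i * zeta b (∑ j, sgn3 (ε j) * 16 ^ ((j : ℕ) + 1)) ≠ 1 := by
  classical
  intro i hi h
  obtain ⟨r, hr, rfl⟩ := exists_idx hi
  have h1 := dvd_of_hit hr h
  have hd : ∀ j, |sgn3 (ε j) - if j = ⟨r, hr⟩ then 1 else 0| ≤ 2 := by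
    intro j
    generalize ε j = s
    fin_cases s <;> split_ifs <;> simp [sgn3]
  have e : ∑ j, sgn3 (ε j) * 16 ^ ((j : ℕ) + 1) - 16 ^ (r + 1) =
      16 * ∑ j, (sgn3 (ε j) - if j = ⟨r, hr⟩ then 1 else 0) * 16 ^ (j : ℕ) := by
    simp only [sub_mul, Finset.sum_sub_distrib, ite_mul, one_mul, zero_mul, Finset.sum_ite_eq',
      Finset.mem_univ, if_true, mul_sub, Finset.mul_sum, pow_succ]
    congr 1
    · exact Finset.sum_congr rfl fun j _ => by ring
    · ring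
  have h2 : |∑ j, (sgn3 (ε j) - if j = ⟨r, hr⟩ then 1 else 0) * 16 ^ (j : ℕ)| ≤ 16 ^ 2 ^ b := by
    refine (Finset.abs_sum_le_sum_abs _ _).trans (le_trans (Finset.sum_le_sum fun j _ => ?_)
      (sum_digits _))
    rw [abs_mul, abs_of_pos (by positivity : (0 : ℤ) < 16 ^ (j : ℕ))]
    exact mul_le_mul_of_nonneg_right (hd j) (by positivity)
  have h3 : (16 : ℤ) ^ (2 ^ b + 1) < MM b := by
    have h4 : 2 ^ 1 ≤ 2 ^ b := Nat.pow_le_pow_right (by norm_num) hb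
    have h5 : 16 ^ (2 ^ b + 1) < MM b := by
      refine Nat.pow_lt_pow_right (by norm_num) ?_
      rw [pow_succ]
      omega
    exact_mod_cast h5
  rw [e] at h1
  have h4 := Int.eq_zero_of_abs_lt_dvd h1 (by
    rw [abs_mul, abs_of_pos (by norm_num : (0 : ℤ) < 16)]
    rw [pow_succ] at h3
    linarith)
  have h5 := digits_zero _ _ hd (by linarith)
  refine hε ⟨r, hr⟩ (funext fun j => ?_)
  have h6 := h5 j
  by_cases hj : j = ⟨r, hr⟩
  · rw [if_pos hj] at h6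
    rw [hj, Pi.single_eq_same, ← hj]
    generalize ε j = s at h6
    fin_cases s <;> simp [sgn3] at h6 ⊢
  · rw [if_neg hj] at h6
    rw [Pi.single_eq_of_ne hj]
    generalize ε j = s at h6
    fin_cases s <;> simp [sgn3] at h6 ⊢

lemma series_block {γ : ℕ → ℂ} {H : ℂ → ℂ}
    (h : ∀ z : ℂ, ‖z‖ < 1 →
      HasSum (fun k : ℕ => (((k : ℂ) + 1) * γ (k + 1)) * z ^ (k + 1)) (H z))
    (hG : ∀ z : ℂ, ‖z‖ < 1 → z ≠ 0 → H z = dat.G z) {b : ℕ} (hb : 4 ≤ b)
    (hM : 800 ≤ kap * MM b) :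
    kap / 256 * Real.sqrt (Real.log (1 / sig b)) / sig b ≤
      ∑' k : ℕ, ((k : ℝ) + 1) * ‖γ (k + 1)‖ * (1 - sig b) ^ (k + 1) := by
  have hk := kap_pos
  have hM0 := MM_ge b
  have hm : (1 : ℝ) ≤ ((2 ^ b : ℕ) : ℝ) := by exact_mod_cast Nat.one_le_two_pow
  have hs : 1 ≤ Real.sqrt ((2 ^ b : ℕ) : ℝ) := Real.one_le_sqrt.mpr hm
  have hss := Real.mul_self_sqrt (by linarith : 0 ≤ ((2 ^ b : ℕ) : ℝ))
  have hpt : ∀ ε : Fin (2 ^ b) → Fin 3, zeta b 0 * (((1 - sig b : ℝ) : ℂ) * exp (I * (-(ang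
      (fun j : Fin (2 ^ b) => -(2 * Real.pi / (MM b : ℝ) * 16 ^ ((j : ℕ) + 1))) ε) : ℝ))) =
      ((1 - sig b : ℝ) : ℂ) * zeta b (∑ j, sgn3 (ε j) * 16 ^ ((j : ℕ) + 1)) := by
    intro ε
    rw [mul_left_comm, zeta, zeta, ← Complex.exp_add, ang]
    congr 2
    push_cast
    rw [Finset.mul_sum, ← Finset.sum_neg_distrib, mul_zero, add_zero, mul_add]
    congr 2
    exact Finset.sum_congr rfl fun j _ => by ring
  have hoff : ∀ ε : Fin (2 ^ b) → Fin 3, (∀ j, ε ≠ Pi.single j 1) →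
      ‖H (zeta b 0 * (((1 - sig b : ℝ) : ℂ) * exp (I * (-(ang
      (fun j : Fin (2 ^ b) => -(2 * Real.pi / (MM b : ℝ) * 16 ^ ((j : ℕ) + 1))) ε) : ℝ))))‖ ≤
      192 * (MM b : ℝ) ^ 3 := by
    intro ε hε
    rw [hpt, hG _ (rho_lt (norm_zeta _ _)) (rho_ne (norm_zeta _ _))]
    exact off_peak (norm_zeta _ _) (zeta_pow _ _) (word_off (by omega) ε hε)
  have h1 := lower_bound (c := fun k => (((k : ℂ) + 1) * γ (k + 1)) * zeta b 0 ^ (k + 1))
    (G := fun z => H (zeta b 0 * z)) (by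
      intro z hz
      refine (h (zeta b 0 * z) (by rwa [norm_mul, norm_zeta, one_mul])).congr_fun fun k => ?_
      ring) (r := 1 - sig b) (by linarith [sig_le_half b]) (by linarith [sig_pos b])
    (fun j : Fin (2 ^ b) => -(2 * Real.pi / (MM b : ℝ) * 16 ^ ((j : ℕ) + 1)))
    (a := 1 / Real.sqrt ((2 ^ b : ℕ) : ℝ)) (L := kap * (MM b : ℝ) ^ 5 - 192 * (MM b : ℝ) ^ 3)
    (K := 192 * (MM b : ℝ) ^ 3) (E := 192 * (MM b : ℝ) ^ 3) (by positivity)
    (by rw [div_le_one (by linarith)]; exact hs) (by positivity) (by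
      intro j
      have h2 := on_peak hb (blk_idx j.2)
      have h3 : zeta b 0 * (((1 - sig b : ℝ) : ℂ) * exp (I * (-(-(2 * Real.pi / (MM b : ℝ) *
          16 ^ ((j : ℕ) + 1))) : ℝ))) = ((1 - sig b : ℝ) : ℂ) * exp (I * (th (idx b j) : ℝ)) := by
        rw [mul_left_comm, zeta, ← Complex.exp_add, th_idx j.2]
        congr 2
        push_cast
        ring
      have h4 : ‖exp (I * (th (idx b j) : ℝ))‖ = 1 := Complex.norm_exp_I_mul_ofReal _
      rw [h3, hG _ (rho_lt h4) (rho_ne h4), ← norm_neg]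
      exact h2.trans (Complex.re_le_norm _)) (by
      have h2 := hoff 0 (by
        intro j hj
        have := congrFun hj j
        simp at this)
      rw [ang_zero] at h2
      simpa using h2) (fun ε _ hε => hoff ε hε)
  have e1 : 2 * (1 / Real.sqrt ((2 ^ b : ℕ) : ℝ)) ^ 2 * ((2 ^ b : ℕ) : ℝ) = 2 := by
    rw [one_div_pow, Real.sq_sqrt (by linarith)]
    field_simp
  have e2 : ∀ k : ℕ, ‖(((k : ℂ) + 1) * γ (k + 1)) * zeta b 0 ^ (k + 1)‖ =
      ((k : ℝ) + 1) * ‖γ (k + 1)‖ := by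
    intro k
    have h4 : ‖(k : ℂ) + 1‖ = (k : ℝ) + 1 := by exact_mod_cast Complex.norm_natCast (k + 1)
    rw [norm_mul, norm_mul, norm_pow, norm_zeta, one_pow, mul_one, h4]
  have e3 : ∀ L : ℝ, ((2 ^ b : ℕ) : ℝ) * (1 / Real.sqrt ((2 ^ b : ℕ) : ℝ) * L) =
      Real.sqrt ((2 ^ b : ℕ) : ℝ) * L := by
    intro L
    nth_rewrite 1 [← hss]
    field_simp
  simp only [e1, e2, e3] at h1
  have h2 : Real.sqrt (Real.log (1 / sig b)) ≤ 6 * Real.sqrt ((2 ^ b : ℕ) : ℝ) := by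
    refine Real.sqrt_le_iff.mpr ⟨by positivity, ?_⟩
    have h3 := log_sig b
    rw [mul_pow, Real.sq_sqrt (by linarith)]
    push_cast at hm ⊢
    linarith
  have h3 : (3 : ℝ) ^ 2 ^ b ≤ MM b := by
    rw [MM_cast]
    calc (3 : ℝ) ^ 2 ^ b ≤ 16 ^ 2 ^ b := by gcongr; norm_num
      _ ≤ _ := pow_le_pow_right₀ (by norm_num) (Nat.pow_le_pow_right (by norm_num) (by omega))
  have h4 : Real.exp 2 ≤ 8 := by
    have h5 := Real.exp_one_lt_d9
    have h6 : Real.exp 2 = Real.exp 1 * Real.exp 1 := by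
      rw [← Real.exp_add]
      norm_num
    nlinarith [Real.exp_pos 1]
  have hT : 0 ≤ ∑' k : ℕ, ((k : ℝ) + 1) * ‖γ (k + 1)‖ * (1 - sig b) ^ (k + 1) := by
    refine tsum_nonneg fun k => ?_
    have : 0 ≤ 1 - sig b := by linarith [sig_le_half b]
    positivity
  generalize ∑' k : ℕ, ((k : ℝ) + 1) * ‖γ (k + 1)‖ * (1 - sig b) ^ (k + 1) = T at h1 hT ⊢
  rw [div_eq_mul_one_div _ (sig b)]
  generalize Real.sqrt (Real.log (1 / sig b)) = u at h2
  rw [sig, one_div_one_div]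
  generalize Real.sqrt ((2 ^ b : ℕ) : ℝ) = s at h1 h2 hs
  generalize (MM b : ℝ) = M at h1 h3 hM hM0
  have p3 : 0 < M ^ 3 := by positivity
  have p4 : M ^ 3 * 16 ≤ M ^ 4 := by nlinarith
  have p5 : 800 * M ^ 4 ≤ kap * M ^ 5 := by nlinarith [mul_le_mul_of_nonneg_right hM (by positivity : 0 ≤ M ^ 4)]
  have p6 := mul_le_mul_of_nonneg_right h3 p3.le
  have p7 := mul_le_mul_of_nonneg_right h4 hT
  have p8 := mul_le_mul_of_nonneg_right h2 (by positivity : 0 ≤ kap * M ^ 5)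
  have p9 := mul_le_mul_of_nonneg_left p5 (by linarith : 0 ≤ s)
  have p10 := mul_le_mul_of_nonneg_left p4 (by linarith : 0 ≤ s)
  have p11 := mul_le_mul_of_nonneg_right hs (by positivity : 0 ≤ M ^ 4)
  nlinarith

theorem series_large {γ : ℕ → ℂ} {H : ℂ → ℂ}
    (h : ∀ z : ℂ, ‖z‖ < 1 →
      HasSum (fun k : ℕ => (((k : ℂ) + 1) * γ (k + 1)) * z ^ (k + 1)) (H z))
    (hG : ∀ z : ℂ, ‖z‖ < 1 → z ≠ 0 → H z = dat.G z) :
    ∃ᶠ r : ℝ in nhdsWithin (1 : ℝ) (Set.Iio 1),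
      kap / 256 * Real.sqrt (Real.log (1 / (1 - r))) / (1 - r) ≤
        ∑' k : ℕ, ((k : ℝ) + 1) * ‖γ (k + 1)‖ * r ^ (k + 1) := by
  have hMM : Filter.Tendsto (fun b : ℕ => (MM b : ℝ)) Filter.atTop Filter.atTop :=
    Filter.tendsto_atTop_mono (fun b => by exact_mod_cast le_MM b) tendsto_natCast_atTop_atTop
  have ht : Filter.Tendsto (fun b : ℕ => 1 - sig b) Filter.atTop (nhdsWithin (1 : ℝ) (Set.Iio 1)) := by
    refine tendsto_nhdsWithin_iff.mpr ⟨?_, Filter.Eventually.of_forall fun b => ?_⟩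
    · have h1 := ((Filter.tendsto_pow_atTop (by norm_num : 5 ≠ 0)).comp hMM).const_div_atTop 1
      simpa [sig] using h1.const_sub 1
    · simpa using sig_pos b
  refine ht.frequently (Filter.Eventually.frequently ?_)
  filter_upwards [Filter.eventually_ge_atTop 4, hMM.eventually_ge_atTop (800 / kap)] with b hb hM
  rw [sub_sub_cancel]
  rw [div_le_iff₀ kap_pos, mul_comm] at hM
  exact series_block h hG hb hM

end Pool.Agent.Lib.MP_51cccb_an.Cc
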