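import Mathlib

set_option autoImplicit false

namespace Pool.Agent.Lib.MP_51cccb_an

/-- Data of the poles in the half plane picture. -/
structure Poles (ι : Type) where
  p : ι → ℂ
  η : ι → ℝ
  y : ι → ℝ
  ω : ι → ℝ
  hη : ∀ j, 1 ≤ η j
  hy : ∀ j, 2 ≤ y j
  hy2 : ∀ j, y j ^ 2 = ‖p j‖
  hlac : ∀ j k, j ≠ k → 2 * ‖p j‖ ≤ ‖p k‖ ∨ 2 * ‖p k‖ ≤ ‖p j‖
  hsum : Summable ω
  hsum1 : ∑' j, ω j ≤ 1
  hω : ∀ j, η j ≤ ω j * y j

variable {ι : Type}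

namespace Poles

variable (P : Poles ι)

/-- The residues. -/
noncomputable def a (j : ι) : ℝ := ‖P.p j‖ * P.η j / 32

lemma x_ge (j : ι) : 4 ≤ ‖P.p j‖ := by
  have := P.hy j
  rw [← P.hy2 j]
  nlinarith

lemma p_ne (j : ι) : P.p j ≠ 0 := by
  intro h
  have := P.x_ge j
  rw [h, norm_zero] at this
  linarith

lemma a_pos (j : ι) : 0 < P.a j := by
  have := P.x_ge j
  have := P.hη j
  unfold a
  positivity

lemma ω_pos (j : ι) : 0 < P.ω j := by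
  have h1 := P.hη j
  have h2 := P.hy j
  have h3 := P.hω j
  by_contra h
  push Not at h
  nlinarith

/-- The point lies to the right of every pole. -/
def Adm (ζ : ℂ) : Prop := ∀ j, P.η j ≤ (ζ - P.p j).re

lemma Adm.norm_ge {P : Poles ι} {ζ : ℂ} (h : P.Adm ζ) (j : ι) : P.η j ≤ ‖ζ - P.p j‖ :=
  (h j).trans (Complex.re_le_norm _)

lemma Adm.ne {P : Poles ι} {ζ : ℂ} (h : P.Adm ζ) (j : ι) : ζ - P.p j ≠ 0 := by
  intro h0
  have := h.norm_ge j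
  have := P.hη j
  rw [h0, norm_zero] at *
  linarith

lemma near_far {ζ : ℂ} {j k : ι} (hjk : k ≠ j) (hn : ‖ζ - P.p j‖ < ‖P.p j‖ / 4) :
    ‖P.p j‖ / 4 ≤ ‖ζ - P.p k‖ ∧ ‖P.p k‖ / 4 ≤ ‖ζ - P.p k‖ := by
  have h1 : ‖P.p j‖ - ‖P.p k‖ ≤ ‖ζ - P.p j‖ + ‖ζ - P.p k‖ := by
    calc ‖P.p j‖ - ‖P.p k‖ ≤ ‖P.p j - P.p k‖ := norm_sub_norm_le _ _
      _ = ‖(ζ - P.p k) - (ζ - P.p j)‖ := by congr 1; ring
      _ ≤ ‖ζ - P.p k‖ + ‖ζ - P.p j‖ := norm_sub_le _ _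
      _ = _ := add_comm _ _
  have h2 : ‖P.p k‖ - ‖P.p j‖ ≤ ‖ζ - P.p j‖ + ‖ζ - P.p k‖ := by
    calc ‖P.p k‖ - ‖P.p j‖ ≤ ‖P.p k - P.p j‖ := norm_sub_norm_le _ _
      _ = ‖(ζ - P.p j) - (ζ - P.p k)‖ := by congr 1; ring
      _ ≤ _ := norm_sub_le _ _
  have h3 := norm_nonneg (P.p j)
  have h4 := norm_nonneg (P.p k)
  rcases P.hlac j k hjk.symm with h | h
  · constructor <;> linarith
  · constructor <;> linarith

lemma exists_near [Nonempty ι] (ζ : ℂ) : ∃ j0, ∀ k, k ≠ j0 → ‖P.p k‖ / 4 ≤ ‖ζ - P.p k‖ := by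
  by_cases h : ∃ j, ‖ζ - P.p j‖ < ‖P.p j‖ / 4
  · obtain ⟨j, hj⟩ := h
    exact ⟨j, fun k hk => (P.near_far hk hj).2⟩
  · push Not at h
    exact ⟨Classical.arbitrary ι, fun k _ => h k⟩

/-- The terms of the relative perturbation. -/
noncomputable def uT (ζ : ℂ) (j : ι) : ℂ := -(P.a j : ℂ) / (P.p j * (ζ - P.p j))

lemma norm_uT (ζ : ℂ) (j : ι) : ‖P.uT ζ j‖ = P.η j / 32 / ‖ζ - P.p j‖ := by
  have := P.x_ge j
  unfold uT
  rw [norm_div, norm_neg, norm_mul, Complex.norm_real, Real.norm_of_nonneg (P.a_pos j).le, a]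
  by_cases h : ‖ζ - P.p j‖ = 0
  · simp [h]
  · field_simp

lemma uT_le_near {ζ : ℂ} (h : P.Adm ζ) (j : ι) : ‖P.uT ζ j‖ ≤ 1 / 32 := by
  have h1 := h.norm_ge j
  have h2 := P.hη j
  rw [norm_uT, div_le_iff₀ (by linarith)]
  linarith

lemma uT_le_far {ζ : ℂ} (j : ι) (h : ‖P.p j‖ / 4 ≤ ‖ζ - P.p j‖) : ‖P.uT ζ j‖ ≤ P.ω j / 8 := by
  have h1 := P.x_ge j
  have h2 := P.hω j
  have h3 := P.hy j
  have h4 := P.hy2 j
  have h5 := P.ω_pos j
  rw [norm_uT, div_le_iff₀ (by linarith)]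
  have h6 : P.y j ≤ ‖P.p j‖ := by nlinarith
  have h7 : P.ω j * P.y j ≤ P.ω j * (4 * ‖ζ - P.p j‖) :=
    mul_le_mul_of_nonneg_left (by linarith) h5.le
  linarith

lemma uT_bound [Nonempty ι] {ζ : ℂ} (h : P.Adm ζ) :
    Summable (P.uT ζ) ∧ ‖∑' j, P.uT ζ j‖ ≤ 1 / 2 := by
  classical
  obtain ⟨j0, hj0⟩ := P.exists_near ζ
  have hb : ∀ j, ‖P.uT ζ j‖ ≤ (if j = j0 then 1 / 32 else 0) + P.ω j / 8 := by
    intro j
    have h5 := P.ω_pos j
    by_cases hj : j = j0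
    · rw [if_pos hj]
      have := P.uT_le_near h j
      linarith
    · rw [if_neg hj, zero_add]
      exact P.uT_le_far j (hj0 j hj)
  have hs : HasSum (fun j => (if j = j0 then (1 : ℝ) / 32 else 0) + P.ω j / 8)
      (1 / 32 + (∑' j, P.ω j) / 8) :=
    (hasSum_ite_eq j0 _).add (P.hsum.hasSum.div_const 8)
  refine ⟨Summable.of_norm_bounded hs.summable hb, (tsum_of_norm_bounded hs hb).trans ?_⟩
  have := P.hsum1
  linarith

/-- The terms of the divided difference. -/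
noncomputable def dT (ζ ξ : ℂ) (j : ι) : ℂ := (P.a j : ℂ) / ((ζ - P.p j) * (ξ - P.p j))

lemma norm_dT (ζ ξ : ℂ) (j : ι) :
    ‖P.dT ζ ξ j‖ = ‖P.p j‖ * P.η j / 32 / (‖ζ - P.p j‖ * ‖ξ - P.p j‖) := by
  unfold dT
  rw [norm_div, norm_mul, Complex.norm_real, Real.norm_of_nonneg (P.a_pos j).le, a]

lemma dT_comm (ζ ξ : ℂ) (j : ι) : P.dT ζ ξ j = P.dT ξ ζ j := by
  unfold dT
  rw [mul_comm]

lemma dT_le_one_far {ζ ξ : ℂ} (h : P.Adm ξ) (j : ι) (hf : ‖P.p j‖ / 4 ≤ ‖ζ - P.p j‖) :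
    ‖P.dT ζ ξ j‖ ≤ 1 / 8 := by
  have h1 := P.x_ge j
  have h2 := h.norm_ge j
  have h3 := P.hη j
  have h4 : ‖P.p j‖ / 4 * P.η j ≤ ‖ζ - P.p j‖ * ‖ξ - P.p j‖ :=
    mul_le_mul hf h2 (by linarith) (norm_nonneg _)
  rw [norm_dT, div_le_iff₀ (by nlinarith)]
  linarith

lemma dT_le_far {ζ ξ : ℂ} (j : ι) (Y : ℝ) (hY : 0 < Y) (hf : ‖P.p j‖ / 4 ≤ ‖ζ - P.p j‖)
    (hg : P.y j * Y / 4 ≤ ‖ξ - P.p j‖) : ‖P.dT ζ ξ j‖ ≤ P.ω j / (2 * Y) := by
  have h1 := P.x_ge j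
  have h2 := P.hω j
  have h3 := P.hy j
  have h5 := P.ω_pos j
  have h4 : ‖P.p j‖ / 4 * (P.y j * Y / 4) ≤ ‖ζ - P.p j‖ * ‖ξ - P.p j‖ :=
    mul_le_mul hf hg (by positivity) (norm_nonneg _)
  have h6 : 0 < ‖P.p j‖ / 4 * (P.y j * Y / 4) := by positivity
  rw [norm_dT, div_le_div_iff₀ (by linarith) (by positivity)]
  calc ‖P.p j‖ * P.η j / 32 * (2 * Y) ≤ ‖P.p j‖ * (P.ω j * P.y j) / 32 * (2 * Y) := by gcongr
    _ = P.ω j * (‖P.p j‖ / 4 * (P.y j * Y / 4)) := by ring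
    _ ≤ _ := mul_le_mul_of_nonneg_left h4 h5.le

lemma one_add_dT_ge_aux {ζ ξ : ℂ} (h1 : P.Adm ζ) (h2 : P.Adm ξ) (j : ι)
    (hle : ‖ζ - P.p j‖ ≤ P.η j * P.y j) : 1 / P.y j ≤ ‖1 + P.dT ζ ξ j‖ := by
  have hz := h1.ne j
  have hx := h2.ne j
  have hη := P.hη j
  have hy := P.hy j
  have heq : 1 + P.dT ζ ξ j = ((ζ - P.p j) + (P.a j : ℂ) * (ξ - P.p j)⁻¹) / (ζ - P.p j) := by
    unfold dT
    field_simp
  have hre : P.η j ≤ ((ζ - P.p j) + (P.a j : ℂ) * (ξ - P.p j)⁻¹).re := by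
    rw [Complex.add_re, Complex.re_ofReal_mul, Complex.inv_re]
    have h3 : 0 ≤ (ξ - P.p j).re := by linarith [h2 j]
    have h4 : 0 ≤ P.a j * ((ξ - P.p j).re / Complex.normSq (ξ - P.p j)) :=
      mul_nonneg (P.a_pos j).le (div_nonneg h3 (Complex.normSq_nonneg _))
    linarith [h1 j]
  have hn := hre.trans (Complex.re_le_norm _)
  rw [heq, norm_div, div_le_div_iff₀ (by linarith) (norm_pos_iff.mpr hz)]
  nlinarith

lemma one_add_dT_ge {ζ ξ : ℂ} (h1 : P.Adm ζ) (h2 : P.Adm ξ) (j : ι) :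
    1 / P.y j ≤ ‖1 + P.dT ζ ξ j‖ := by
  by_cases ha : ‖ζ - P.p j‖ ≤ P.η j * P.y j
  · exact P.one_add_dT_ge_aux h1 h2 j ha
  by_cases hb : ‖ξ - P.p j‖ ≤ P.η j * P.y j
  · rw [dT_comm]
    exact P.one_add_dT_ge_aux h2 h1 j hb
  push Not at ha hb
  have hη := P.hη j
  have hy := P.hy j
  have hy2 := P.hy2 j
  have h3 : (P.η j * P.y j) * (P.η j * P.y j) ≤ ‖ζ - P.p j‖ * ‖ξ - P.p j‖ :=
    mul_le_mul ha.le hb.le (by positivity) (norm_nonneg _)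
  have h4 : ‖P.dT ζ ξ j‖ ≤ 1 / 32 := by
    have h5 : 0 < (P.η j * P.y j) * (P.η j * P.y j) := by positivity
    rw [norm_dT, div_le_iff₀ (by linarith), ← hy2]
    have h6 : P.y j ^ 2 * P.η j ≤ (P.η j * P.y j) * (P.η j * P.y j) := by
      have : P.y j ^ 2 * P.η j * 1 ≤ P.y j ^ 2 * P.η j * P.η j := by gcongr
      nlinarith
    linarith
  have h5 : 1 - ‖P.dT ζ ξ j‖ ≤ ‖1 + P.dT ζ ξ j‖ := by
    have := norm_sub_norm_le (1 : ℂ) (-P.dT ζ ξ j)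
    simpa using this
  have h6 : 1 / P.y j ≤ 1 / 2 := one_div_le_one_div_of_le (by norm_num) hy
  linarith

theorem dT_main [Nonempty ι] {ζ ξ : ℂ} (h1 : P.Adm ζ) (h2 : P.Adm ξ) :
    Summable (P.dT ζ ξ) ∧ 1 + ∑' j, P.dT ζ ξ j ≠ 0 := by
  classical
  have hS := P.hsum1
  by_cases hb : ∃ j, ‖ζ - P.p j‖ < ‖P.p j‖ / 4 ∧ ‖ξ - P.p j‖ < ‖P.p j‖ / 4
  · obtain ⟨j0, hz, hx⟩ := hb
    have hy0 := P.hy j0
    have hb : ∀ k, ‖(if k = j0 then 0 else P.dT ζ ξ k)‖ ≤ P.ω k / (2 * P.y j0) := by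
      intro k
      have h5 := P.ω_pos k
      by_cases hk : k = j0
      · rw [if_pos hk, norm_zero]
        positivity
      · rw [if_neg hk]
        refine P.dT_le_far k _ (by linarith) (P.near_far hk hz).2 ?_
        have h3 := P.near_far hk hx
        rw [← P.hy2, ← P.hy2] at h3
        nlinarith [sq_nonneg (P.y k - P.y j0), h3.1, h3.2]
    have hs : HasSum (fun k => P.ω k / (2 * P.y j0)) ((∑' j, P.ω j) / (2 * P.y j0)) :=
      P.hsum.hasSum.div_const _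
    have hs1 : Summable fun k => (if k = j0 then 0 else P.dT ζ ξ k) :=
      Summable.of_norm_bounded hs.summable hb
    have hs2 : HasSum (P.dT ζ ξ)
        (P.dT ζ ξ j0 + ∑' k, (if k = j0 then 0 else P.dT ζ ξ k)) := by
      have := (hasSum_ite_eq j0 (P.dT ζ ξ j0)).add hs1.hasSum
      refine this.congr_fun ?_
      intro k
      by_cases hk : k = j0
      · simp [hk]
      · simp [hk]
    refine ⟨hs2.summable, ?_⟩
    rw [hs2.tsum_eq]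
    intro h0
    have h3 := tsum_of_norm_bounded hs hb
    have h4 := P.one_add_dT_ge h1 h2 j0
    have h5 : 1 + P.dT ζ ξ j0 = -∑' k, (if k = j0 then 0 else P.dT ζ ξ k) := by
      linear_combination h0
    rw [h5, norm_neg] at h4
    have h6 : (∑' j, P.ω j) / (2 * P.y j0) < 1 / P.y j0 := by
      rw [div_lt_div_iff₀ (by linarith) (by linarith)]
      nlinarith
    linarith
  · push Not at hb
    obtain ⟨j1, hj1⟩ := P.exists_near ζ
    obtain ⟨j2, hj2⟩ := P.exists_near ξ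
    have hbd : ∀ j, ‖P.dT ζ ξ j‖ ≤
        ((if j = j1 then 1 / 8 else 0) + (if j = j2 then 1 / 8 else 0)) + P.ω j / 2 := by
      intro j
      have h5 := P.ω_pos j
      have h8 : ‖P.dT ζ ξ j‖ ≤ 1 / 8 := by
        by_cases hz : ‖ζ - P.p j‖ < ‖P.p j‖ / 4
        · rw [dT_comm]
          exact P.dT_le_one_far h1 j (hb j hz)
        · exact P.dT_le_one_far h2 j (not_lt.mp hz)
      by_cases hj : j = j1
      · rw [if_pos hj]
        split_ifs <;> linarith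
      by_cases hj' : j = j2
      · rw [if_neg hj, if_pos hj']
        linarith
      rw [if_neg hj, if_neg hj', zero_add, zero_add]
      have h6 := P.dT_le_far (ζ := ζ) (ξ := ξ) j 1 one_pos (hj1 j hj) (by
        have h7 := hj2 j hj'
        have h3 := P.hy j
        rw [← P.hy2] at h7
        nlinarith)
      simpa using h6
    have hs : HasSum (fun j => ((if j = j1 then (1 : ℝ) / 8 else 0) +
        (if j = j2 then 1 / 8 else 0)) + P.ω j / 2) ((1 / 8 + 1 / 8) + (∑' j, P.ω j) / 2) :=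
      ((hasSum_ite_eq j1 _).add (hasSum_ite_eq j2 _)).add (P.hsum.hasSum.div_const 2)
    refine ⟨Summable.of_norm_bounded hs.summable hbd, ?_⟩
    intro h0
    have h3 := tsum_of_norm_bounded hs hbd
    have h5 : ∑' j, P.dT ζ ξ j = -1 := by linear_combination h0
    rw [h5] at h3
    simp only [norm_neg, norm_one] at h3
    linarith

/-- Injectivity of the perturbed identity map on the admissible region. -/
theorem inj [Nonempty ι] {ζ ξ : ℂ} (h1 : P.Adm ζ) (h2 : P.Adm ξ)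
    (h : ζ * (1 + ∑' j, P.uT ζ j) = ξ * (1 + ∑' j, P.uT ξ j)) : ζ = ξ := by
  obtain ⟨hs, hne⟩ := P.dT_main h1 h2
  have s1 := (P.uT_bound h1).1
  have s2 := (P.uT_bound h2).1
  have key : HasSum (fun j => (ζ - ξ) * P.dT ζ ξ j)
      (ζ * ∑' j, P.uT ζ j - ξ * ∑' j, P.uT ξ j) := by
    refine ((s1.hasSum.mul_left ζ).sub (s2.hasSum.mul_left ξ)).congr_fun ?_
    intro j
    have := h1.ne j
    have := h2.ne j
    have := P.p_ne j
    unfold uT dT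
    field_simp
    ring
  have key2 := key.unique (hs.hasSum.mul_left (ζ - ξ))
  have h3 : (ζ - ξ) * (1 + ∑' j, P.dT ζ ξ j) = 0 := by
    linear_combination h - key2
  rcases mul_eq_zero.mp h3 with h4 | h4
  · exact sub_eq_zero.mp h4
  · exact absurd h4 hne

end Poles

end Pool.Agent.Lib.MP_51cccb_an
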