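import Mathlib
import Pool.Agent.Lib.MP_51cccb_an.Rooms

set_option autoImplicit false

namespace Pool.Agent.Lib.MP_51cccb_an

open Complex Metric

lemma re_div_one_sub {w : ℂ} (hw : 1 - w ≠ 0) :
    (w / (1 - w)).re = -1 / 2 + (1 - ‖w‖ ^ 2) / (2 * ‖1 - w‖ ^ 2) := by
  have h0 : Complex.normSq (1 - w) ≠ 0 := by simpa using hw
  rw [Complex.sq_norm, Complex.sq_norm, Complex.div_re]
  field_simp
  simp [Complex.normSq_apply]
  ring

lemma one_sub_ne {z : ℂ} (hz : ‖z‖ < 1) : 1 - z ≠ 0 := by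
  intro h
  have : z = 1 := by linear_combination -h
  rw [this, norm_one] at hz
  exact lt_irrefl _ hz

/-- Data of the poles in the disc picture. -/
structure Disc (ι : Type) extends Poles ι where
  q : ι → ℂ
  σ : ι → ℝ
  hσ : ∀ j, 0 < σ j
  hq : ∀ j, ‖q j‖ = 1 - σ j
  hp : ∀ j, p j = (q j - 1)⁻¹
  hηq : ∀ j, η j = σ j / (2 * ‖1 - q j‖ ^ 2)

variable {ι : Type}

namespace Disc

variable (D : Disc ι)

lemma q_lt (j : ι) : ‖D.q j‖ < 1 := by
  have := D.hσ j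
  rw [D.hq j]
  linarith

lemma one_sub_q_ne (j : ι) : 1 - D.q j ≠ 0 := one_sub_ne (D.q_lt j)

lemma den_ge (j : ι) {z : ℂ} : 1 - ‖D.q j‖ * ‖z‖ ≤ ‖1 - D.q j * z‖ := by
  have := norm_sub_norm_le (1 : ℂ) (D.q j * z)
  simpa using this

lemma den_ge_left (j : ι) {z : ℂ} (hz : ‖z‖ ≤ 1) : D.σ j ≤ ‖1 - D.q j * z‖ := by
  have h1 := D.den_ge j (z := z)
  have h2 : ‖D.q j‖ * ‖z‖ ≤ ‖D.q j‖ := mul_le_of_le_one_right (norm_nonneg _) hz
  have h3 := D.hq j
  linarith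

lemma den_ge_right (j : ι) {z : ℂ} : 1 - ‖z‖ ≤ ‖1 - D.q j * z‖ := by
  have h1 := D.den_ge j (z := z)
  have h2 : ‖D.q j‖ * ‖z‖ ≤ ‖z‖ := mul_le_of_le_one_left (norm_nonneg _) (D.q_lt j).le
  linarith

lemma den_ne (j : ι) {z : ℂ} (hz : ‖z‖ < 1) : 1 - D.q j * z ≠ 0 := by
  intro h
  have := D.den_ge_right j (z := z)
  rw [h, norm_zero] at this
  linarith

lemma adm {z : ℂ} (hz : ‖z‖ < 1) : D.toPoles.Adm (z / (1 - z)) := by
  intro j
  have h1 := D.one_sub_q_ne j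
  have h2 : D.p j = -1 - D.q j / (1 - D.q j) := by
    rw [D.hp j]
    have : D.q j - 1 ≠ 0 := fun h => h1 (by linear_combination -h)
    field_simp
    ring
  rw [h2, Complex.sub_re, Complex.sub_re, re_div_one_sub h1, re_div_one_sub (one_sub_ne hz),
    D.hηq j]
  have h3 : 0 ≤ (1 - ‖z‖ ^ 2) / (2 * ‖1 - z‖ ^ 2) := by
    have : ‖z‖ ^ 2 ≤ 1 := by nlinarith [norm_nonneg z]
    exact div_nonneg (by linarith) (by positivity)
  have h4 : D.σ j / (2 * ‖1 - D.q j‖ ^ 2) ≤ (1 - ‖D.q j‖ ^ 2) / (2 * ‖1 - D.q j‖ ^ 2) := by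
    refine div_le_div_of_nonneg_right ?_ (by positivity)
    have h5 := D.hq j
    have h6 := D.hσ j
    have h7 := norm_nonneg (D.q j)
    nlinarith
  simp only [Complex.neg_re, Complex.one_re]
  linarith

/-- Terms of the perturbation in the disc. -/
noncomputable def T (j : ι) (z : ℂ) : ℂ :=
  (D.toPoles.a j : ℂ) * (1 - D.q j) ^ 2 * ((1 - z) / (1 - D.q j * z))

/-- Derivatives of the terms. -/
noncomputable def T' (j : ι) (z : ℂ) : ℂ :=
  -((D.toPoles.a j : ℂ) * (1 - D.q j) ^ 3) / (1 - D.q j * z) ^ 2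

lemma T_eq (j : ι) {z : ℂ} (hz : ‖z‖ < 1) : D.T j z = D.toPoles.uT (z / (1 - z)) j := by
  have h1 := D.one_sub_q_ne j
  have h2 := D.den_ne j hz
  have h3 := one_sub_ne hz
  have h4 : D.q j - 1 ≠ 0 := fun h => h1 (by linear_combination -h)
  have h5 : z / (1 - z) - (D.q j - 1)⁻¹ = (1 - D.q j * z) / ((1 - z) * (1 - D.q j)) := by
    field_simp
    ring
  unfold T Poles.uT
  rw [D.hp j, h5]
  field_simp
  ring

lemma hasDerivAt_T (j : ι) {z : ℂ} (hz : ‖z‖ < 1) : HasDerivAt (D.T j) (D.T' j z) z := by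
  have h2 := D.den_ne j hz
  have h1 : HasDerivAt (fun w : ℂ => 1 - w) (-1) z := by
    simpa using (hasDerivAt_id z).const_sub 1
  have h3 : HasDerivAt (fun w : ℂ => 1 - D.q j * w) (-D.q j) z := by
    simpa using ((hasDerivAt_id z).const_mul (D.q j)).const_sub 1
  have h4 := (h1.div h3 h2).const_mul ((D.toPoles.a j : ℂ) * (1 - D.q j) ^ 2)
  refine h4.congr_deriv ?_
  unfold T'
  field_simp
  ring

lemma norm_p (j : ι) : ‖D.p j‖ = ‖1 - D.q j‖⁻¹ := by
  rw [D.hp j, norm_inv, norm_sub_rev]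

lemma a_mul (j : ι) : D.toPoles.a j * ‖1 - D.q j‖ ^ 3 = D.σ j / 64 := by
  have h1 : ‖1 - D.q j‖ ≠ 0 := norm_ne_zero_iff.mpr (D.one_sub_q_ne j)
  unfold Poles.a
  rw [D.norm_p, D.hηq]
  field_simp
  ring

lemma norm_T' (j : ι) (z : ℂ) : ‖D.T' j z‖ = D.σ j / 64 / ‖1 - D.q j * z‖ ^ 2 := by
  unfold T'
  rw [norm_div, norm_neg, norm_mul, norm_pow, norm_pow, Complex.norm_real,
    Real.norm_of_nonneg (D.toPoles.a_pos j).le, a_mul]

lemma norm_T_le (j : ι) {R : ℝ} (hR : R < 1) {z : ℂ} (hz : z ∈ ball (0 : ℂ) R) :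
    ‖D.T j z‖ ≤ D.ω j * (2 / (1 - R)) := by
  have hz' : ‖z‖ < R := by simpa using hz
  have h1 : ‖1 - D.q j‖ ≠ 0 := norm_ne_zero_iff.mpr (D.one_sub_q_ne j)
  have h2 : D.toPoles.a j * ‖1 - D.q j‖ ^ 2 ≤ D.ω j := by
    have h3 : D.toPoles.a j * ‖1 - D.q j‖ ^ 2 = D.η j / 32 / ‖D.p j‖ := by
      unfold Poles.a
      rw [D.norm_p]
      field_simp
    have h4 := D.toPoles.x_ge j
    have h5 := D.hω j
    have h6 := D.hy j
    have h7 := D.hy2 j
    have h8 := D.toPoles.ω_pos j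
    rw [h3, div_le_iff₀ (by linarith), ← h7]
    have h9 : D.ω j * D.y j ≤ D.ω j * D.y j ^ 2 :=
      mul_le_mul_of_nonneg_left (by nlinarith) h8.le
    have := D.hη j
    linarith
  have h3 : ‖(1 - z) / (1 - D.q j * z)‖ ≤ 2 / (1 - R) := by
    rw [norm_div]
    have h4 := D.den_ge_right j (z := z)
    have h5 : ‖1 - z‖ ≤ 2 := by
      have := norm_sub_le (1 : ℂ) z
      rw [norm_one] at this
      linarith
    exact div_le_div₀ (by norm_num) h5 (by linarith) (by linarith)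
  unfold T
  rw [norm_mul, norm_mul, norm_pow, Complex.norm_real, Real.norm_of_nonneg (D.toPoles.a_pos j).le]
  exact mul_le_mul h2 h3 (norm_nonneg _) (D.toPoles.ω_pos j).le

/-- The perturbation. -/
noncomputable def U (z : ℂ) : ℂ := ∑' j, D.T j z

lemma U_deriv {z : ℂ} (hz : ‖z‖ < 1) :
    DifferentiableAt ℂ D.U z ∧ HasSum (fun j => D.T' j z) (deriv D.U z) := by
  obtain ⟨R, hR1, hR2⟩ := exists_between hz
  have hzR : z ∈ ball (0 : ℂ) R := by simpa using hR1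
  have hu : Summable fun j => D.ω j * (2 / (1 - R)) := D.hsum.mul_right _
  have hf : ∀ j, DifferentiableOn ℂ (D.T j) (ball (0 : ℂ) R) := by
    intro j w hw
    have : ‖w‖ < R := by simpa using hw
    exact (D.hasDerivAt_T j (this.trans hR2)).differentiableAt.differentiableWithinAt
  have hle : ∀ j w, w ∈ ball (0 : ℂ) R → ‖D.T j w‖ ≤ D.ω j * (2 / (1 - R)) :=
    fun j w hw => D.norm_T_le j hR2 hw
  refine ⟨(differentiableOn_tsum_of_summable_norm hu hf isOpen_ball hle).differentiableAt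
    (isOpen_ball.mem_nhds hzR), ?_⟩
  have := hasSum_deriv_of_summable_norm hu hf isOpen_ball hle hzR
  refine this.congr_fun ?_
  intro j
  exact (D.hasDerivAt_T j hz).deriv.symm

lemma U_eq {z : ℂ} (hz : ‖z‖ < 1) : D.U z = ∑' j, D.toPoles.uT (z / (1 - z)) j := by
  unfold U
  exact tsum_congr fun j => D.T_eq j hz

lemma norm_U_le [Nonempty ι] {z : ℂ} (hz : ‖z‖ < 1) : ‖D.U z‖ ≤ 1 / 2 := by
  rw [D.U_eq hz]
  exact (D.toPoles.uT_bound (D.adm hz)).2

lemma one_add_U_slit [Nonempty ι] {z : ℂ} (hz : ‖z‖ < 1) : 1 + D.U z ∈ slitPlane :=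
  mem_slitPlane_of_norm_lt_one ((D.norm_U_le hz).trans_lt (by norm_num))

lemma one_sub_slit {z : ℂ} (hz : ‖z‖ < 1) : 1 - z ∈ slitPlane := by
  have := mem_slitPlane_of_norm_lt_one (z := -z) (by simpa using hz)
  simpa [sub_eq_add_neg] using this

/-- The logarithm of f(z)/z. -/
noncomputable def g (z : ℂ) : ℂ := -log (1 - z) + log (1 + D.U z) - log (1 + D.U 0)

lemma g_zero : D.g 0 = 0 := by simp [g]

lemma hasDerivAt_g [Nonempty ι] {z : ℂ} (hz : ‖z‖ < 1) :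
    HasDerivAt D.g (1 / (1 - z) + deriv D.U z / (1 + D.U z)) z := by
  have h1 : HasDerivAt (fun w : ℂ => 1 - w) (-1) z := by
    simpa using (hasDerivAt_id z).const_sub 1
  have h2 := h1.clog (one_sub_slit hz)
  have h3 : HasDerivAt (fun w => 1 + D.U w) (deriv D.U z) z :=
    (D.U_deriv hz).1.hasDerivAt.const_add 1
  have h4 := h3.clog (D.one_add_U_slit hz)
  have h5 := (h2.neg.add h4).sub_const (log (1 + D.U 0))
  refine h5.congr_deriv ?_
  ring

lemma exp_g [Nonempty ι] {z : ℂ} (hz : ‖z‖ < 1) :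
    z * exp (D.g z) = z / (1 - z) * (1 + D.U z) / (1 + D.U 0) := by
  have h1 := slitPlane_ne_zero (D.one_add_U_slit hz)
  have h2 := slitPlane_ne_zero (D.one_add_U_slit (z := 0) (by simp))
  have h3 := one_sub_ne hz
  unfold g
  rw [exp_sub, exp_add, exp_neg, exp_log h1, exp_log h2, exp_log h3]
  field_simp

lemma injOn [Nonempty ι] : Set.InjOn (fun z => z * exp (D.g z)) (ball (0 : ℂ) 1) := by
  intro z hz w hw h
  have hz' : ‖z‖ < 1 := by simpa using hz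
  have hw' : ‖w‖ < 1 := by simpa using hw
  have h2 := slitPlane_ne_zero (D.one_add_U_slit (z := 0) (by simp))
  simp only [D.exp_g hz', D.exp_g hw'] at h
  rw [div_left_inj' h2, D.U_eq hz', D.U_eq hw'] at h
  have h3 := D.toPoles.inj (D.adm hz') (D.adm hw') h
  have h4 := one_sub_ne hz'
  have h5 := one_sub_ne hw'
  field_simp at h3
  linear_combination h3

lemma differentiableOn_g [Nonempty ι] : DifferentiableOn ℂ D.g (ball (0 : ℂ) 1) := by
  intro z hz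
  have hz' : ‖z‖ < 1 := by simpa using hz
  exact (D.hasDerivAt_g hz').differentiableAt.differentiableWithinAt

/-- Upper bound for z g'(z). -/
lemma norm_deriv_g_le [Nonempty ι] {z : ℂ} (hz : ‖z‖ < 1) :
    ‖z * deriv D.g z‖ ≤ 1 / ‖1 - z‖ + 2 * ‖deriv D.U z‖ := by
  rw [(D.hasDerivAt_g hz).deriv, norm_mul]
  have h1 : 1 / 2 ≤ ‖1 + D.U z‖ := by
    have h2 := D.norm_U_le hz
    have := norm_sub_norm_le (1 : ℂ) (-D.U z)
    simp only [norm_one, norm_neg, sub_neg_eq_add] at this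
    linarith
  have h2 : ‖deriv D.U z / (1 + D.U z)‖ ≤ 2 * ‖deriv D.U z‖ := by
    rw [norm_div, div_le_iff₀ (by linarith)]
    nlinarith [norm_nonneg (deriv D.U z)]
  have h3 := norm_add_le (1 / (1 - z)) (deriv D.U z / (1 + D.U z))
  rw [norm_div, norm_one] at h3
  have h4 := mul_le_of_le_one_left (norm_nonneg (1 / (1 - z) + deriv D.U z / (1 + D.U z))) hz.le
  linarith

/-- Lower bound for z g'(z). -/
lemma norm_deriv_g_ge [Nonempty ι] {z : ℂ} (hz : ‖z‖ < 1) (hz2 : 1 / 2 ≤ ‖z‖) :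
    ‖deriv D.U z‖ / 4 - 1 / ‖1 - z‖ ≤ ‖z * deriv D.g z‖ := by
  rw [(D.hasDerivAt_g hz).deriv, norm_mul]
  have h1 : ‖1 + D.U z‖ ≤ 2 := by
    have h2 := D.norm_U_le hz
    have := norm_add_le (1 : ℂ) (D.U z)
    simp only [norm_one] at this
    linarith
  have h0 : 0 < ‖1 + D.U z‖ := norm_pos_iff.mpr (slitPlane_ne_zero (D.one_add_U_slit hz))
  have h2 : ‖deriv D.U z‖ / 2 ≤ ‖deriv D.U z / (1 + D.U z)‖ := by
    rw [norm_div]
    exact div_le_div_of_nonneg_left (norm_nonneg _) h0 h1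
  have h3 := norm_sub_norm_le (deriv D.U z / (1 + D.U z)) (-(1 / (1 - z)))
  rw [norm_neg, norm_div (1 : ℂ), norm_one, sub_neg_eq_add,
    add_comm (deriv D.U z / (1 + D.U z))] at h3
  have h4 := mul_le_mul_of_nonneg_right hz2
    (norm_nonneg (1 / (1 - z) + deriv D.U z / (1 + D.U z)))
  have h5 : 0 ≤ 1 / ‖1 - z‖ := by positivity
  linarith

end Disc

end Pool.Agent.Lib.MP_51cccb_an
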