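import Mathlib
import Pool.Agent.Lib.MP_51cccb_an.Disc
import Pool.Agent.Lib.MP_51cccb_an.Dual

set_option autoImplicit false

namespace Pool.Agent.Lib.MP_51cccb_an

open Complex Metric

/-- Negative powers of two. -/
noncomputable def hp (n : ℕ) : ℝ := (1 / 2 : ℝ) ^ n

lemma hp_pos (n : ℕ) : 0 < hp n := by unfold hp; positivity

lemma hp_add (a b : ℕ) : hp (a + b) = hp a * hp b := pow_add _ _ _

lemma hp_anti {a b : ℕ} (h : a ≤ b) : hp b ≤ hp a :=
  pow_le_pow_of_le_one (by norm_num) (by norm_num) h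

lemma hp_le_one (n : ℕ) : hp n ≤ 1 := pow_le_one₀ (by norm_num) (by norm_num)

lemma hp_two_mul (n : ℕ) : hp (2 * n) = hp n ^ 2 := by
  rw [two_mul, hp_add, sq]

lemma hp_succ (n k : ℕ) : hp (n + k) = hp n / 2 ^ k := by
  rw [hp_add, hp, hp, one_div, inv_pow (2 : ℝ) k, div_eq_mul_inv]

lemma two_pow_mul_hp (n : ℕ) : 2 ^ n * hp n = 1 := by
  rw [hp, ← mul_pow]
  norm_num

/-- The index set: block number and position in the block. -/
abbrev Idx : Type := (b : ℕ) × Fin (4 ^ b)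

instance : Nonempty Idx := ⟨⟨0, ⟨0, by norm_num⟩⟩⟩

/-- The exponent of the angle. -/
def nu (j : Idx) : ℕ := 13 * 4 ^ j.1 - (j.2 : ℕ)

lemma nu_le (j : Idx) : nu j ≤ 13 * 4 ^ j.1 := Nat.sub_le _ _

lemma nu_gt (j : Idx) : 12 * 4 ^ j.1 + 1 ≤ nu j := by
  have := j.2.2
  unfold nu
  omega

lemma four_pow_pos (b : ℕ) : 1 ≤ 4 ^ b := Nat.one_le_pow _ _ (by norm_num)

lemma four_pow_lt {b c : ℕ} (h : b < c) : 4 * 4 ^ b ≤ 4 ^ c := by
  rw [← pow_succ']
  exact Nat.pow_le_pow_right (by norm_num) h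

lemma nu_inj : Function.Injective nu := by
  rintro ⟨b, i⟩ ⟨c, k⟩ h
  have h1 := nu_le ⟨b, i⟩
  have h2 := nu_gt ⟨b, i⟩
  have h3 := nu_le ⟨c, k⟩
  have h4 := nu_gt ⟨c, k⟩
  simp only at h1 h2 h3 h4
  have hbc : b = c := by
    rcases lt_trichotomy b c with h5 | h5 | h5
    · have := four_pow_lt h5
      omega
    · exact h5
    · have := four_pow_lt h5
      omega
  subst hbc
  have h5 := i.2
  have h6 := k.2
  simp only [nu] at h
  have : (i : ℕ) = k := by omega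
  rw [Fin.ext this]

/-- The angles. -/
noncomputable def th (j : Idx) : ℝ := hp (4 * nu j)

/-- The levels. -/
noncomputable def sg (b : ℕ) : ℝ := hp (96 * 4 ^ b)

/-- The reciprocals of the poles. -/
noncomputable def qq (j : Idx) : ℂ := ((1 - sg j.1 : ℝ) : ℂ) * exp (I * th j)

lemma sg_pos (b : ℕ) : 0 < sg b := hp_pos _

lemma sg_le_half (b : ℕ) : sg b ≤ 1 / 2 := by
  have := hp_anti (a := 1) (b := 96 * 4 ^ b) (by have := four_pow_pos b; omega)
  simpa [hp, sg] using this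

lemma t_ge (j : Idx) : hp (4 * nu j) / 4 ≤ ‖1 - qq j‖ := by
  have h1 := sg_le_half j.1
  have h2 := sg_pos j.1
  have h3 : |th j| = hp (4 * nu j) := abs_of_pos (hp_pos _)
  have := norm_one_sub_ge (s := 1 - sg j.1) (β := th j) (by linarith) (by linarith)
    (by rw [h3]; linarith [hp_le_one (4 * nu j)])
  rwa [h3] at this

lemma t_le (j : Idx) : ‖1 - qq j‖ ≤ 2 * hp (4 * nu j) := by
  have h2 := sg_pos j.1
  have h3 : |th j| = hp (4 * nu j) := abs_of_pos (hp_pos _)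
  have h4 := norm_one_sub_le (s := 1 - sg j.1) (β := th j) (by linarith)
  have h5 : sg j.1 ≤ hp (4 * nu j) := hp_anti (by have := nu_le j; omega)
  rw [h3] at h4
  unfold qq
  linarith

lemma t_pos (j : Idx) : 0 < ‖1 - qq j‖ := by
  have := t_ge j
  have := hp_pos (4 * nu j)
  linarith

lemma norm_pp (j : Idx) : ‖(qq j - 1)⁻¹‖ = ‖1 - qq j‖⁻¹ := by
  rw [norm_inv, norm_sub_rev]

lemma lac {j k : Idx} (h : nu j < nu k) : 2 * ‖(qq j - 1)⁻¹‖ ≤ ‖(qq k - 1)⁻¹‖ := by
  rw [norm_pp, norm_pp]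
  have h1 := t_ge j
  have h2 := t_le k
  have h3 := t_pos j
  have h4 := t_pos k
  have h5 : hp (4 * nu k) ≤ hp (4 * nu j + 4) := hp_anti (by omega)
  rw [hp_succ] at h5
  rw [← div_eq_mul_inv, inv_eq_one_div, div_le_div_iff₀ h3 h4]
  linarith

lemma summable_w : Summable (fun j : Idx => hp (nu j + 1)) ∧ ∑' j : Idx, hp (nu j + 1) ≤ 1 := by
  have h1 : HasSum (fun n : ℕ => hp (n + 1)) 1 := by
    have := hasSum_geometric_two' 1
    refine this.congr_fun ?_
    intro n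
    rw [hp, pow_succ, one_div, inv_pow]
    field_simp
  refine ⟨h1.summable.comp_injective nu_inj, ?_⟩
  have := tsum_comp_le_tsum_of_inj h1.summable (fun n => (hp_pos _).le) nu_inj
  rw [h1.tsum_eq] at this
  exact this

/-- The explicit example. -/
noncomputable def ex : Disc Idx where
  p j := (qq j - 1)⁻¹
  η j := sg j.1 / (2 * ‖1 - qq j‖ ^ 2)
  y j := Real.sqrt ‖(qq j - 1)⁻¹‖
  ω j := hp (nu j + 1)
  hη j := by
    have h1 := t_le j
    have h2 := t_pos j
    have h3 : hp (2 * (4 * nu j)) ≤ hp (96 * 4 ^ j.1 + 3) := hp_anti (by have := nu_gt j; omega)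
    rw [hp_succ, hp_two_mul] at h3
    rw [le_div_iff₀ (by positivity), sg]
    have h4 : ‖1 - qq j‖ ^ 2 ≤ (2 * hp (4 * nu j)) ^ 2 := by gcongr
    linarith
  hy j := by
    have h1 := t_le j
    have h2 := t_pos j
    have h3 : hp (4 * nu j) ≤ hp (0 + 3) := hp_anti (by have := nu_gt j; omega)
    rw [hp_succ, hp, hp, pow_zero, ← hp] at h3
    refine Real.le_sqrt_of_sq_le ?_
    rw [norm_pp, inv_eq_one_div, le_div_iff₀ h2]
    linarith
  hy2 j := Real.sq_sqrt (norm_nonneg _)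
  hlac j k hjk := by
    rcases lt_or_gt_of_ne (nu_inj.ne hjk) with h | h
    · exact Or.inl (lac h)
    · exact Or.inr (lac h)
  hsum := summable_w.1
  hsum1 := summable_w.2
  hω j := by
    have h1 := t_le j
    have h1' := t_ge j
    have h2 := t_pos j
    have hA := hp_pos (2 * nu j)
    have hB := hp_pos (nu j + 1)
    have hC := hp_pos (4 * nu j)
    have h4 : hp (4 * nu j) = hp (2 * nu j) ^ 2 := by
      rw [← hp_two_mul]
      congr 1
      ring
    have hy : 1 / (2 * hp (2 * nu j)) ≤ Real.sqrt ‖(qq j - 1)⁻¹‖ := by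
      refine Real.le_sqrt_of_sq_le ?_
      rw [norm_pp, inv_eq_one_div, div_pow, one_pow, mul_pow, ← h4]
      exact one_div_le_one_div_of_le h2 (by linarith)
    have h5 : hp (96 * 4 ^ j.1 + 2 * nu j) ≤ hp (nu j + 1 + 2 * (4 * nu j) + 4) :=
      hp_anti (by have := nu_le j; have := four_pow_pos j.1; omega)
    rw [hp_succ (nu j + 1 + 2 * (4 * nu j)), hp_add, hp_add (nu j + 1), hp_two_mul (4 * nu j)] at h5
    have h6 : (hp (4 * nu j) / 4) ^ 2 ≤ ‖1 - qq j‖ ^ 2 := by gcongr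
    calc sg j.1 / (2 * ‖1 - qq j‖ ^ 2) ≤ sg j.1 / (2 * (hp (4 * nu j) / 4) ^ 2) :=
          div_le_div_of_nonneg_left (sg_pos _).le (by positivity) (by linarith)
      _ ≤ hp (nu j + 1) * (1 / (2 * hp (2 * nu j))) := by
          rw [mul_one_div, div_le_div_iff₀ (by positivity) (by positivity), sg]
          linarith
      _ ≤ _ := mul_le_mul_of_nonneg_left hy hB.le
  q := qq
  σ j := sg j.1
  hσ j := sg_pos _
  hq j := by
    have := sg_le_half j.1
    rw [qq, norm_mul, Complex.norm_exp_I_mul_ofReal, Complex.norm_real,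
      Real.norm_of_nonneg (by linarith), mul_one]
  hp _ := rfl
  hηq _ := rfl

lemma off_bound {k : Idx} {z : ℂ} {n T : ℕ} (hn : hp n ≤ ‖1 - qq k * z‖)
    (h : nu k + 1 + 2 * n ≤ 96 * 4 ^ k.1 + 6 + 48 * T) :
    ‖ex.T' k z‖ ≤ hp (nu k + 1) / hp (48 * T) := by
  rw [ex.norm_T']
  change sg k.1 / 64 / ‖1 - qq k * z‖ ^ 2 ≤ _
  have h1 := hp_anti h
  rw [hp_add, hp_add (nu k + 1), hp_two_mul, hp_succ] at h1
  have h2 := hp_pos n
  have h3 : hp n ^ 2 ≤ ‖1 - qq k * z‖ ^ 2 := by gcongr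
  have h4 := sg_pos k.1
  calc sg k.1 / 64 / ‖1 - qq k * z‖ ^ 2 ≤ sg k.1 / 64 / hp n ^ 2 :=
        div_le_div_of_nonneg_left (by positivity) (by positivity) h3
    _ ≤ _ := by
        rw [div_le_div_iff₀ (by positivity) (hp_pos _), sg]
        linarith

/-- The angles of one block. -/
noncomputable def thb (b : ℕ) (i : Fin (4 ^ b)) : ℝ := th ⟨b, i⟩

lemma thb_eq (b : ℕ) (i : Fin (4 ^ b)) : thb b i = 16 ^ (i : ℕ) * hp (52 * 4 ^ b) := by
  have h1 : 52 * 4 ^ b = 4 * nu ⟨b, i⟩ + 4 * (i : ℕ) := by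
    have := i.2
    simp only [nu]
    omega
  rw [h1, hp_succ, pow_mul, thb, th]
  norm_num
  field_simp

lemma sep (b : ℕ) (d : Fin (4 ^ b) → ℤ) (hd : ∀ j, |d j| ≤ 2) (hne : ∃ j, d j ≠ 0) {s : ℝ}
    (hs0 : 0 ≤ s) (hs1 : s ≤ 1) :
    hp (52 * 4 ^ b + 2) ≤ ‖1 - (s : ℂ) * exp (I * (∑ i, (d i : ℝ) * thb b i : ℝ))‖ := by
  have h1 : hp (52 * 4 ^ b) ≤ |∑ i, (d i : ℝ) * thb b i| := by
    simp only [thb_eq]
    exact digits_sep d hd hne (hp_pos _).le
  have h2 : |∑ i, (d i : ℝ) * thb b i| ≤ 3 := by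
    have h3 : ∀ i : Fin (4 ^ b), |(d i : ℝ) * thb b i| ≤ 2 * hp (4 ^ b) := by
      intro i
      have h4 : |(d i : ℝ)| ≤ 2 := by exact_mod_cast hd i
      have h5 : thb b i ≤ hp (4 ^ b) := hp_anti (by have := nu_gt ⟨b, i⟩; simp only at this; omega)
      have h6 : 0 < thb b i := hp_pos _
      rw [abs_mul, abs_of_pos h6]
      exact mul_le_mul h4 h5 h6.le (by norm_num)
    refine (Finset.abs_sum_le_sum_abs _ _).trans ((Finset.sum_le_sum fun i _ => h3 i).trans ?_)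
    rw [Finset.sum_const, Finset.card_univ, Fintype.card_fin, nsmul_eq_mul]
    have h7 : ((4 ^ b : ℕ) : ℝ) ≤ 2 ^ (4 ^ b) := by exact_mod_cast Nat.lt_two_pow_self.le
    have h8 := two_pow_mul_hp (4 ^ b)
    have h9 := mul_le_mul_of_nonneg_right h7 (hp_pos (4 ^ b)).le
    linarith
  have h3 := norm_one_sub_ge hs0 hs1 h2
  rw [hp_succ]
  linarith

/-- The test points. -/
noncomputable def pt (b : ℕ) (ε : Fin (4 ^ b) → Fin 3) : ℂ :=
  ((1 - sg b : ℝ) : ℂ) * exp (I * (-(ang (thb b) ε) : ℝ))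

lemma norm_pt (b : ℕ) (ε : Fin (4 ^ b) → Fin 3) : ‖pt b ε‖ = 1 - sg b := by
  have := sg_le_half b
  rw [pt, norm_mul, Complex.norm_exp_I_mul_ofReal, Complex.norm_real,
    Real.norm_of_nonneg (by linarith), mul_one]

lemma norm_pt_lt (b : ℕ) (ε : Fin (4 ^ b) → Fin 3) : ‖pt b ε‖ < 1 := by
  rw [norm_pt]
  linarith [sg_pos b]

lemma abs_sgn3 (s : Fin 3) : |sgn3 s| ≤ 1 := by
  fin_cases s <;> simp [sgn3]

lemma one_sub_pt (b : ℕ) {ε : Fin (4 ^ b) → Fin 3} (hε : ε ≠ 0) :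
    hp (52 * 4 ^ b + 2) ≤ ‖1 - pt b ε‖ := by
  have h1 := sg_le_half b
  have h2 := sg_pos b
  have := sep b (fun i => -sgn3 (ε i)) (fun i => by
    rw [abs_neg]; exact (abs_sgn3 _).trans (by norm_num)) (by
    by_contra hc
    push Not at hc
    apply hε
    funext i
    have := hc i
    revert this
    simp only [Pi.zero_apply]
    generalize ε i = s
    fin_cases s <;> simp [sgn3]) (s := 1 - sg b) (by linarith) (by linarith)
  convert this using 5
  rw [pt, ang, ← Finset.sum_neg_distrib]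
  congr 4
  refine Finset.sum_congr rfl fun i _ => ?_
  push_cast
  ring

lemma qq_mul_pt (b : ℕ) (ε : Fin (4 ^ b) → Fin 3) (i : Fin (4 ^ b)) :
    qq ⟨b, i⟩ * pt b ε =
      (((1 - sg b) ^ 2 : ℝ) : ℂ) * exp (I * (thb b i - ang (thb b) ε : ℝ)) := by
  rw [qq, pt, thb, mul_mul_mul_comm, ← Complex.exp_add]
  push_cast
  congr 1
  · ring
  · congr 1
    ring

lemma off_all (b : ℕ) (ε : Fin (4 ^ b) → Fin 3) (k : Idx)
    (hk : ∀ i : Fin (4 ^ b), k = ⟨b, i⟩ → ε ≠ Pi.single i 1) :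
    ‖ex.T' k (pt b ε)‖ ≤ hp (nu k + 1) / hp (48 * 4 ^ b) := by
  have hle := nu_le k
  rcases lt_trichotomy k.1 b with h | h | h
  · have h1 := four_pow_lt h
    refine off_bound (n := 96 * 4 ^ k.1) (ex.den_ge_left k (norm_pt_lt b ε).le) (by omega)
  · obtain ⟨c, i⟩ := k
    simp only at h
    subst h
    have hε := hk i rfl
    have h1 := sg_le_half c
    have h2 := sg_pos c
    refine off_bound (n := 52 * 4 ^ c + 2) ?_ (by simp only at hle ⊢; omega)
    rw [qq_mul_pt]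
    have := sep c (fun l => (if l = i then 1 else 0) - sgn3 (ε l)) (fun l => by
      have := abs_le.mp (abs_sgn3 (ε l))
      rw [abs_le]
      split_ifs <;> constructor <;> omega) (by
      by_contra hc
      push Not at hc
      apply hε
      funext l
      have := hc l
      revert this
      rw [Pi.single_apply]
      generalize ε l = s
      split_ifs <;> fin_cases s <;> simp [sgn3]) (s := (1 - sg c) ^ 2) (by positivity)
      (by nlinarith)
    have h3 : thb c i - ang (thb c) ε =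
        ∑ l, (((if l = i then 1 else 0) - sgn3 (ε l) : ℤ) : ℝ) * thb c l := by
      simp [sub_mul, Finset.sum_sub_distrib, ang]
    rw [h3]
    exact this
  · have h1 := four_pow_lt h
    refine off_bound (n := 96 * 4 ^ b) ?_ (by omega)
    have := ex.den_ge_right k (z := pt b ε)
    rw [norm_pt] at this
    change 1 - (1 - sg b) ≤ ‖1 - qq k * pt b ε‖ at this
    rw [← sg]
    linarith

lemma hasSum_w (b : ℕ) : ∃ S : ℝ, S ≤ 1 / hp (48 * 4 ^ b) ∧
    HasSum (fun k : Idx => hp (nu k + 1) / hp (48 * 4 ^ b)) S :=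
  ⟨_, div_le_div_of_nonneg_right summable_w.2 (hp_pos _).le, summable_w.1.hasSum.div_const _⟩

lemma U'_le (b : ℕ) (ε : Fin (4 ^ b) → Fin 3) (hε : ∀ i, ε ≠ Pi.single i 1) :
    ‖deriv ex.U (pt b ε)‖ ≤ 1 / hp (48 * 4 ^ b) := by
  obtain ⟨S, hS, hs⟩ := hasSum_w b
  rw [← (ex.U_deriv (norm_pt_lt b ε)).2.tsum_eq]
  exact (tsum_of_norm_bounded hs fun k => off_all b ε k fun i _ => hε i).trans hS

lemma U'_ge (b : ℕ) (i : Fin (4 ^ b)) :
    1 / (256 * sg b) - 1 / hp (48 * 4 ^ b) ≤ ‖deriv ex.U (pt b (Pi.single i 1))‖ := by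
  classical
  obtain ⟨S, hS, hs⟩ := hasSum_w b
  have h0 := (ex.U_deriv (norm_pt_lt b (Pi.single i 1))).2
  have h1 := h0.summable.tsum_eq_add_tsum_ite (⟨b, i⟩ : Idx)
  rw [h0.tsum_eq] at h1
  have h2 : ‖∑' k : Idx, if k = ⟨b, i⟩ then 0 else ex.T' k (pt b (Pi.single i 1))‖ ≤ S := by
    refine tsum_of_norm_bounded hs fun k => ?_
    split_ifs with hk
    · rw [norm_zero]
      exact (div_pos (hp_pos _) (hp_pos _)).le
    · refine off_all b _ k fun l hl h3 => hk ?_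
      have : i = l := by
        by_contra hne
        have := congrFun h3 i
        simp [hne] at this
      rw [hl, this]
  have h3 : 1 / (256 * sg b) ≤ ‖ex.T' ⟨b, i⟩ (pt b (Pi.single i 1))‖ := by
    rw [ex.norm_T']
    change _ ≤ sg b / 64 / ‖1 - qq ⟨b, i⟩ * pt b (Pi.single i 1)‖ ^ 2
    have h4 := sg_le_half b
    have h5 := sg_pos b
    rw [qq_mul_pt, ang_single, sub_self, ofReal_zero, mul_zero, Complex.exp_zero, mul_one,
      ← ofReal_one, ← ofReal_sub, Complex.norm_real, Real.norm_eq_abs, sq_abs]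
    have h6 : 0 < 1 - (1 - sg b) ^ 2 := by nlinarith
    have h7 : (1 - (1 - sg b) ^ 2) ^ 2 ≤ (2 * sg b) ^ 2 :=
      pow_le_pow_left₀ h6.le (by nlinarith) 2
    rw [div_le_div_iff₀ (by positivity) (by positivity)]
    nlinarith
  have h4 := norm_sub_norm_le (ex.T' ⟨b, i⟩ (pt b (Pi.single i 1)))
    (-∑' k : Idx, if k = ⟨b, i⟩ then 0 else ex.T' k (pt b (Pi.single i 1)))
  rw [norm_neg, sub_neg_eq_add, ← h1] at h4
  linarith

lemma lam_le (b : ℕ) : 2 * (1 / hp (48 * 4 ^ b)) ≤ 1 / hp (52 * 4 ^ b + 2) := by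
  have h1 : hp (52 * 4 ^ b + 2) ≤ hp (48 * 4 ^ b + 1) := hp_anti (by omega)
  rw [hp_succ (48 * 4 ^ b)] at h1
  rw [mul_one_div, div_le_div_iff₀ (hp_pos _) (hp_pos _)]
  linarith

theorem main_bound (b : ℕ) :
    ((2 : ℝ) ^ b / 2048 - 2) / sg b ≤ Real.exp 2 *
      ∑' k : ℕ, ((k : ℝ) + 1) * ‖coef ex.g (k + 1)‖ * (1 - sg b) ^ (k + 1) := by
  have h1 := sg_le_half b
  have h2 := sg_pos b
  have hE := hp_pos (52 * 4 ^ b + 2)
  have hΛ := hp_pos (48 * 4 ^ b)
  have hl := lam_le b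
  have hM : (1 : ℝ) ≤ 2 ^ b := one_le_pow₀ (by norm_num)
  have hm : ((4 ^ b : ℕ) : ℝ) = (2 ^ b) ^ 2 := by
    push_cast
    rw [← pow_mul, mul_comm, pow_mul]
    norm_num
  have key := lower_bound (c := fun k : ℕ => ((k : ℂ) + 1) * coef ex.g (k + 1))
    (G := fun z => z * deriv ex.g z / 2)
    (fun z hz => hasSum_coef_deriv ex.differentiableOn_g hz) (r := 1 - sg b) (by linarith)
    (by linarith) (thb b) (a := 1 / 2 ^ b) (L := 1 / (2048 * sg b) - 1 / hp (52 * 4 ^ b + 2))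
    (K := 1 / sg b) (E := 1 / hp (52 * 4 ^ b + 2)) (by positivity)
    (by rw [div_le_one (by positivity)]; exact hM) (by positivity)
    (by
      intro i
      have h3 := U'_ge b i
      have h4 := one_sub_pt b (ε := Pi.single i 1) (by
        intro h
        have := congrFun h i
        simp at this)
      have h5 := ex.norm_deriv_g_ge (norm_pt_lt b (Pi.single i 1)) (by rw [norm_pt]; linarith)
      have h6 := one_div_le_one_div_of_le hE h4
      have h7 : pt b (Pi.single i 1) = ((1 - sg b : ℝ) : ℂ) * exp (I * (-(thb b i) : ℝ)) := by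
        rw [pt, ang_single]
      rw [← h7, norm_div, Complex.norm_two]
      have h8 : 1 / (2048 * sg b) = 1 / (256 * sg b) / 8 := by
        field_simp
        norm_num
      have h9 : 0 < 1 / hp (48 * 4 ^ b) := by positivity
      linarith)
    (by
      have h3 := U'_le b 0 (by
        intro i h
        have := congrFun h i
        simp at this)
      have h5 := ex.norm_deriv_g_le (norm_pt_lt b 0)
      have h7 : pt b 0 = ((1 - sg b : ℝ) : ℂ) := by
        rw [pt, ang_zero]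
        simp
      have h8 : ‖1 - pt b 0‖ = sg b := by
        rw [h7, ← ofReal_one, ← ofReal_sub, Complex.norm_real, Real.norm_eq_abs]
        simp [abs_of_pos h2]
      have h9 : 1 / hp (52 * 4 ^ b + 2) ≤ 1 / sg b :=
        one_div_le_one_div_of_le h2 (hp_anti (by have := four_pow_pos b; omega))
      rw [h8] at h5
      rw [← h7, norm_div, Complex.norm_two]
      linarith)
    (by
      intro ε h0 hε
      have h3 := U'_le b ε hε
      have h4 := one_sub_pt b h0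
      have h5 := ex.norm_deriv_g_le (norm_pt_lt b ε)
      have h6 := one_div_le_one_div_of_le hE h4
      change ‖pt b ε * deriv ex.g (pt b ε) / 2‖ ≤ _
      rw [norm_div, Complex.norm_two]
      linarith)
  have h3 : 2 * (1 / (2 : ℝ) ^ b) ^ 2 * ((4 ^ b : ℕ) : ℝ) = 2 := by
    rw [hm]
    field_simp
  have h4 : ∀ k : ℕ, ‖((k : ℂ) + 1) * coef ex.g (k + 1)‖ = ((k : ℝ) + 1) * ‖coef ex.g (k + 1)‖ := by
    intro k
    rw [norm_mul]
    congr 1
    exact_mod_cast Complex.norm_natCast (k + 1)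
  rw [h3] at key
  simp only [h4] at key
  refine le_trans ?_ key
  have h5 : (2 : ℝ) ^ b ≤ 2 ^ (2 * 4 ^ b) :=
    pow_le_pow_right₀ (by norm_num) (by
      have : b < 4 ^ b := Nat.lt_pow_self (by norm_num)
      omega)
  have h6 : (3 : ℝ) ^ (4 ^ b) ≤ 2 ^ (2 * 4 ^ b) := by
    rw [pow_mul]
    exact pow_le_pow_left₀ (by norm_num) (by norm_num) _
  have h7 : 2 * 2 ^ (2 * 4 ^ b) * (1 / hp (52 * 4 ^ b + 2)) ≤ 1 / sg b := by
    have h8 : sg b ≤ hp (52 * 4 ^ b + 2 + (2 * 4 ^ b + 1)) :=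
      hp_anti (by have := four_pow_pos b; omega)
    rw [hp_succ, le_div_iff₀ (by positivity), pow_succ] at h8
    rw [mul_one_div, div_le_div_iff₀ hE h2]
    linarith
  have h8 : ((4 ^ b : ℕ) : ℝ) * (1 / 2 ^ b * (1 / (2048 * sg b) - 1 / hp (52 * 4 ^ b + 2))) =
      2 ^ b / 2048 / sg b - 2 ^ b * (1 / hp (52 * 4 ^ b + 2)) := by
    rw [hm]
    field_simp
  have h9 : ((2 : ℝ) ^ b / 2048 - 2) / sg b = 2 ^ b / 2048 / sg b - 2 * (1 / sg b) := by
    field_simp
  have h10 : 0 < 1 / hp (52 * 4 ^ b + 2) := by positivity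
  have h11 := mul_le_mul_of_nonneg_right h5 h10.le
  have h12 := mul_le_mul_of_nonneg_right h6 h10.le
  rw [h8, h9]
  linarith

lemma tendsto_r : Filter.Tendsto (fun b : ℕ => 1 - sg b) Filter.atTop
    (nhdsWithin (1 : ℝ) (Set.Iio 1)) := by
  refine tendsto_nhdsWithin_iff.mpr ⟨?_, Filter.Eventually.of_forall fun b => ?_⟩
  · have h1 : Filter.Tendsto sg Filter.atTop (nhds 0) := by
      refine squeeze_zero (fun b => (sg_pos b).le) (g := hp) (fun b => hp_anti ?_) ?_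
      · have : b < 4 ^ b := Nat.lt_pow_self (by norm_num)
        omega
      · exact tendsto_pow_atTop_nhds_zero_of_lt_one (by norm_num) (by norm_num)
    simpa using h1.const_sub 1
  · simp [sg_pos b]

theorem not_isBigO : ¬ Asymptotics.IsBigO (nhdsWithin (1 : ℝ) (Set.Iio 1))
    (fun r : ℝ => ∑' k : ℕ, ((k : ℝ) + 1) * ‖coef ex.g (k + 1)‖ * r ^ (k + 1))
    (fun r : ℝ => 1 / (1 - r)) := by
  intro h
  obtain ⟨C, hC⟩ := h.bound
  have h1 := tendsto_r.eventually hC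
  have h2 : Filter.Tendsto (fun b : ℕ => (2 : ℝ) ^ b) Filter.atTop Filter.atTop :=
    tendsto_pow_atTop_atTop_of_one_lt (by norm_num)
  obtain ⟨b, hb1, hb2⟩ := (h1.and (h2.eventually_gt_atTop (2048 * (Real.exp 2 * C + 2)))).exists
  have h3 := main_bound b
  have h4 := sg_pos b
  rw [sub_sub_cancel, Real.norm_of_nonneg (by positivity : 0 ≤ 1 / sg b)] at hb1
  have h5 := (le_abs_self _).trans hb1
  have h6 := h3.trans (mul_le_mul_of_nonneg_left h5 (Real.exp_pos 2).le)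
  rw [mul_one_div, ← mul_div_assoc, div_le_div_iff_of_pos_right h4] at h6
  linarith

end Pool.Agent.Lib.MP_51cccb_an
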